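import Pool.Agent.P.MP_531d8e_lc.Complete

namespace Pool.Agent.P.MP_531d8e_lc

open Finset Function

theorem no_reverse {σ : Type} {S : Set σ} {f ρ : σ → σ} (hm : ∀ s ∈ S, f s ∈ S)
    (hρ : ∀ s ∈ S, ρ s ∈ S) (hi : Set.InjOn f S) (h0 : ∀ s ∈ S, ρ s ≠ s) (h1 : ∀ s ∈ S, ρ s ≠ f s)
    (h2 : ∀ s ∈ S, f (ρ (f s)) = ρ s) : ∀ k, ∀ s ∈ S, f^[k] s ≠ ρ s := by
  have hit : ∀ k, ∀ s ∈ S, f^[k] s ∈ S := by
    intro k
    induction k with
    | zero => intro s hs; exact hs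
    | succ k ih => intro s hs; rw [iterate_succ_apply']; exact hm _ (ih s hs)
  intro k
  induction k using Nat.strong_induction_on with
  | _ k ih =>
    intro s hs e
    rcases k with _ | _ | k
    · exact h0 s hs e.symm
    · exact h1 s hs e.symm
    · refine ih k (by omega) (f s) (hm s hs) ?_
      refine hi (hit k _ (hm s hs)) (hρ _ (hm s hs)) ?_
      rw [h2 s hs, ← e, iterate_succ_apply', iterate_succ_apply]

theorem tour_of_struct {V : Finset (ℤ × ℤ)} {M P : ℕ → ℕ → Prop} {B : ℕ} (hB0 : 0 < B)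
    (hV : ∀ c, c ∈ V ↔ ∃ X Y : ℕ, c = ((X : ℤ), (Y : ℤ)) ∧ M X Y)
    (hP : ∀ X Y, P X Y → M X Y) (hb : ∀ X Y, M X Y → X < B ∧ Y < B)
    (colc : ∀ X a Y b, M X a → M X b → a ≤ Y → Y ≤ b → M X Y)
    (rowc : ∀ Y a X b, M a Y → M b Y → a ≤ X → X ≤ b → M X Y)
    (col : ∀ X < B, ∃ a b, a < b ∧ ∀ Y, P X Y ↔ Y = a ∨ Y = b)
    (row : ∀ Y < B, ∃ a b, a < b ∧ ∀ X, P X Y ↔ X = a ∨ X = b)
    (cover : ∀ X Y, M X Y → ((∃ Y' ≤ Y, P X Y') ∧ ∃ Y' ≥ Y, P X Y') ∨
      ((∃ X' ≤ X, P X' Y) ∧ ∃ X' ≥ X, P X' Y))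
    (conn : ∀ A C : ℕ → Prop, (∀ X Y, P X Y → (A Y ↔ C X)) → ∀ X < B, (C X ↔ C 0)) :
    HasTour V (2 * B) := by
  classical
  choose! lo hi hlh hc using col
  choose! lf rt hlr hr using row
  have pb : ∀ X Y, P X Y → X < B ∧ Y < B := fun X Y e => hb _ _ (hP _ _ e)
  let nx : ℕ × ℕ × Bool → ℕ × ℕ × Bool := fun s =>
    if s.2.2 = true then (s.1, if s.2.1 = lo s.1 then hi s.1 else lo s.1, false)
    else (if s.1 = lf s.2.1 then rt s.2.1 else lf s.2.1, s.2.1, true)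
  let ρ : ℕ × ℕ × Bool → ℕ × ℕ × Bool := fun s => (s.1, s.2.1, !s.2.2)
  let S0 : Set (ℕ × ℕ × Bool) := {s | P s.1 s.2.1}
  have n1 : ∀ X, nx (X, lo X, true) = (X, hi X, false) := fun X => by simp [nx]
  have n2 : ∀ X < B, nx (X, hi X, true) = (X, lo X, false) := fun X hX => by
    have := hlh X hX
    simp [nx, this.ne']
  have n3 : ∀ Y, nx (lf Y, Y, false) = (rt Y, Y, true) := fun Y => by simp [nx]
  have n4 : ∀ Y < B, nx (rt Y, Y, false) = (lf Y, Y, true) := fun Y hY => by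
    have := hlr Y hY
    simp [nx, this.ne']
  have cases0 : ∀ s ∈ S0, (∃ X < B, s = (X, lo X, true)) ∨ (∃ X < B, s = (X, hi X, true)) ∨
      (∃ Y < B, s = (lf Y, Y, false)) ∨ ∃ Y < B, s = (rt Y, Y, false) := by
    rintro ⟨X, Y, b⟩ hs
    have hs' : P X Y := hs
    have := pb _ _ hs'
    cases b
    · rcases (hr Y this.2 X).1 hs' with rfl | rfl
      · exact Or.inr (Or.inr (Or.inl ⟨Y, this.2, rfl⟩))
      · exact Or.inr (Or.inr (Or.inr ⟨Y, this.2, rfl⟩))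
    · rcases (hc X this.1 Y).1 hs' with rfl | rfl
      · exact Or.inl ⟨X, this.1, rfl⟩
      · exact Or.inr (Or.inl ⟨X, this.1, rfl⟩)
  have p1 : ∀ X < B, P X (lo X) := fun X hX => (hc X hX _).2 (Or.inl rfl)
  have p2 : ∀ X < B, P X (hi X) := fun X hX => (hc X hX _).2 (Or.inr rfl)
  have p3 : ∀ Y < B, P (lf Y) Y := fun X hX => (hr X hX _).2 (Or.inl rfl)
  have p4 : ∀ Y < B, P (rt Y) Y := fun X hX => (hr X hX _).2 (Or.inr rfl)
  have hm : ∀ s ∈ S0, nx s ∈ S0 := by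
    intro s hs
    rcases cases0 s hs with ⟨X, hX, rfl⟩ | ⟨X, hX, rfl⟩ | ⟨X, hX, rfl⟩ | ⟨X, hX, rfl⟩
    · rw [n1]; exact p2 X hX
    · rw [n2 X hX]; exact p1 X hX
    · rw [n3]; exact p4 X hX
    · rw [n4 X hX]; exact p3 X hX
  have hρ : ∀ s ∈ S0, ρ s ∈ S0 := fun s hs => hs
  have hρρ : ∀ s, ρ (ρ s) = s := fun s => by simp [ρ]
  have h2 : ∀ s ∈ S0, nx (ρ (nx s)) = ρ s := by
    intro s hs
    rcases cases0 s hs with ⟨X, hX, rfl⟩ | ⟨X, hX, rfl⟩ | ⟨X, hX, rfl⟩ | ⟨X, hX, rfl⟩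
    · rw [n1]; exact n2 X hX
    · rw [n2 X hX]; exact n1 X
    · rw [n3]; exact n4 X hX
    · rw [n4 X hX]; exact n3 X
  have hinj : Set.InjOn nx S0 := by
    intro s hs s' hs' e
    rw [← hρρ s, ← h2 s hs, e, h2 s' hs', hρρ]
  have h0 : ∀ s ∈ S0, ρ s ≠ s := by
    rintro ⟨X, Y, b⟩ - e
    cases b <;> simp [ρ] at e
  have h1 : ∀ s ∈ S0, ρ s ≠ nx s := by
    intro s hs
    rcases cases0 s hs with ⟨X, hX, rfl⟩ | ⟨X, hX, rfl⟩ | ⟨X, hX, rfl⟩ | ⟨X, hX, rfl⟩
    · rw [n1]; have := hlh X hX; simp [ρ, this.ne]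
    · rw [n2 X hX]; have := hlh X hX; simp [ρ, this.ne']
    · rw [n3]; have := hlr X hX; simp [ρ, this.ne]
    · rw [n4 X hX]; have := hlr X hX; simp [ρ, this.ne']
  let F0 : Finset (ℕ × ℕ × Bool) := (range B ×ˢ range B ×ˢ univ).filter fun s => P s.1 s.2.1
  have hF0 : ∀ s, s ∈ F0 ↔ s ∈ S0 := by
    intro s
    simp only [F0, mem_filter, mem_product, mem_range, mem_univ, and_true]
    exact ⟨fun e => e.2, fun e => ⟨pb _ _ e, e⟩⟩
  have hfin : S0.Finite := (F0.finite_toSet).subset fun s hs => (hF0 s).2 hs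
  have hper : ∀ s ∈ S0, ∃ N, 0 < N ∧ nx^[N] s = s := fun s hs =>
    periodic_of_injOn hfin hm hinj hs
  let s₀ : ℕ × ℕ × Bool := (0, lo 0, true)
  have hs₀ : s₀ ∈ S0 := p1 0 hB0
  let O : ℕ × ℕ × Bool → Prop := fun s => ∃ N, nx^[N] s₀ = s
  have hO : ∀ s, O s → s ∈ S0 := by
    rintro _ ⟨N, rfl⟩
    induction N with
    | zero => exact hs₀
    | succ N ih => rw [iterate_succ_apply']; exact hm _ ih
  have hOn : ∀ s ∈ S0, (O (nx s) ↔ O s) := fun s hs => reach_next_iff (hper s hs)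
  have hOρ : ∀ s, O s → ¬ O (ρ s) := by
    rintro s ⟨N, hN⟩ ⟨N', hN'⟩
    obtain ⟨K, hK, e⟩ := hper s₀ hs₀
    have e' : ∀ j, nx^[K * j] s₀ = s₀ := fun j => by
      rw [iterate_mul]; exact iterate_fixed e j
    have : nx^[N' + K * N - N] s = ρ s := by
      rw [← hN', ← hN, ← iterate_add_apply,
        show N' + K * N - N + N = N' + K * N by have := Nat.le_mul_of_pos_left N hK; omega,
        iterate_add_apply, e']
    exact no_reverse hm hρ hinj h0 h1 h2 _ s (hO s ⟨N, hN⟩) this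
  let S : Finset (ℕ × ℕ × Bool) := F0.filter O
  have hS : ∀ s, s ∈ S ↔ O s := fun s => by
    simp only [S, mem_filter, hF0]
    exact ⟨fun e => e.2, fun e => ⟨hO s e, e⟩⟩
  have card0 : F0.card ≤ 4 * B := by
    have := card_le_card_of_injOn (s := F0) (t := range B ×ˢ (univ : Finset Bool) ×ˢ (univ : Finset Bool))
      (fun s => (s.1, decide (s.2.1 = lo s.1), s.2.2)) (fun s hs => by
        have q : P s.1 s.2.1 := (hF0 s).1 hs
        exact mem_coe.2 (mem_product.2 ⟨mem_range.2 (pb _ _ q).1,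
          mem_product.2 ⟨mem_univ _, mem_univ _⟩⟩)) (by
        rintro ⟨X, Y, b⟩ hs ⟨X', Y', b'⟩ hs' e
        have q : P X Y := (hF0 _).1 hs
        have q' : P X' Y' := (hF0 _).1 hs'
        simp only [Prod.mk.injEq, decide_eq_decide] at e ⊢
        obtain ⟨rfl, e, rfl⟩ := e
        have a := (hc X (pb _ _ q).1 Y).1 q
        have a' := (hc X (pb _ _ q).1 Y').1 q'
        refine ⟨rfl, ?_, rfl⟩
        omega)
    simp only [card_product, card_range, card_univ, Fintype.card_bool] at this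
    omega
  have card1 : S.card ≤ 2 * B := by
    have d : Disjoint S (S.image ρ) := by
      rw [disjoint_right]
      intro s hs hs'
      obtain ⟨s', e, rfl⟩ := mem_image.1 hs
      exact hOρ _ ((hS _).1 e) ((hS _).1 hs')
    have c1 : (S.image ρ).card = S.card :=
      card_image_of_injective _ (Function.Involutive.injective hρρ)
    have c2 : S ∪ S.image ρ ⊆ F0 := by
      intro s hs
      rcases mem_union.1 hs with hs | hs
      · exact (mem_filter.1 hs).1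
      · obtain ⟨s', e, rfl⟩ := mem_image.1 hs
        exact (hF0 _).2 (hρ _ (hO _ ((hS _).1 e)))
    have c3 := card_le_card c2
    rw [card_union_of_disjoint d] at c3
    omega
  let Z : ℕ × ℕ × Bool → Prop := fun s => O s ∨ O (ρ s)
  have zρ : ∀ s, Z (ρ s) ↔ Z s := fun s => by simp only [Z, hρρ, or_comm]
  have zn : ∀ s ∈ S0, (Z (nx s) ↔ Z s) := fun s hs => by
    simp only [Z]
    rw [hOn s hs, ← hOn _ (hρ _ (hm s hs)), h2 s hs]
  have zb : ∀ X Y, Z (X, Y, false) ↔ Z (X, Y, true) := fun X Y => zρ (X, Y, true)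
  have zall : ∀ X < B, Z (X, lo X, true) := by
    intro X hX
    refine (conn (fun Y => Z (lf Y, Y, true)) (fun X => Z (X, lo X, true)) ?_ X hX).2
      (Or.inl ⟨0, rfl⟩)
    intro X Y q
    have a : Z (X, lo X, true) ↔ Z (X, Y, true) := by
      rcases (hc X (pb _ _ q).1 Y).1 q with rfl | rfl
      · rfl
      · rw [← zn (X, lo X, true) (p1 X (pb _ _ q).1), n1, zb]
    have b : Z (lf Y, Y, true) ↔ Z (X, Y, true) := by
      rcases (hr Y (pb _ _ q).2 X).1 q with rfl | rfl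
      · rfl
      · rw [← zb, ← zn (lf Y, Y, false) (p3 Y (pb _ _ q).2), n3]
    exact b.trans a.symm
  have zall' : ∀ X Y, P X Y → Z (X, Y, true) := by
    intro X Y q
    rcases (hc X (pb _ _ q).1 Y).1 q with rfl | rfl
    · exact zall X (pb _ _ q).1
    · rw [← zb, ← n1, zn _ (p1 X (pb _ _ q).1)]; exact zall X (pb _ _ q).1
  let d : ℕ × ℕ × Bool → ℤ × ℤ := fun s =>
    if s.2.2 = true then (if s.2.1 = lo s.1 then (0, 1) else (0, -1))
    else (if s.1 = lf s.2.1 then (1, 0) else (-1, 0))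
  let len : ℕ × ℕ × Bool → ℕ := fun s =>
    if s.2.2 = true then hi s.1 - lo s.1 else rt s.2.1 - lf s.2.1
  have d1 : ∀ X, d (X, lo X, true) = (0, 1) := fun X => by simp [d]
  have d2 : ∀ X < B, d (X, hi X, true) = (0, -1) := fun X hX => by
    have := hlh X hX
    simp [d, this.ne']
  have d3 : ∀ Y, d (lf Y, Y, false) = (1, 0) := fun Y => by simp [d]
  have d4 : ∀ Y < B, d (rt Y, Y, false) = (-1, 0) := fun Y hY => by
    have := hlr Y hY
    simp [d, this.ne']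
  have l1 : ∀ X Y, len (X, Y, true) = hi X - lo X := fun X Y => by simp [len]
  have l2 : ∀ X Y, len (X, Y, false) = rt Y - lf Y := fun X Y => by simp [len]
  have H := hasTour_of_segments (V := V) S nx (fun s => ((s.1 : ℤ), (s.2.1 : ℤ))) d len s₀
    ((hS _).2 ⟨0, rfl⟩) (fun s hs => (hS _).2 ((hOn s (hO _ ((hS _).1 hs))).2 ((hS _).1 hs)))
    (fun s hs => ?_) (fun s hs => ?_) (fun s hs => ?_) (fun s hs j hj => ?_) (hper _ hs₀)
    (fun v hv => ?_)
  · obtain ⟨v, w, a, b⟩ := H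
    refine ⟨v, w, a, b.trans (le_trans ?_ card1)⟩
    rw [card_eq_sum_ones]
    refine sum_le_sum fun s _ => ?_
    have dv : ∀ X Y, d (X, Y, true) = (0, 1) ∨ d (X, Y, true) = (0, -1) := fun X Y => by
      simp only [d, if_true]; split_ifs
      · exact Or.inl rfl
      · exact Or.inr rfl
    have dh : ∀ X Y, d (X, Y, false) = (1, 0) ∨ d (X, Y, false) = (-1, 0) := fun X Y => by
      simp only [d, Bool.false_eq_true, if_false]; split_ifs
      · exact Or.inl rfl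
      · exact Or.inr rfl
    obtain ⟨X, Y, b⟩ := s
    cases b
    · have e : nx (X, Y, false) = (if X = lf Y then rt Y else lf Y, Y, true) := rfl
      rw [e]
      rcases dh X Y with a | a <;> rcases dv (if X = lf Y then rt Y else lf Y) Y with a' | a' <;>
        rw [a, a'] <;> decide
    · have e : nx (X, Y, true) = (X, if Y = lo X then hi X else lo X, false) := rfl
      rw [e]
      rcases dv X Y with a | a <;> rcases dh X (if Y = lo X then hi X else lo X) with a' | a' <;>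
        rw [a, a'] <;> decide
  · rcases cases0 s (hO _ ((hS _).1 hs)) with ⟨X, hX, rfl⟩ | ⟨X, hX, rfl⟩ | ⟨X, hX, rfl⟩ | ⟨X, hX, rfl⟩
    · rw [l1]; have := hlh X hX; omega
    · rw [l1]; have := hlh X hX; omega
    · rw [l2]; have := hlr X hX; omega
    · rw [l2]; have := hlr X hX; omega
  · rcases cases0 s (hO _ ((hS _).1 hs)) with ⟨X, hX, rfl⟩ | ⟨X, hX, rfl⟩ | ⟨X, hX, rfl⟩ | ⟨X, hX, rfl⟩
    · rw [d1]; simp [U]
    · rw [d2 X hX]; simp [U]
    · rw [d3]; simp [U]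
    · rw [d4 X hX]; simp [U]
  · rcases cases0 s (hO _ ((hS _).1 hs)) with ⟨X, hX, rfl⟩ | ⟨X, hX, rfl⟩ | ⟨X, hX, rfl⟩ | ⟨X, hX, rfl⟩
    · rw [n1, d1, l1]; have := hlh X hX
      simp only [Prod.smul_mk, smul_eq_mul, Prod.mk_add_mk, Prod.mk.injEq]; omega
    · rw [n2 X hX, d2 X hX, l1]; have := hlh X hX
      simp only [Prod.smul_mk, smul_eq_mul, Prod.mk_add_mk, Prod.mk.injEq]; omega
    · rw [n3, d3, l2]; have := hlr X hX
      simp only [Prod.smul_mk, smul_eq_mul, Prod.mk_add_mk, Prod.mk.injEq]; omega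
    · rw [n4 X hX, d4 X hX, l2]; have := hlr X hX
      simp only [Prod.smul_mk, smul_eq_mul, Prod.mk_add_mk, Prod.mk.injEq]; omega
  · rcases cases0 s (hO _ ((hS _).1 hs)) with ⟨X, hX, rfl⟩ | ⟨X, hX, rfl⟩ | ⟨X, hX, rfl⟩ | ⟨X, hX, rfl⟩
    · rw [l1] at hj; rw [d1]
      refine (hV _).2 ⟨X, lo X + j, ?_, colc _ _ _ _ (hP _ _ (p1 X hX)) (hP _ _ (p2 X hX))
        (by omega) (by omega)⟩
      simp only [Prod.smul_mk, smul_eq_mul, Prod.mk_add_mk, Prod.mk.injEq]; omega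
    · rw [l1] at hj; rw [d2 X hX]
      refine (hV _).2 ⟨X, hi X - j, ?_, colc _ _ _ _ (hP _ _ (p1 X hX)) (hP _ _ (p2 X hX))
        (by omega) (by omega)⟩
      simp only [Prod.smul_mk, smul_eq_mul, Prod.mk_add_mk, Prod.mk.injEq]; omega
    · rw [l2] at hj; rw [d3]
      refine (hV _).2 ⟨lf X + j, X, ?_, rowc _ _ _ _ (hP _ _ (p3 X hX)) (hP _ _ (p4 X hX))
        (by omega) (by omega)⟩
      simp only [Prod.smul_mk, smul_eq_mul, Prod.mk_add_mk, Prod.mk.injEq]; omega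
    · rw [l2] at hj; rw [d4 X hX]
      refine (hV _).2 ⟨rt X - j, X, ?_, rowc _ _ _ _ (hP _ _ (p3 X hX)) (hP _ _ (p4 X hX))
        (by omega) (by omega)⟩
      simp only [Prod.smul_mk, smul_eq_mul, Prod.mk_add_mk, Prod.mk.injEq]; omega
  · obtain ⟨X, Y, rfl, hM⟩ := (hV _).1 hv
    obtain ⟨hX, hY⟩ := hb _ _ hM
    rcases cover X Y hM with ⟨⟨a, a1, a2⟩, b, b1, b2⟩ | ⟨⟨a, a1, a2⟩, b, b1, b2⟩
    · have := (hc X hX a).1 a2
      have := (hc X hX b).1 b2
      have := hlh X hX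
      rcases zall X hX with o | o
      · refine ⟨_, o, Y - lo X, by rw [l1]; omega, ?_⟩
        rw [d1]
        simp only [Prod.smul_mk, smul_eq_mul, Prod.mk_add_mk, Prod.mk.injEq]; omega
      · have o' : O (X, hi X, true) := by
          rw [← hOn (X, hi X, true) (p2 X hX), n2 X hX]; exact o
        refine ⟨_, o', hi X - Y, by rw [l1]; omega, ?_⟩
        rw [d2 X hX]
        simp only [Prod.smul_mk, smul_eq_mul, Prod.mk_add_mk, Prod.mk.injEq]; omega
    · have := (hr Y hY a).1 a2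
      have := (hr Y hY b).1 b2
      have := hlr Y hY
      rcases zall' _ _ (p3 Y hY) with o | o
      · have o' : O (rt Y, Y, false) := by
          rw [← hOn (rt Y, Y, false) (p4 Y hY), n4 Y hY]; exact o
        refine ⟨_, o', rt Y - X, by rw [l2]; omega, ?_⟩
        rw [d4 Y hY]
        simp only [Prod.smul_mk, smul_eq_mul, Prod.mk_add_mk, Prod.mk.injEq]; omega
      · refine ⟨(lf Y, Y, false), o, X - lf Y, by rw [l2]; omega, ?_⟩
        rw [d3]
        simp only [Prod.smul_mk, smul_eq_mul, Prod.mk_add_mk, Prod.mk.injEq]; omega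

end Pool.Agent.P.MP_531d8e_lc
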