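import Pool.Agent.P.MP_531d8e_lc.CLink
import Pool.Agent.P.MP_531d8e_lc.CTour

namespace Pool.Agent.P.MP_531d8e_lc

open Finset

theorem pm {w p p' i i' : ℕ} (hp : p < w) (hp' : p' < w) (e : p + w * i = p' + w * i') :
    p = p' ∧ i = i' := by
  have h1 : (p + w * i) % w = (p' + w * i') % w := by rw [e]
  rw [Nat.add_mul_mod_self_left, Nat.add_mul_mod_self_left, Nat.mod_eq_of_lt hp,
    Nat.mod_eq_of_lt hp'] at h1
  subst h1
  exact ⟨rfl, Nat.eq_of_mul_eq_mul_left (by omega : 0 < w) (by omega)⟩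

theorem chain_cut {f g : ℕ → Prop} {N i0 : ℕ} (hf : ∀ i < N, i ≠ i0 → (f i ↔ f (i + 1)))
    (hg : ∀ i < N, (g i ↔ g (i + 1))) (h0 : f 0 ↔ g 0) (hN : f N ↔ g N) :
    (∀ i ≤ N, (f i ↔ g 0)) ∧ ∀ i ≤ N, (g i ↔ g 0) := by
  have a : ∀ i ≤ N, (g i ↔ g 0) := by
    intro i
    induction i with
    | zero => intro _; rfl
    | succ i ih => intro hi; rw [← hg i (by omega)]; exact ih (by omega)
  have b : ∀ i ≤ N, i ≤ i0 → (f i ↔ f 0) := by
    intro i
    induction i with
    | zero => intro _ _; rfl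
    | succ i ih => intro hi hi'; rw [← hf i (by omega) (by omega)]; exact ih (by omega) (by omega)
  have c : ∀ j ≤ N, i0 < N - j → (f (N - j) ↔ f N) := by
    intro j
    induction j with
    | zero => intro _ _; rfl
    | succ j ih =>
      intro hj hj'
      rw [hf _ (by omega) (by omega), show N - (j + 1) + 1 = N - j by omega]
      exact ih (by omega) (by omega)
  refine ⟨fun i hi => ?_, a⟩
  by_cases e : i ≤ i0
  · rw [b i hi e, h0]
  · have := c (N - i) (by omega) (by omega)
    rw [show N - (N - i) = i by omega] at this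
    rw [this, hN, a N le_rfl]

def selR (h : ℕ) (ty : ℕ → Bool) (tm : ℕ → ℕ) (a : ℕ) : Prop :=
  ∃ q, q + 1 < h ∧ ty q = true ∧ a = h + q + 2 * h * tm q

def selC (h : ℕ) (ty : ℕ → Bool) (tm : ℕ → ℕ) (b : ℕ) : Prop :=
  ∃ q, q + 1 < h ∧ ty q = false ∧ b = 2 * h - 2 - q + 2 * h * tm q

variable {n h N : ℕ} {R C : ℕ → Prop} {ty : ℕ → Bool} {tm : ℕ → ℕ}

theorem tn_conn (S : Sep n h R C) (hn : n = 2 * h * N) (hR : ∀ a, selR h ty tm a → R a)
    (hC : ∀ a, selC h ty tm a → C a) (A C0 : ℕ → Prop)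
    (H : ∀ X Y, Tn n h R C (selR h ty tm) (selC h ty tm) X Y → (A Y ↔ C0 X)) :
    ∀ X < n + h, (C0 X ↔ C0 0) := by
  have hh := S.hpos
  have hn2 := S.hn
  set w : ℕ → Prop := fun Z => C0 (swp C Z) with hw
  set r : ℕ → Prop := fun Y => A (swp R Y) with hr
  have ms : ∀ i, 2 * h * (i + 1) = 2 * h * i + 2 * h := fun i => Nat.mul_succ _ _
  have lt : ∀ i < N, 2 * h * i + 2 * h ≤ n := fun i hi => by
    rw [← ms, hn]; exact Nat.mul_le_mul_left _ hi
  have top : ∀ Z < n, ¬ selC h ty tm Z → (∀ z, z + 1 = Z → ¬ selR h ty tm (z + h)) →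
      (r (Z + h) ↔ w Z) := fun Z a b c => H _ _ (top_link S hR hC a b c)
  have bot : ∀ Y < n, ¬ selR h ty tm Y → (∀ z, z + 1 = Y → ¬ selC h ty tm (z + h)) →
      (r Y ↔ w (Y + h)) := fun Z a b c => H _ _ (tn_flip' (top_link S.flip hC hR a b c))
  have x1 : ∀ x, selR h ty tm (x + h) → (r (x + h) ↔ w (x + 1)) :=
    fun x a => H _ _ (cross1 S hR a)
  have x2 : ∀ a, selR h ty tm a → (r (a + 1) ↔ w (a + h)) := fun x a => H _ _ (cross2 S hR a)
  have y1 : ∀ y, selC h ty tm (y + h) → (r (y + 1) ↔ w (y + h)) :=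
    fun x a => H _ _ (tn_flip' (cross1 S.flip hC a))
  have y2 : ∀ b, selC h ty tm b → (r (b + h) ↔ w (b + 1)) :=
    fun x a => H _ _ (tn_flip' (cross2 S.flip hC a))
  have cap1 : ∀ X Y, X + Y + 1 = h → (r Y ↔ w X) := fun X Y e => by
    simp only [hw, hr]
    rw [S.swp_out (by omega), S.flip.swp_out (by omega)]
    exact H _ _ (Or.inl e)
  have cap2 : ∀ X Y, X + Y + 1 = 2 * n + h → n ≤ X → n ≤ Y → (r Y ↔ w X) := fun X Y e a b => by
    simp only [hw, hr]
    rw [S.swp_out (by omega), S.flip.swp_out (by omega)]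
    exact H _ _ (Or.inr (Or.inl ⟨e, a, b⟩))
  let P : ℕ → Prop := fun q => (∀ i ≤ N, (w (q + 2 * h * i) ↔ w (h - 1))) ∧
    (∀ i < N, (r (q + 2 * h * i + h) ↔ w (h - 1))) ∧
    (∀ i ≤ N, (r (h - 1 - q + 2 * h * i) ↔ w (h - 1))) ∧
    ∀ i < N, (w (h - 1 - q + 2 * h * i + h) ↔ w (h - 1))
  have step : ∀ q < h, (q + 1 < h → P (q + 1)) → P q := by
    intro q hq ih
    have ra : ∀ i < N, selR h ty tm (q + 2 * h * i + h) →
        (r (q + 2 * h * i + h) ↔ w (h - 1)) ∧ (w (q + 2 * h * i + h + h) ↔ w (h - 1)) := by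
      intro i hi e
      obtain ⟨q', a, -, c⟩ := id e
      obtain ⟨e1, -⟩ := pm (w := 2 * h) (p := h + q) (p' := h + q') (i := i) (i' := tm q')
        (by omega) (by omega) (by omega)
      obtain rfl : q = q' := by omega
      obtain ⟨i1, i2, -, -⟩ := ih a
      constructor
      · rw [x1 _ e, show q + 2 * h * i + 1 = q + 1 + 2 * h * i by omega]
        exact i1 i hi.le
      · rw [← x2 _ e, show q + 2 * h * i + h + 1 = q + 1 + 2 * h * i + h by omega]
        exact i2 i hi
    have rb : ∀ i < N, ∀ z, z + 1 = h - 1 - q + 2 * h * i → selC h ty tm (z + h) →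
        (r (h - 1 - q + 2 * h * i) ↔ w (h - 1)) ∧ (w (h - 1 - q + 2 * h * i + h) ↔ w (h - 1)) := by
      intro i hi z hz e
      obtain ⟨q', a, -, c⟩ := id e
      obtain ⟨e1, -⟩ := pm (w := 2 * h) (p := 2 * h - 1 - q) (p' := 2 * h - 1 - q') (i := i)
        (i' := tm q') (by omega) (by omega) (by omega)
      obtain rfl : q = q' := by omega
      obtain ⟨-, -, i3, i4⟩ := ih a
      constructor
      · rw [← hz, y1 _ e, show z + h = h - 1 - (q + 1) + 2 * h * i + h by omega]
        exact i4 i hi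
      · rw [show h - 1 - q + 2 * h * i + h = z + h + 1 by omega, ← y2 _ e,
          show z + h + h = h - 1 - (q + 1) + 2 * h * (i + 1) by rw [ms]; omega]
        exact i3 (i + 1) hi
    have ba : ∀ i < N, (r (q + 2 * h * i + h) ↔ w (q + 2 * h * (i + 1))) := by
      intro i hi
      rw [ms, show q + (2 * h * i + 2 * h) = q + 2 * h * i + h + h by omega]
      by_cases e : selR h ty tm (q + 2 * h * i + h)
      · rw [(ra i hi e).1, (ra i hi e).2]
      · refine bot _ (by have := lt i hi; omega) e ?_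
        rintro z hz ⟨q', a, -, c⟩
        have := pm (w := 2 * h) (p := q) (p' := 2 * h - 1 - q') (i := i + 1) (i' := tm q')
          (by omega) (by omega) (by rw [ms]; omega)
        omega
    have bb : ∀ i < N, (r (h - 1 - q + 2 * h * i) ↔ w (h - 1 - q + 2 * h * i + h)) := by
      intro i hi
      by_cases e : ∀ z, z + 1 = h - 1 - q + 2 * h * i → ¬ selC h ty tm (z + h)
      · refine bot _ (by have := lt i hi; omega) ?_ e
        rintro ⟨q', a, -, c⟩
        have := pm (w := 2 * h) (p := h - 1 - q) (p' := h + q') (i := i) (i' := tm q')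
          (by omega) (by omega) (by omega)
        omega
      · push Not at e
        obtain ⟨z, hz, e⟩ := e
        rw [(rb i hi z hz e).1, (rb i hi z hz e).2]
    have ta : ∀ i < N, ¬ (ty (q - 1) = true ∧ i = tm (q - 1)) →
        (w (q + 2 * h * i) ↔ w (q + 2 * h * (i + 1))) := by
      intro i hi e
      rw [← ba i hi]
      refine (top _ (by have := lt i hi; omega) ?_ ?_).symm
      · rintro ⟨q', a, -, c⟩
        have := pm (w := 2 * h) (p := q) (p' := 2 * h - 2 - q') (i := i) (i' := tm q')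
          (by omega) (by omega) (by omega)
        omega
      · rintro z hz ⟨q', a, b, c⟩
        obtain ⟨e1, e2⟩ := pm (w := 2 * h) (p := q) (p' := q' + 1) (i := i) (i' := tm q')
          (by omega) (by omega) (by omega)
        subst e1
        exact e ⟨b, e2⟩
    have tb : ∀ i < N, ¬ (ty (q - 1) = false ∧ i = tm (q - 1)) →
        (r (h - 1 - q + 2 * h * i) ↔ r (h - 1 - q + 2 * h * (i + 1))) := by
      intro i hi e
      rw [bb i hi, ms, show h - 1 - q + (2 * h * i + 2 * h) = h - 1 - q + 2 * h * i + h + h by omega]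
      refine (top _ (by have := lt i hi; omega) ?_ ?_).symm
      · rintro ⟨q', a, b, c⟩
        obtain ⟨e1, e2⟩ := pm (w := 2 * h) (p := 2 * h - 1 - q) (p' := 2 * h - 2 - q') (i := i)
          (i' := tm q') (by omega) (by omega) (by omega)
        obtain rfl : q = q' + 1 := by omega
        exact e ⟨b, e2⟩
      · rintro z hz ⟨q', a, b, c⟩
        have := pm (w := 2 * h) (p := 2 * h - 1 - q) (p' := q' + 1) (i := i) (i' := tm q')
          (by omega) (by omega) (by omega)
        omega
    have c0 : w (q + 2 * h * 0) ↔ r (h - 1 - q + 2 * h * 0) := (cap1 _ _ (by omega)).symm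
    have cN : w (q + 2 * h * N) ↔ r (h - 1 - q + 2 * h * N) :=
      (cap2 _ _ (by omega) (by omega) (by omega)).symm
    have const : (∀ i ≤ N, (w (q + 2 * h * i) ↔ w (q + 2 * h * 0))) ∧
        ∀ i ≤ N, (r (h - 1 - q + 2 * h * i) ↔ w (q + 2 * h * 0)) := by
      cases e : ty (q - 1)
      · have := chain_cut (f := fun i => r (h - 1 - q + 2 * h * i)) (g := fun i => w (q + 2 * h * i))
          (N := N) (i0 := tm (q - 1)) (fun i hi hi' => tb i hi fun e' => hi' e'.2)
          (fun i hi => ta i hi fun e' => by rw [e] at e'; exact absurd e'.1 (by simp)) c0.symm cN.symm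
        exact ⟨this.2, this.1⟩
      · have := chain_cut (g := fun i => r (h - 1 - q + 2 * h * i)) (f := fun i => w (q + 2 * h * i))
          (N := N) (i0 := tm (q - 1)) (fun i hi hi' => ta i hi fun e' => hi' e'.2)
          (fun i hi => tb i hi fun e' => by rw [e] at e'; exact absurd e'.1 (by simp)) c0 cN
        exact ⟨fun i hi => (this.1 i hi).trans c0.symm, fun i hi => (this.2 i hi).trans c0.symm⟩
    have val : w (q + 2 * h * 0) ↔ w (h - 1) := by
      by_cases e : q + 1 < h
      · cases e' : ty q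
        · have s : selC h ty tm (2 * h - 2 - q + 2 * h * tm q) := ⟨q, e, e', rfl⟩
          have b := S.rC _ (hC _ s)
          have hi : tm q < N := by
            by_contra hc
            have := Nat.mul_le_mul_left (2 * h) (not_lt.1 hc)
            omega
          rw [← const.2 _ hi.le]
          exact (rb _ hi (h - 2 - q + 2 * h * tm q) (by omega) (by
            rwa [show h - 2 - q + 2 * h * tm q + h = 2 * h - 2 - q + 2 * h * tm q by omega])).1
        · have s : selR h ty tm (q + 2 * h * tm q + h) := ⟨q, e, e', by omega⟩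
          have b := S.rR _ (hR _ s)
          have hi : tm q < N := by
            by_contra hc
            have := Nat.mul_le_mul_left (2 * h) (not_lt.1 hc)
            omega
          rw [← const.1 (tm q + 1) hi, ← ba _ hi]
          exact (ra _ hi s).1
      · rw [show q + 2 * h * 0 = h - 1 by omega]
    exact ⟨fun i hi => (const.1 i hi).trans val,
      fun i hi => (ba i hi).trans ((const.1 (i + 1) hi).trans val),
      fun i hi => (const.2 i hi).trans val,
      fun i hi => (bb i hi).symm.trans ((const.2 i hi.le).trans val)⟩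
  have all : ∀ j q, q + j + 1 = h → P q := by
    intro j
    induction j with
    | zero => intro q e; exact step q (by omega) (fun e' => by omega)
    | succ j ih => intro q e; exact step q (by omega) (fun _ => ih _ (by omega))
  have allw : ∀ Z < n + h, (w Z ↔ w (h - 1)) := by
    intro Z hZ
    have e := Nat.mod_add_div Z (2 * h)
    have l := Nat.mod_lt Z (by omega : 0 < 2 * h)
    generalize Z % (2 * h) = p at e l
    generalize Z / (2 * h) = i at e
    subst e
    by_cases c : p < h
    · refine (all (h - 1 - p) p (by omega)).1 i ?_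
      by_contra hc
      have := Nat.mul_le_mul_left (2 * h) (show N + 1 ≤ i by omega)
      rw [ms] at this
      omega
    · have := (all (p - h) (2 * h - 1 - p) (by omega)).2.2.2 i (by
        by_contra hc
        have := Nat.mul_le_mul_left (2 * h) (not_lt.1 hc)
        omega)
      rwa [show h - 1 - (2 * h - 1 - p) + 2 * h * i + h = p + 2 * h * i by omega] at this
  have fin : ∀ X < n + h, (C0 X ↔ w (h - 1)) := by
    intro X hX
    have := allw _ (S.flip.swp_lt hX)
    simp only [hw, S.flip.swp_swp] at this ⊢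
    exact this
  intro X hX
  rw [fin X hX, fin 0 (by omega)]

theorem cx_col (X a Y b : ℕ) (h1 : CX n h R C X a) (h2 : CX n h R C X b)
    (S : Sep n h R C) (l1 : a ≤ Y) (l2 : Y ≤ b) : CX n h R C X Y := by
  obtain ⟨a1, a2, a3, a4⟩ := h1
  obtain ⟨b1, b2, b3, b4⟩ := h2
  refine ⟨by omega, by omega, ?_, ?_⟩
  · rcases b3 with b3 | b3
    · omega
    · by_cases e : Y = b
      · exact Or.inr (e ▸ b3)
      · omega
  · rcases a4 with a4 | a4
    · omega
    · by_cases e : Y = a
      · exact Or.inr (e ▸ a4)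
      · omega

theorem cx_row (Y a X b : ℕ) (h1 : CX n h R C a Y) (h2 : CX n h R C b Y)
    (S : Sep n h R C) (l1 : a ≤ X) (l2 : X ≤ b) : CX n h R C X Y := by
  have := cx_col (R := C) (C := R) Y a X b (by rw [← CX_flip]; exact h1)
    (by rw [← CX_flip]; exact h2) S.flip l1 l2
  rw [← CX_flip] at this
  exact this

theorem ccomplete (S : Sep n h R C) (hn : n = 2 * h * N) (hR : ∀ a, selR h ty tm a → R a)
    (hC : ∀ a, selC h ty tm a → C a)
    (hx : ∀ a b, selR h ty tm a → selC h ty tm b → a + 2 ≤ b + h → b + 2 ≤ a + h → False)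
    {V : Finset (ℤ × ℤ)} (hV : ∀ c, c ∈ V ↔ ∃ X Y : ℕ, c = ((X : ℤ), (Y : ℤ)) ∧ CX n h R C X Y) :
    HasTour V (2 * (n + h)) := by
  have hh := S.hpos
  refine tour_of_struct (P := Tn n h R C (selR h ty tm) (selC h ty tm)) (by omega) hV
    (fun X Y => tn_cell S hR hC) S.bound (fun X a Y b h1 h2 => cx_col X a Y b h1 h2 S)
    (fun Y a X b h1 h2 => cx_row Y a X b h1 h2 S) (fun X hX => tn_col S hR hC hX) (fun Y hY => ?_)
    (fun X Y => tn_cover S hR hC hx) (tn_conn S hn hR hC)
  obtain ⟨a, b, hab, H⟩ := tn_col S.flip hC hR hY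
  exact ⟨a, b, hab, fun X => tn_flip.trans (H X)⟩

end Pool.Agent.P.MP_531d8e_lc
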