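import Pool.Agent.P.MP_531d8e_lc.CTn

namespace Pool.Agent.P.MP_531d8e_lc

open Finset

variable {n h : ℕ} {R C uR uC : ℕ → Prop} {T : ℕ → ℕ → ℕ}

theorem Sep.swp_out (S : Sep n h R C) {Y : ℕ} (hY : Y < 2 * h ∨ n ≤ Y) : swp R Y = Y :=
  swp_c (fun e => by have := S.rR _ e; omega) (fun y e e' => by have := S.rR _ e'; omega)

theorem Sep.swpC_of_R (S : Sep n h R C) {a X : ℕ} (ha : R a)
    (hX : X + h = a ∨ X + h = a + 1 ∨ X = a + h ∨ X = a + h + 1) : swp C X = X :=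
  swp_c (fun e => by have := S.RC _ _ ha e; omega) (fun y e e' => by have := S.RC _ _ ha e'; omega)

theorem top_nf (S : Sep n h R C) (hR : ∀ a, uR a → R a) (hC : ∀ a, uC a → C a) {X Y : ℕ}
    (H : Top n h R C uR uC X Y) : swp R Y = swp C X + h ∨
      (uR (swp R Y) ∧ swp R Y + 1 = swp C X + h) ∨
      ∃ b, uC b ∧ swp C X = b + 1 ∧ swp R Y = b + h := by
  rcases H with ⟨rfl, h1, h2, h3⟩ | ⟨rfl, h1 | h1⟩ | ⟨e, x, rfl, h1 | h1, -⟩ | ⟨e, a, rfl, h1⟩ |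
    ⟨rfl, h1⟩
  · left
    rw [swp_c (R := C) (fun e => h2 (Or.inr e)) (fun y e e' => h3 y e (Or.inr e')),
      swp_c (R := R) (fun e => h2 (Or.inl e)) (fun y e e' => ?_)]
    have := S.rR _ e'
    exact h3 (y - h) (by omega) (Or.inl (by rwa [show y - h + h = y by omega]))
  · left
    rw [S.swp_b h1, S.swpC_of_R h1 (by omega)]
  · left
    rw [swp_a h1, S.flip.swpC_of_R h1 (by omega)]; omega
  · left
    obtain rfl : Y = x + h := by omega
    rw [swp_a h1, S.swpC_of_R h1 (by omega)]; omega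
  · left
    obtain rfl : Y = x + h := by omega
    rw [S.flip.swp_b h1, S.flip.swpC_of_R h1 (by omega)]
  · right; left
    rw [S.swp_b (hR _ h1), S.swpC_of_R (hR _ h1) (by omega)]
    exact ⟨h1, e⟩
  · right; right
    exact ⟨X, h1, swp_a (hC _ h1), S.flip.swpC_of_R (hC _ h1) (by omega)⟩

theorem csound (S : Sep n h R C) (D : TC (CX n h R C) (n + h) (2 * (n + h)) T) :
    ∃ uR uC : ℕ → Prop, (∀ a, uR a → R a) ∧ (∀ a, uC a → C a) ∧
      (∀ a b, uR a → uC b → a + 2 ≤ b + h → b + 2 ≤ a + h → False) ∧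
      ∀ κ : ℕ → Prop, (∀ Z, κ (Z + 2 * h) ↔ κ Z) → (∀ X < h, κ (2 * h - 1 - X) ↔ κ X) →
        (∀ q < h, κ (n + 2 * h - 1 - q) ↔ κ (n + q)) →
        (∀ a, uR a → (κ (a + h) ↔ κ (a + h + 1))) → (∀ b, uC b → (κ b ↔ κ (b + 1))) →
        ∀ q < h, (κ q ↔ κ 0) := by
  have hh := S.hpos
  have hn := S.hn
  have hR : ∀ a, Used h R T a → R a := fun a e => e.1
  have hC : ∀ a, Used h C (fun X Y => T Y X) a → C a := fun a e => e.1
  refine ⟨_, _, hR, hC, fun a b => conflict S D, fun κ k1 k2 k3 k4 k5 q hq => ?_⟩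
  have key : ∀ X Y, 0 < T X Y → (κ (swp R Y + h) ↔ κ (swp C X)) := by
    intro X Y hT
    obtain ⟨a, b, hab, H⟩ := tn_col S hR hC (S.bound _ _ (D.supp _ _ hT)).1
    have H1 := (H Y).2 (col_three S D (tn_pos S D ((H a).2 (Or.inl rfl)))
      (tn_pos S D ((H b).2 (Or.inr rfl))) hT hab.ne)
    rcases H1 with e | ⟨e, e1, e2⟩ | e | e
    · rw [S.swp_out (by omega), S.flip.swp_out (by omega), ← k2 X (by omega),
        show 2 * h - 1 - X = Y + h by omega]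
    · rw [S.swp_out (by omega), S.flip.swp_out (by omega)]
      have := k3 (X - n) (by omega)
      rwa [show n + 2 * h - 1 - (X - n) = Y + h by omega, show n + (X - n) = X by omega] at this
    · rcases top_nf S hR hC e with e | ⟨e, e'⟩ | ⟨b, e, e1, e2⟩
      · rw [e, ← k1 (swp C X), show swp C X + h + h = swp C X + 2 * h by omega]
      · rw [k4 _ e, ← k1 (swp C X), show swp R Y + h + 1 = swp C X + 2 * h by omega]
      · rw [e1, e2, ← k5 _ e, ← k1 b, show b + h + h = b + 2 * h by omega]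
    · rcases top_nf S.flip hC hR e with e | ⟨e, e'⟩ | ⟨b, e, e1, e2⟩
      · rw [e]
      · rw [k5 _ e, e']
      · rw [e1, e2, k4 _ e, show b + 1 + h = b + h + 1 by omega]
  have := D.closed (fun Y => κ (swp R Y + h)) (fun X => κ (swp C X)) key q (h - 1 - q) 0 (h - 1)
    (fCap1 S D (by omega)) (fCap1 S D (by omega))
  rw [S.swp_out (by omega), S.swp_out (by omega)] at this
  rw [← k2 q hq, ← k2 0 hh, show 2 * h - 1 - q = h - 1 - q + h by omega,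
    show 2 * h - 1 - 0 = h - 1 + h by omega]
  exact this

theorem top_link (S : Sep n h R C) (hR : ∀ a, uR a → R a) (hC : ∀ a, uC a → C a) {Z : ℕ}
    (hZ : Z < n) (h1 : ¬ uC Z) (h2 : ∀ z, z + 1 = Z → ¬ uR (z + h)) :
    Tn n h R C uR uC (swp C Z) (swp R (Z + h)) := by
  refine Or.inr (Or.inr (Or.inl ?_))
  by_cases c1 : TT h R C Z
  · rcases c1 with c1 | c1
    · rw [swp_a c1, S.swpC_of_R c1 (by omega)]
      exact Or.inr (Or.inl ⟨rfl, Or.inl c1⟩)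
    · rw [swp_a c1, S.flip.swpC_of_R c1 (by omega)]
      refine Or.inr (Or.inr (Or.inl ⟨by omega, Z, rfl, Or.inr c1, ?_⟩))
      rintro (e | e)
      · have := S.RC _ _ (hR _ e) c1; omega
      · exact h1 e
  by_cases c2 : ∀ x, x + 1 = Z → ¬ TT h R C x
  · rw [swp_c (R := C) (fun e => c1 (Or.inr e)) (fun y e e' => c2 y e (Or.inr e')),
      swp_c (R := R) (fun e => c1 (Or.inl e)) (fun y e e' => ?_)]
    · exact Or.inl ⟨rfl, hZ, c1, c2⟩
    · have := S.rR _ e'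
      exact c2 (y - h) (by omega) (Or.inl (by rwa [show y - h + h = y by omega]))
  push Not at c2
  obtain ⟨x, rfl, c2 | c2⟩ := c2
  · rw [show x + 1 + h = x + h + 1 by omega, S.swp_b c2, S.swpC_of_R c2 (by omega)]
    refine Or.inr (Or.inr (Or.inl ⟨by omega, x, rfl, Or.inl c2, ?_⟩))
    rintro (e | e)
    · exact h2 _ rfl e
    · have := S.RC _ _ c2 (hC _ e); omega
  · rw [S.flip.swp_b c2, S.flip.swpC_of_R c2 (by omega)]
    exact Or.inr (Or.inl ⟨by omega, Or.inr c2⟩)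

theorem cross1 (S : Sep n h R C) (hR : ∀ a, uR a → R a) {x : ℕ} (hx : uR (x + h)) :
    Tn n h R C uR uC (swp C (x + 1)) (swp R (x + h)) := by
  rw [swp_a (hR _ hx), S.swpC_of_R (hR _ hx) (by omega)]
  exact Or.inr (Or.inr (Or.inl (Or.inr (Or.inr (Or.inr (Or.inl ⟨by omega, _, rfl, hx⟩))))))

theorem cross2 (S : Sep n h R C) (hR : ∀ a, uR a → R a) {a : ℕ} (hx : uR a) :
    Tn n h R C uR uC (swp C (a + h)) (swp R (a + 1)) := by
  rw [S.swp_b (hR _ hx), S.swpC_of_R (hR _ hx) (by omega)]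
  exact Or.inr (Or.inr (Or.inr (Or.inr (Or.inr (Or.inr (Or.inr ⟨rfl, hx⟩))))))

theorem Sep.swp_swp (S : Sep n h R C) (Y : ℕ) : swp R (swp R Y) = Y := by
  by_cases c1 : R Y
  · rw [swp_a c1, S.swp_b c1]
  by_cases c2 : ∀ y, y + 1 = Y → ¬ R y
  · rw [swp_c c1 c2, swp_c c1 c2]
  push Not at c2
  obtain ⟨y, rfl, c2⟩ := c2
  rw [S.swp_b c2, swp_a c2]

theorem Sep.swp_lt (S : Sep n h R C) {Y : ℕ} (hY : Y < n + h) : swp R Y < n + h := by
  unfold swp
  split_ifs with c1 c2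
  · have := S.rR _ c1; omega
  · omega
  · exact hY

theorem cover_aux (S : Sep n h R C) (hR : ∀ a, uR a → R a) (hC : ∀ a, uC a → C a) {X Y : ℕ}
    (hc : CX n h R C X Y) (h1 : ¬ uC X) (h2 : ∀ x, x + 1 = X → ¬ uC x) :
    ((∃ Y' ≤ Y, Tn n h R C uR uC X Y') ∧ ∃ Y' ≥ Y, Tn n h R C uR uC X Y') ∨
    ((∃ X' ≤ X, Tn n h R C uR uC X' Y) ∧ ∃ X' ≥ X, Tn n h R C uR uC X' Y) := by
  have hh := S.hpos
  have hb := S.bound _ _ hc
  obtain ⟨a, ha⟩ := lo_ex (uR := uR) (uC := uC) S hb.1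
  obtain ⟨b, hb'⟩ := hi_ex (uR := uR) S hb.1 hC
  obtain ⟨a', ha'⟩ := lo_ex (uR := uC) (uC := uR) S.flip hb.2
  obtain ⟨b', hb''⟩ := hi_ex (uR := uC) S.flip hb.2 hR
  have ta := tn_iff.2 (Or.inl ha)
  have tb := tn_iff.2 (Or.inr hb')
  have ta' := tn_flip' (tn_iff.2 (Or.inl ha'))
  have tb' := tn_flip' (tn_iff.2 (Or.inr hb''))
  by_cases c : a ≤ Y ∧ Y ≤ b
  · exact Or.inl ⟨⟨a, c.1, ta⟩, b, c.2, tb⟩
  right
  obtain ⟨p1, p2, p3, p4⟩ := hc
  by_cases c' : b < Y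
  · rcases hb' with q | ⟨q, -, q2, -⟩ | q | ⟨q, x, rfl, q2, q3⟩ | q | ⟨-, x, q1, q2⟩
    · omega
    · rcases p3 with p3 | p3
      · omega
      · exact (q2 p3.2).elim
    · omega
    · have e : Y = x + h + 1 := by
        rcases p3 with p3 | p3
        · omega
        · exact (S.tt2 q2 p3.2).elim
      subst e
      refine ⟨⟨x, by omega, Or.inr (Or.inr (Or.inl (Or.inr (Or.inl ⟨rfl, q2⟩))))⟩, b', ?_, tb'⟩
      have := S.rT q2
      have := hi_ge S.flip hR hb'' (fun z e e' => q3 (Or.inl (by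
        rwa [show x + h = z by omega])))
      omega
    · obtain ⟨q, z, q1, q2⟩ := q
      rcases p3 with p3 | p3
      · omega
      · have := S.rR _ (hR _ q2)
        obtain ⟨x, rfl⟩ : ∃ x, X = x + 1 := ⟨X - 1, by omega⟩
        exact (S.tt2 (Or.inl (by rw [show x + h = z by omega]; exact hR _ q2)) p3.2).elim
    · exact (h2 _ q1 q2).elim
  · have c'' : Y < a := by omega
    rcases ha with q | ⟨q, -, -, q2⟩ | q | ⟨q, y, rfl, q2, q3⟩ | ⟨q, q2⟩ | ⟨-, q2⟩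
    · omega
    · rcases p4 with p4 | p4
      · omega
      · exact (q2 _ (by omega) p4.2).elim
    · omega
    · have e : Y = y := by
        rcases p4 with p4 | p4
        · omega
        · obtain rfl : y = Y + 1 := by omega
          exact (S.flip.tt2 p4.2 q2).elim
      subst e
      refine ⟨⟨a', ?_, ta'⟩, X + 1, by omega,
        Or.inr (Or.inr (Or.inr (Or.inr (Or.inl ⟨by omega, q2⟩))))⟩
      have := S.flip.rT q2
      have := lo_le ha' (fun e => q3 (Or.inr e))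
      omega
    · rcases p4 with p4 | p4
      · omega
      · obtain rfl : a = Y + 1 := by omega
        exact (S.flip.tt2 p4.2 (Or.inr (hR _ q2))).elim
    · exact (h1 q2).elim

theorem tn_cover (S : Sep n h R C) (hR : ∀ a, uR a → R a) (hC : ∀ a, uC a → C a)
    (hx : ∀ a b, uR a → uC b → a + 2 ≤ b + h → b + 2 ≤ a + h → False) {X Y : ℕ}
    (hc : CX n h R C X Y) :
    ((∃ Y' ≤ Y, Tn n h R C uR uC X Y') ∧ ∃ Y' ≥ Y, Tn n h R C uR uC X Y') ∨
    ((∃ X' ≤ X, Tn n h R C uR uC X' Y) ∧ ∃ X' ≥ X, Tn n h R C uR uC X' Y) := by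
  by_cases c1 : ¬ uC X ∧ ∀ x, x + 1 = X → ¬ uC x
  · exact cover_aux S hR hC hc c1.1 c1.2
  by_cases c2 : ¬ uR Y ∧ ∀ x, x + 1 = Y → ¬ uR x
  · have hc' : CX n h C R Y X := by rw [← CX_flip]; exact hc
    rcases cover_aux S.flip hC hR hc' c2.1 c2.2 with ⟨⟨a, a1, a2⟩, b, b1, b2⟩ | ⟨⟨a, a1, a2⟩, b, b1, b2⟩
    · exact Or.inr ⟨⟨a, a1, tn_flip' a2⟩, b, b1, tn_flip' b2⟩
    · exact Or.inl ⟨⟨a, a1, tn_flip' a2⟩, b, b1, tn_flip' b2⟩
  exfalso
  have e1 : ∃ b, uC b ∧ (X = b ∨ X = b + 1) := by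
    by_contra hn
    exact c1 ⟨fun e => hn ⟨_, e, Or.inl rfl⟩, fun x e e' => hn ⟨_, e', Or.inr e.symm⟩⟩
  have e2 : ∃ a, uR a ∧ (Y = a ∨ Y = a + 1) := by
    by_contra hn
    exact c2 ⟨fun e => hn ⟨_, e, Or.inl rfl⟩, fun x e e' => hn ⟨_, e', Or.inr e.symm⟩⟩
  obtain ⟨b, b1, b2⟩ := e1
  obtain ⟨a, a1, a2⟩ := e2
  have s := S.RC _ _ (hR _ a1) (hC _ b1)
  have s' : ¬ (a + 2 ≤ b + h ∧ b + 2 ≤ a + h) := fun e => hx _ _ a1 b1 e.1 e.2
  obtain ⟨-, -, p3, p4⟩ := hc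
  by_cases c : a + h + 2 ≤ b
  · rcases p4 with p4 | p4
    · omega
    · obtain rfl : Y = a + 1 := by omega
      exact S.flip.tt2 (Or.inr (hR _ a1)) p4.2
  · rcases p3 with p3 | p3
    · omega
    · obtain rfl : X = b + 1 := by omega
      exact S.tt2 (Or.inr (hC _ b1)) p3.2

end Pool.Agent.P.MP_531d8e_lc
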