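import Mathlib

namespace Pool.Agent.P.MP_531d8e_lc

/-- Every vertical line meets `W` in consecutive lattice points. -/
def ColConvex (W : Finset (ℤ × ℤ)) : Prop :=
  ∀ x y₁ y y₂ : ℤ, (x, y₁) ∈ W → (x, y₂) ∈ W → y₁ ≤ y → y ≤ y₂ → (x, y) ∈ W

/-- Every horizontal line meets `W` in consecutive lattice points. -/
def RowConvex (W : Finset (ℤ × ℤ)) : Prop :=
  ∀ y x₁ x x₂ : ℤ, (x₁, y) ∈ W → (x₂, y) ∈ W → x₁ ≤ x → x ≤ x₂ → (x, y) ∈ W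

end Pool.Agent.P.MP_531d8e_lc
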