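import Pool.Agent.P.MP_531d8e_lc.Main
import Pool.Agent.P.MP_531d8e_lc.ConvDefs
import Pool.Agent.P.MP_531d8e_lc.CConn

namespace Pool.Agent.P.MP_531d8e_lc

open Pool.Agent.Lib.PolyTime N68a2faeb

def bs (m i : ℕ) : ℕ := 2 * (2 * m + 1) * (3 * i + 1)

theorem bs_lt (m : ℕ) {i j : ℕ} (h : i < j) : bs m i + 6 * (2 * m + 1) ≤ bs m j := by
  unfold bs
  have := Nat.mul_le_mul_left (2 * (2 * m + 1)) (show 3 * i + 1 + 3 ≤ 3 * j + 1 by omega)
  rw [Nat.mul_add (2 * (2 * m + 1)) (3 * i + 1) 3] at this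
  omega

theorem bs_ge (m i : ℕ) : 2 * (2 * m + 1) ≤ bs m i := Nat.le_mul_of_pos_right _ (by omega)

def nn (m v : ℕ) : ℕ := 2 * (2 * m + 1) * (3 * v + 3)

theorem nn_eq (m v : ℕ) : nn m v = bs m v + 4 * (2 * m + 1) := by unfold nn bs; ring

def Rp (m v : ℕ) (oc : ℕ → Bool → ℕ → Bool) (a : ℕ) : Prop :=
  (∃ i < v, ∃ j < m, oc i true j = true ∧ a = 2 * m + 1 + 2 * j + bs m i) ∨
    ∃ j < m, a = 2 * m + 1 + (2 * j + 1) + bs m v

def Cp (m v : ℕ) (oc : ℕ → Bool → ℕ → Bool) (b : ℕ) : Prop :=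
  ∃ i < v, ∃ j < m, oc i false j = true ∧ b = 2 * (2 * m + 1) - 2 - 2 * j + bs m i

variable {m v : ℕ} {oc : ℕ → Bool → ℕ → Bool}

theorem sep_p : Sep (nn m v) (2 * m + 1) (Rp m v oc) (Cp m v oc) := by
  have e := nn_eq m v
  have g := bs_ge m v
  refine ⟨by omega, by omega, ?_, ?_, ?_, ?_, ?_⟩
  · rintro a (⟨i, hi, j, hj, -, rfl⟩ | ⟨j, hj, rfl⟩)
    · have := bs_ge m i
      have := bs_lt m hi
      omega
    · omega
  · rintro a ⟨i, hi, j, hj, -, rfl⟩
    have := bs_ge m i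
    have := bs_lt m hi
    omega
  · rintro a b (⟨i, hi, j, hj, -, rfl⟩ | ⟨j, hj, rfl⟩) (⟨i', hi', j', hj', -, rfl⟩ | ⟨j', hj', rfl⟩) h
    · rcases lt_trichotomy i i' with c | rfl | c
      · have := bs_lt m c; omega
      · omega
      · have := bs_lt m c; omega
    · have := bs_lt m hi; omega
    · have := bs_lt m hi'; omega
    · omega
  · rintro a b ⟨i, hi, j, hj, -, rfl⟩ ⟨i', hi', j', hj', -, rfl⟩ h
    rcases lt_trichotomy i i' with c | rfl | c
    · have := bs_lt m c; omega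
    · omega
    · have := bs_lt m c; omega
  · rintro a b (⟨i, hi, j, hj, -, rfl⟩ | ⟨j, hj, rfl⟩) ⟨i', hi', j', hj', -, rfl⟩
    · rcases lt_trichotomy i i' with c | rfl | c
      · have := bs_lt m c; omega
      · omega
      · have := bs_lt m c; omega
    · have := bs_lt m hi'; omega

theorem mod_bs (m i : ℕ) {p : ℕ} (hp : p < 2 * (2 * m + 1)) :
    (p + bs m i) % (2 * (2 * m + 1)) = p := by
  unfold bs
  rw [Nat.add_mul_mod_self_left, Nat.mod_eq_of_lt hp]

theorem tour_iff_sat {V : Finset (ℤ × ℤ)}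
    (hV : ∀ c, c ∈ V ↔ ∃ X Y : ℕ, c = ((X : ℤ), (Y : ℤ)) ∧
      CX (nn m v) (2 * m + 1) (Rp m v oc) (Cp m v oc) X Y) :
    (∃ a : ℕ → Bool, ∀ c < m, ∃ i < v, oc i (a i) c = true) ↔
      HasTour V (2 * (nn m v + (2 * m + 1))) := by
  classical
  have S : Sep (nn m v) (2 * m + 1) (Rp m v oc) (Cp m v oc) := sep_p
  have en := nn_eq m v
  constructor
  · rintro ⟨a, ha⟩
    choose! u hu1 hu2 using ha
    refine ccomplete (N := 3 * v + 3) (ty := fun q => if q % 2 = 0 then a (u (q / 2)) else true)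
      (tm := fun q => if q % 2 = 0 then 3 * u (q / 2) + 1 else 3 * v + 1) S rfl ?_ ?_ ?_ hV
    · rintro x ⟨q, h1, h2, rfl⟩
      by_cases c : q % 2 = 0
      · simp only [c, if_true] at h2 ⊢
        refine Or.inl ⟨_, hu1 (q / 2) (by omega), q / 2, by omega, h2 ▸ hu2 (q / 2) (by omega), ?_⟩
        unfold bs; omega
      · simp only [c, if_false]
        refine Or.inr ⟨q / 2, by omega, ?_⟩
        unfold bs; omega
    · rintro x ⟨q, h1, h2, rfl⟩
      by_cases c : q % 2 = 0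
      · simp only [c, if_true] at h2 ⊢
        refine ⟨_, hu1 (q / 2) (by omega), q / 2, by omega, h2 ▸ hu2 (q / 2) (by omega), ?_⟩
        unfold bs; omega
      · simp only [c, if_false] at h2
        exact absurd h2 (by simp)
    · rintro x y ⟨q, h1, h2, rfl⟩ ⟨q', h1', h2', rfl⟩
      by_cases c' : q' % 2 = 0
      · simp only [c', if_true] at h2' ⊢
        have b := hu1 (q' / 2) (by omega)
        by_cases c : q % 2 = 0
        · simp only [c, if_true] at h2 ⊢
          rcases lt_trichotomy (u (q / 2)) (u (q' / 2)) with l | l | l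
          · have := bs_lt m l; unfold bs at this; omega
          · rw [l, h2'] at h2; exact absurd h2 (by simp)
          · have := bs_lt m l; unfold bs at this; omega
        · simp only [c, if_false]
          have := bs_lt m b; unfold bs at this; omega
      · simp only [c', if_false] at h2'
        exact absurd h2' (by simp)
  · intro H
    have g := bs_ge m v
    obtain ⟨T, D⟩ := tc_of_hasTour hV S.bound ⟨_, (hV _).2 ⟨2 * m, 0, rfl,
      by omega, by omega, by omega, by omega⟩, _, (hV _).2 ⟨2 * m + 1, 0, rfl,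
      by omega, by omega, by omega, by omega⟩, by simp⟩ H
    obtain ⟨uR, uC, hR, hC, hx, K⟩ := csound S D
    refine ⟨fun i => decide (∃ j < m, uR (2 * m + 1 + 2 * j + bs m i)), fun c hc => ?_⟩
    by_contra hn
    beta_reduce at hn
    have key := K (fun Z => Z % (2 * (2 * m + 1)) ≤ 2 * c ∨
      2 * (2 * m + 1) - 1 - 2 * c ≤ Z % (2 * (2 * m + 1))) (fun Z => by rw [Nat.add_mod_right])
      (fun X hX => by rw [Nat.mod_eq_of_lt (by omega), Nat.mod_eq_of_lt (by omega)]; omega)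
      (fun q hq => ?_) (fun a ha => ?_) (fun b hb => ?_) (2 * c + 1) (by omega)
    · rw [Nat.mod_eq_of_lt (by omega), Nat.zero_mod] at key
      omega
    · rw [show nn m v + 2 * (2 * m + 1) - 1 - q = 2 * (2 * m + 1) - 1 - q + nn m v by omega,
        add_comm (nn m v) q]
      unfold nn
      rw [Nat.add_mul_mod_self_left, Nat.add_mul_mod_self_left, Nat.mod_eq_of_lt (by omega),
        Nat.mod_eq_of_lt (by omega)]
      omega
    · rcases hR a ha with ⟨i, hi, j, hj, h1, rfl⟩ | ⟨j, hj, rfl⟩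
      · rw [show 2 * m + 1 + 2 * j + bs m i + (2 * m + 1) + 1
            = 2 * j + 1 + bs m i + 2 * (2 * m + 1) by omega,
          show 2 * m + 1 + 2 * j + bs m i + (2 * m + 1) = 2 * j + bs m i + 2 * (2 * m + 1) by omega,
          Nat.add_mod_right, Nat.add_mod_right, mod_bs _ _ (by omega), mod_bs _ _ (by omega)]
        have : j ≠ c := by
          rintro rfl
          exact hn ⟨i, hi, by
            rw [decide_eq_true (p := ∃ j < m, uR (2 * m + 1 + 2 * j + bs m i)) ⟨j, hj, ha⟩]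
            exact h1⟩
        omega
      · rw [show 2 * m + 1 + (2 * j + 1) + bs m v + (2 * m + 1) + 1
            = 2 * j + 2 + bs m v + 2 * (2 * m + 1) by omega,
          show 2 * m + 1 + (2 * j + 1) + bs m v + (2 * m + 1)
            = 2 * j + 1 + bs m v + 2 * (2 * m + 1) by omega,
          Nat.add_mod_right, Nat.add_mod_right, mod_bs _ _ (by omega), mod_bs _ _ (by omega)]
        omega
    · obtain ⟨i, hi, j, hj, h1, rfl⟩ := hC b hb
      rw [show 2 * (2 * m + 1) - 2 - 2 * j + bs m i + 1 = 2 * (2 * m + 1) - 1 - 2 * j + bs m i by omega,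
        mod_bs _ _ (by omega), mod_bs _ _ (by omega)]
      have : j ≠ c := by
        rintro rfl
        by_cases e : ∃ j < m, uR (2 * m + 1 + 2 * j + bs m i)
        · obtain ⟨j', hj', e⟩ := e
          exact hx _ _ e hb (by omega) (by omega)
        · exact hn ⟨i, hi, by rw [decide_eq_false e]; exact h1⟩
      omega

def rB (φ : CNF) (a : ℕ) : Bool :=
  ((List.range (vrs φ).length).any fun i => (List.range φ.length).any fun j =>
    occ φ i true j && decide (a = 2 * φ.length + 1 + 2 * j + bs φ.length i)) ||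
  (List.range φ.length).any fun j =>
    decide (a = 2 * φ.length + 1 + (2 * j + 1) + bs φ.length (vrs φ).length)

def cB (φ : CNF) (b : ℕ) : Bool :=
  (List.range (vrs φ).length).any fun i => (List.range φ.length).any fun j =>
    occ φ i false j && decide (b = 2 * (2 * φ.length + 1) - 2 - 2 * j + bs φ.length i)

theorem rB_iff (φ : CNF) (a : ℕ) : rB φ a = true ↔ Rp φ.length (vrs φ).length (occ φ) a := by
  simp only [rB, Rp, Bool.or_eq_true, List.any_eq_true, List.mem_range, Bool.and_eq_true,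
    decide_eq_true_eq]

theorem cB_iff (φ : CNF) (a : ℕ) : cB φ a = true ↔ Cp φ.length (vrs φ).length (occ φ) a := by
  simp only [cB, Cp, List.any_eq_true, List.mem_range, Bool.and_eq_true, decide_eq_true_eq]

def bd (φ : CNF) : ℕ := nn φ.length (vrs φ).length + (2 * φ.length + 1)

def cellB (φ : CNF) (X Y : ℕ) : Bool :=
  decide (2 * φ.length + 1 ≤ X + Y + 1) &&
  (decide (X + Y + 1 ≤ 2 * nn φ.length (vrs φ).length + (2 * φ.length + 1)) &&
  ((decide (Y ≤ X + (2 * φ.length + 1)) || (decide (Y = X + (2 * φ.length + 1) + 1) &&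
    (rB φ (X + (2 * φ.length + 1)) || cB φ X))) &&
  (decide (X ≤ Y + (2 * φ.length + 1)) || (decide (X = Y + (2 * φ.length + 1) + 1) &&
    (cB φ (Y + (2 * φ.length + 1)) || rB φ Y)))))

theorem cellB_iff (φ : CNF) (X Y : ℕ) : cellB φ X Y = true ↔
    CX (nn φ.length (vrs φ).length) (2 * φ.length + 1) (Rp φ.length (vrs φ).length (occ φ))
      (Cp φ.length (vrs φ).length (occ φ)) X Y := by
  simp only [cellB, CX, TT, Bool.or_eq_true, Bool.and_eq_true, decide_eq_true_eq, rB_iff, cB_iff]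

def cred (φ : CNF) : List (ℤ × ℤ) × ℕ :=
  ((List.range (bd φ)).flatMap fun X =>
    ((List.range (bd φ)).filter fun Y => cellB φ X Y).map fun Y : ℕ => ((X : ℤ), (Y : ℤ)),
    2 * bd φ)

theorem mem_cred (φ : CNF) (c : ℤ × ℤ) : c ∈ (cred φ).1.toFinset ↔
    ∃ X Y : ℕ, c = ((X : ℤ), (Y : ℤ)) ∧
      CX (nn φ.length (vrs φ).length) (2 * φ.length + 1) (Rp φ.length (vrs φ).length (occ φ))
        (Cp φ.length (vrs φ).length (occ φ)) X Y := by
  simp only [cred, List.mem_toFinset, List.mem_flatMap, List.mem_range, List.mem_map,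
    List.mem_filter, cellB_iff]
  constructor
  · rintro ⟨X, -, Y, ⟨-, h⟩, rfl⟩
    exact ⟨X, Y, rfl, h⟩
  · rintro ⟨X, Y, rfl, h⟩
    exact ⟨X, (sep_p.bound X Y h).1, Y, ⟨(sep_p.bound X Y h).2, h⟩, rfl⟩

section
variable {n h : ℕ} {R C : ℕ → Prop} {V : Finset (ℤ × ℤ)}

theorem cx_colConvex (S : Sep n h R C)
    (hV : ∀ c, c ∈ V ↔ ∃ X Y : ℕ, c = ((X : ℤ), (Y : ℤ)) ∧ CX n h R C X Y) : ColConvex V := by
  intro x y₁ y y₂ h2 h4 h1 h3
  obtain ⟨X, Y, e, hc⟩ := (hV _).1 h2
  obtain ⟨X', Y', e', hc'⟩ := (hV _).1 h4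
  simp only [Prod.mk.injEq] at e e'
  obtain rfl : X = X' := by omega
  exact (hV _).2 ⟨X, y.toNat, by simp only [Prod.mk.injEq]; omega,
    cx_col _ _ _ _ hc hc' S (by omega) (by omega)⟩

theorem cx_rowConvex (S : Sep n h R C)
    (hV : ∀ c, c ∈ V ↔ ∃ X Y : ℕ, c = ((X : ℤ), (Y : ℤ)) ∧ CX n h R C X Y) : RowConvex V := by
  intro y x₁ x x₂ h2 h4 h1 h3
  obtain ⟨X, Y, e, hc⟩ := (hV _).1 h2
  obtain ⟨X', Y', e', hc'⟩ := (hV _).1 h4
  simp only [Prod.mk.injEq] at e e'
  obtain rfl : Y = Y' := by omega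
  exact (hV _).2 ⟨x.toNat, Y, by simp only [Prod.mk.injEq]; omega,
    cx_row _ _ _ _ hc hc' S (by omega) (by omega)⟩

theorem solid_of_col (H : ColConvex V) : Solid V := by
  refine solid_of_rays fun c d hcd => ?_
  by_contra hn
  push Not at hn
  obtain ⟨⟨j, h1, h2⟩, j', h3, h4⟩ := hn
  exact hcd (H c j' d j h4 h2 h3 h1)

theorem cx_connected (S : Sep n h R C)
    (hV : ∀ c, c ∈ V ↔ ∃ X Y : ℕ, c = ((X : ℤ), (Y : ℤ)) ∧ CX n h R C X Y) :
    (gridGraph V).Connected := by
  have hh := S.hpos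
  have hn := S.hn
  refine connected_of_descent ((h - 1 : ℕ), (0 : ℕ))
    ((hV _).2 ⟨_, _, rfl, by omega, by omega, by omega, by omega⟩)
    (fun c => c.2.toNat + (c.1 - (h - 1 : ℕ)).natAbs + 3 * (c.2 - c.1 - h).toNat)
    fun v hv hne => ?_
  obtain ⟨X, Y, rfl, a1, a2, a3, a4⟩ := (hV _).1 hv
  simp only [ne_eq, Prod.mk.injEq, Nat.cast_inj] at hne
  by_cases c1 : h ≤ X + Y ∧ X + 1 ≤ Y + h ∧ 0 < Y
  · refine ⟨_, (hV _).2 ⟨X, Y - 1, rfl, by omega, by omega, by omega, by omega⟩, ?_, ?_⟩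
    · simp only [U, Prod.mk_sub_mk, Prod.mk.injEq]; omega
    · simp only; omega
  by_cases c2 : h ≤ X
  · refine ⟨_, (hV _).2 ⟨X - 1, Y, rfl, by omega, by omega, by omega, by omega⟩, ?_, ?_⟩
    · simp only [U, Prod.mk_sub_mk, Prod.mk.injEq]; omega
    · simp only; omega
  · refine ⟨_, (hV _).2 ⟨X + 1, Y, rfl, by omega, by omega, by omega, by omega⟩, ?_, ?_⟩
    · simp only [U, Prod.mk_sub_mk, Prod.mk.injEq]; omega
    · simp only; omega

end

section
variable {α : Type} [N487b59b3 α]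

@[fun_prop] theorem pt_bs {m v : α → ℕ} (hm : PT m) (hv : PT v) :
    PT fun a => bs (m a) (v a) := by
  unfold bs; fun_prop

@[fun_prop] theorem pt_nn {m v : α → ℕ} (hm : PT m) (hv : PT v) :
    PT fun a => nn (m a) (v a) := by
  unfold nn; fun_prop

@[fun_prop] theorem pt_rB {f : α → CNF} {v : α → ℕ} (hf : PT f) (hv : PT v) :
    PT fun a => rB (f a) (v a) := by
  unfold rB; fun_prop

@[fun_prop] theorem pt_cB {f : α → CNF} {v : α → ℕ} (hf : PT f) (hv : PT v) :
    PT fun a => cB (f a) (v a) := by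
  unfold cB; fun_prop

@[fun_prop] theorem pt_cellB {f : α → CNF} {v w : α → ℕ} (hf : PT f) (hv : PT v) (hw : PT w) :
    PT fun a => cellB (f a) (v a) (w a) := by
  unfold cellB; fun_prop

theorem pt_cred : PT cred := by
  have h2 : PT bd := by unfold bd; fun_prop
  have h3 : Small bd := by unfold bd nn; fun_prop
  unfold cred
  fun_prop

end

theorem main_convex (L : DecisionProblem) (hL : L ∈ NP) :
    ∃ f : List Bool → List (ℤ × ℤ) × ℕ, IsPolyTime f ∧ ∀ x,
      (gridGraph (f x).1.toFinset).Connected ∧ Solid (f x).1.toFinset ∧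
        ColConvex (f x).1.toFinset ∧ RowConvex (f x).1.toFinset ∧
        (L x = true ↔ HasTour (f x).1.toFinset (f x).2) := by
  obtain ⟨g, hg, h⟩ := cook hL
  refine ⟨fun x => cred (g x), (pt_cred.comp hg).isPolyTime, fun x => ?_⟩
  have hV := mem_cred (g x)
  refine ⟨cx_connected sep_p hV, solid_of_col (cx_colConvex sep_p hV), cx_colConvex sep_p hV,
    cx_rowConvex sep_p hV, ?_⟩
  rw [h, sat_iff]
  exact tour_iff_sat hV

end Pool.Agent.P.MP_531d8e_lc
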