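import Pool.Agent.P.MP_531d8e_lc.CTurn

namespace Pool.Agent.P.MP_531d8e_lc

open Finset

/-- Positions of row switches `R` and column switches `C` are well separated. -/
structure Sep (n h : ℕ) (R C : ℕ → Prop) : Prop where
  hpos : 0 < h
  hn : 2 * h ≤ n
  rR : ∀ a, R a → 2 * h ≤ a ∧ a + h + 2 ≤ n
  rC : ∀ a, C a → 2 * h ≤ a ∧ a + h + 2 ≤ n
  RR : ∀ a b, R a → R b → a < b → a + 2 ≤ b ∧ (b + 2 ≤ a + 2 * h ∨ a + 2 * h + 2 ≤ b)
  CC : ∀ a b, C a → C b → a < b → a + 2 ≤ b ∧ (b + 2 ≤ a + 2 * h ∨ a + 2 * h + 2 ≤ b)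
  RC : ∀ a b, R a → C b → (b + 2 ≤ a + h ∨ a + h + 2 ≤ b) ∧ (a + 2 ≤ b + h ∨ b + h + 2 ≤ a)

theorem Sep.flip {n h : ℕ} {R C : ℕ → Prop} (S : Sep n h R C) : Sep n h C R :=
  ⟨S.hpos, S.hn, S.rC, S.rR, S.CC, S.RR, fun a b h1 h2 => (S.RC b a h2 h1).symm⟩

/-- A two by two step of the upper left boundary starts at column `x`. -/
def TT (h : ℕ) (R C : ℕ → Prop) (x : ℕ) : Prop := R (x + h) ∨ C x

/-- The cells of the convex region. -/
def CX (n h : ℕ) (R C : ℕ → Prop) (X Y : ℕ) : Prop :=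
  h ≤ X + Y + 1 ∧ X + Y + 1 ≤ 2 * n + h ∧ (Y ≤ X + h ∨ (Y = X + h + 1 ∧ TT h R C X)) ∧
    (X ≤ Y + h ∨ (X = Y + h + 1 ∧ TT h C R Y))

variable {n h : ℕ} {R C : ℕ → Prop} {T : ℕ → ℕ → ℕ}

theorem CX_flip : (fun X Y => CX n h R C Y X) = CX n h C R := by
  funext X Y
  unfold CX
  rw [add_comm Y X]
  exact propext ⟨fun ⟨a, b, c, d⟩ => ⟨a, b, d, c⟩, fun ⟨a, b, c, d⟩ => ⟨a, b, d, c⟩⟩

theorem Sep.rT (S : Sep n h R C) {x : ℕ} (hx : TT h R C x) : h ≤ x ∧ x + h + 2 ≤ n := by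
  rcases hx with hx | hx
  · have := S.rR _ hx; omega
  · have := S.rC _ hx; omega

theorem Sep.tt2 (S : Sep n h R C) {x : ℕ} (hx : TT h R C x) (hx' : TT h R C (x + 1)) : False := by
  have := S.hpos
  rcases hx with hx | hx <;> rcases hx' with hx' | hx'
  · have := S.RR _ _ hx hx' (by omega); omega
  · have := S.RC _ _ hx hx'; omega
  · have := S.RC _ _ hx' hx; omega
  · have := S.CC _ _ hx hx' (by omega); omega

/-- near the far ends of the lines adjacent to a row switch there is no step -/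
theorem Sep.noT (S : Sep n h R C) {a z : ℕ} (ha : R a) (h1 : a + h ≤ z + 1) (h2 : z ≤ a + h + 1) :
    ¬ TT h R C z := by
  have := S.hpos
  rintro (hz | hz)
  · have := S.RR _ _ ha hz (by omega); omega
  · have := S.RC _ _ ha hz; omega

theorem Sep.noB (S : Sep n h R C) {a z : ℕ} (ha : R a) (h1 : a ≤ z + 2 * h + 1)
    (h2 : z + 2 * h ≤ a + 1) : ¬ TT h C R z := by
  have := S.hpos
  rintro (hz | hz)
  · have := S.RC _ _ ha hz; omega
  · have := S.RR _ _ hz ha (by omega); omega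

theorem Sep.bound (S : Sep n h R C) (X Y : ℕ) (hc : CX n h R C X Y) : X < n + h ∧ Y < n + h := by
  obtain ⟨-, h2, h3, h4⟩ := hc
  constructor
  · rcases h4 with h4 | ⟨h4, h5⟩
    · omega
    · have := S.flip.rT h5; omega
  · rcases h3 with h3 | ⟨h3, h5⟩
    · omega
    · have := S.rT h5; omega

section
variable {k : ℕ}

theorem fTop (D : TC (CX n h R C) (n + h) k T) {X : ℕ} (hX : X < n) (h1 : ¬ TT h R C X)
    (h2 : ∀ x, x + 1 = X → ¬ TT h R C x) : 0 < T X (X + h) := by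
  refine D.corner _ _ ⟨by omega, by omega, by omega, by omega⟩ (Or.inr ?_) (Or.inl ?_)
  · rintro x rfl ⟨-, -, h3 | ⟨-, h3⟩, -⟩
    · omega
    · exact h2 _ rfl h3
  · rintro ⟨-, -, h3 | ⟨-, h3⟩, -⟩
    · omega
    · exact h1 h3

theorem fTop2 (S : Sep n h R C) (D : TC (CX n h R C) (n + h) k T) {X : ℕ} (h1 : TT h R C X) :
    0 < T X (X + h + 1) := by
  have := S.rT h1
  refine D.corner _ _ ⟨by omega, by omega, Or.inr ⟨rfl, h1⟩, by omega⟩ (Or.inr ?_) (Or.inl ?_)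
  · rintro x rfl ⟨-, -, h3 | ⟨h3, -⟩, -⟩ <;> omega
  · rintro ⟨-, -, h3 | ⟨h3, -⟩, -⟩ <;> omega

theorem fCap1 (S : Sep n h R C) (D : TC (CX n h R C) (n + h) k T) {X Y : ℕ} (e : X + Y + 1 = h) :
    0 < T X Y := by
  have := S.hn
  refine D.corner _ _ ⟨by omega, by omega, by omega, by omega⟩ (Or.inr ?_) (Or.inr ?_)
  · rintro x rfl ⟨h3, -⟩; omega
  · rintro x rfl ⟨h3, -⟩; omega

theorem fCap2 (D : TC (CX n h R C) (n + h) k T) {X Y : ℕ} (e : X + Y + 1 = 2 * n + h)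
    (hX : n ≤ X) (hY : n ≤ Y) : 0 < T X Y := by
  refine D.corner _ _ ⟨by omega, by omega, by omega, by omega⟩ (Or.inl ?_) (Or.inl ?_)
  · rintro ⟨-, h3, -⟩; omega
  · rintro ⟨-, h3, -⟩; omega

theorem TC.flip' (D : TC (CX n h R C) (n + h) k T) :
    TC (CX n h C R) (n + h) k (fun X Y => T Y X) := CX_flip ▸ D.flip

theorem col_pos (S : Sep n h R C) (D : TC (CX n h R C) (n + h) k T) {X : ℕ} (hX : X < n + h) :
    ∃ Y, 0 < T X Y := by
  have := S.hpos
  by_cases c1 : n ≤ X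
  · exact ⟨2 * n + h - 1 - X, fCap2 D (by omega) c1 (by omega)⟩
  by_cases c2 : TT h R C X
  · exact ⟨_, fTop2 S D c2⟩
  by_cases c3 : ∀ x, x + 1 = X → ¬ TT h R C x
  · exact ⟨_, fTop D (by omega) c2 c3⟩
  push Not at c3
  obtain ⟨x, rfl, hx⟩ := c3
  have := S.rT hx
  rcases hx with hx | hx
  · have := S.rR _ hx
    have h5 := fTop D.flip' (X := x + 1 - h) (by omega) (S.noB hx (by omega) (by omega))
      (fun z hz => S.noB hx (by omega) (by omega))
    rw [show x + 1 - h + h = x + 1 by omega] at h5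
    exact ⟨_, h5⟩
  · have h5 := fTop2 S.flip D.flip' (X := x - h) (Or.inl (by rwa [show x - h + h = x by omega]))
    rw [show x - h + h + 1 = x + 1 by omega] at h5
    exact ⟨_, h5⟩

end

theorem col_two (S : Sep n h R C) (D : TC (CX n h R C) (n + h) (2 * (n + h)) T) {X : ℕ}
    (hX : X < n + h) : ∑ Y ∈ range (n + h), T X Y = 2 := by
  have h2 : ∀ X ∈ range (n + h), 2 ≤ ∑ Y ∈ range (n + h), T X Y := by
    intro X hX
    obtain ⟨Y, hY⟩ := col_pos S D (mem_range.1 hX)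
    have h3 := single_le_sum (f := T X) (fun _ _ => Nat.zero_le _)
      (mem_range.2 (S.bound _ _ (D.supp _ _ hY)).2)
    obtain ⟨r, hr⟩ := D.colpar X
    omega
  by_contra hne
  have h3 : ∑ _X ∈ range (n + h), 2 < ∑ X ∈ range (n + h), ∑ Y ∈ range (n + h), T X Y :=
    sum_lt_sum h2 ⟨X, mem_range.2 hX, lt_of_le_of_ne (h2 X (mem_range.2 hX)) (Ne.symm hne)⟩
  have := D.sum
  rw [sum_const, card_range, smul_eq_mul] at h3
  omega

theorem col_three (S : Sep n h R C) (D : TC (CX n h R C) (n + h) (2 * (n + h)) T) {X a b c : ℕ}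
    (ha : 0 < T X a) (hb : 0 < T X b) (hc : 0 < T X c) (hab : a ≠ b) : c = a ∨ c = b := by
  by_contra hn
  push Not at hn
  have h1 := col_two S D (S.bound _ _ (D.supp _ _ ha)).1
  have h2 : ∑ Y ∈ {a, b, c}, T X Y ≤ ∑ Y ∈ range (n + h), T X Y := by
    refine sum_le_sum_of_subset fun Y hY => ?_
    simp only [mem_insert, mem_singleton] at hY
    rcases hY with rfl | rfl | rfl
    · exact mem_range.2 (S.bound _ _ (D.supp _ _ ha)).2
    · exact mem_range.2 (S.bound _ _ (D.supp _ _ hb)).2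
    · exact mem_range.2 (S.bound _ _ (D.supp _ _ hc)).2
  rw [sum_insert (by simp only [mem_insert, mem_singleton]; omega), sum_pair (by omega)] at h2
  omega

theorem gadget (S : Sep n h R C) (D : TC (CX n h R C) (n + h) (2 * (n + h)) T) {x : ℕ}
    (hx : R (x + h)) :
    (0 < T (x + 1) (x + h) ∧ 0 < T (x + 2 * h) (x + h + 1)) ∨
      (0 < T (x + 1) (x + h + 1) ∧ 0 < T (x + 2 * h) (x + h)) := by
  have hh := S.hpos
  have hr := S.rR _ hx
  have a1 : 0 < T x (x + h + 1) := fTop2 S D (Or.inl hx)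
  have a2 : 0 < T x (x - h) := by
    have h5 := fTop D.flip' (X := x - h) (by omega) (S.noB hx (by omega) (by omega))
      (fun z hz => S.noB hx (by omega) (by omega))
    rwa [show x - h + h = x by omega] at h5
  have b1 : 0 < T (x + h + h + 1) (x + h) := fTop2 S.flip D.flip' (X := x + h) (Or.inr hx)
  have b2 : 0 < T (x + h + h + 1) (x + h + h + 1 + h) :=
    fTop D (by omega) (S.noT hx (by omega) (by omega)) (fun z hz => S.noT hx (by omega) (by omega))
  have P1 : 0 < T (x + 1) (x + h) ∨ 0 < T (x + 1) (x + h + 1) := by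
    rcases D.cover (x + 1) (x + h) ⟨by omega, by omega, by omega, by omega⟩ with
      ⟨⟨X', h1, h2⟩, -⟩ | ⟨-, Y', h1, h2⟩
    · left
      obtain ⟨-, -, h3, -⟩ := D.supp _ _ h2
      have h4 : X' = x ∨ X' = x + 1 := by
        rcases h3 with h3 | ⟨h3, h4⟩
        · omega
        · obtain rfl : x = X' + 1 := by omega
          exact (S.tt2 h4 (Or.inl hx)).elim
      rcases h4 with rfl | rfl
      · have := col_three S D a1 a2 h2 (by omega); omega
      · exact h2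
    · obtain ⟨-, -, h3, -⟩ := D.supp _ _ h2
      have h4 : Y' = x + h ∨ Y' = x + h + 1 := by
        rcases h3 with h3 | ⟨h3, h4⟩
        · omega
        · exact (S.tt2 (Or.inl hx) h4).elim
      rcases h4 with rfl | rfl
      · exact Or.inl h2
      · exact Or.inr h2
  have P2 : 0 < T (x + 2 * h) (x + h) ∨ 0 < T (x + 2 * h) (x + h + 1) := by
    rcases D.cover (x + 2 * h) (x + h + 1) ⟨by omega, by omega, by omega, by omega⟩ with
      ⟨-, X', h1, h2⟩ | ⟨⟨Y', h1, h2⟩, -⟩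
    · right
      obtain ⟨-, -, -, h3⟩ := D.supp _ _ h2
      have h4 : X' = x + 2 * h ∨ X' = x + h + h + 1 := by
        rcases h3 with h3 | ⟨h3, h4⟩
        · omega
        · exact (S.flip.tt2 (Or.inr hx) h4).elim
      rcases h4 with rfl | rfl
      · exact h2
      · have := col_three S D b1 b2 h2 (by omega); omega
    · obtain ⟨-, -, -, h3⟩ := D.supp _ _ h2
      have h4 : Y' = x + h ∨ Y' = x + h + 1 := by
        rcases h3 with h3 | ⟨h3, h4⟩
        · omega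
        · have e : x + h = Y' + 1 := by omega
          exact (S.flip.tt2 h4 (Or.inr (e ▸ hx))).elim
      rcases h4 with rfl | rfl
      · exact Or.inl h2
      · exact Or.inr h2
  rcases P1 with P1 | P1 <;> rcases P2 with P2 | P2
  · have := col_three S.flip D.flip' (X := x + h) b1 P1 P2 (by omega); omega
  · exact Or.inl ⟨P1, P2⟩
  · exact Or.inr ⟨P1, P2⟩
  · have := col_three S.flip D.flip' (X := x + h + 1) a1 P1 P2 (by omega); omega

/-- The switch at `a` is used. -/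
def Used (h : ℕ) (R : ℕ → Prop) (T : ℕ → ℕ → ℕ) (a : ℕ) : Prop := R a ∧ 0 < T (a + h) a

theorem conflict (S : Sep n h R C) (D : TC (CX n h R C) (n + h) (2 * (n + h)) T) {a b : ℕ}
    (ha : Used h R T a) (hb : Used h C (fun X Y => T Y X) b) (h1 : a + 2 ≤ b + h)
    (h2 : b + 2 ≤ a + h) : False := by
  have hh := S.hpos
  have r1 := S.rR _ ha.1
  have r2 := S.rC _ hb.1
  have a1 : 0 < T (a + h + 1) a := fTop2 S.flip D.flip' (X := a) (Or.inr ha.1)
  have b1 : 0 < T b (b + h + 1) := fTop2 S D (Or.inr hb.1)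
  obtain ⟨y, rfl⟩ : ∃ y, b = y + h := ⟨b - h, by omega⟩
  have b2 : 0 < T (y + h + 1) y := fTop2 S.flip D.flip' (X := y) (Or.inl hb.1)
  have b3 : 0 < T (y + h + 1) (y + 1) := by
    rcases gadget S.flip D.flip' hb.1 with ⟨g1, g2⟩ | ⟨g1, -⟩
    · have := col_three S D b1 hb.2 g1 (by omega); omega
    · exact g1
  rcases D.cover (y + h + 1) a ⟨by omega, by omega, by omega, by omega⟩ with
      ⟨⟨X', c1, c2⟩, -⟩ | ⟨-, Y', c1, c2⟩
  · have := col_three S.flip D.flip' (X := a) a1 ha.2 c2 (by omega); omega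
  · have := col_three S D b2 b3 c2 (by omega); omega

open Classical in
/-- exchange the two lines of every switch -/
noncomputable def swp (R : ℕ → Prop) (Y : ℕ) : ℕ :=
  if R Y then Y + 1 else if 0 < Y ∧ R (Y - 1) then Y - 1 else Y

theorem swp_a {R : ℕ → Prop} {a : ℕ} (ha : R a) : swp R a = a + 1 := by simp [swp, ha]

theorem Sep.swp_b (S : Sep n h R C) {a : ℕ} (ha : R a) : swp R (a + 1) = a := by
  have : ¬ R (a + 1) := fun h' => by have := S.RR _ _ ha h' (by omega); omega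
  simp [swp, ha, this]

theorem swp_c {R : ℕ → Prop} {Y : ℕ} (h1 : ¬ R Y) (h2 : ∀ y, y + 1 = Y → ¬ R y) : swp R Y = Y := by
  unfold swp
  rw [if_neg h1, if_neg]
  rintro ⟨h3, h4⟩
  exact h2 _ (by omega) h4

/-- Turn cells near the upper left boundary when the switches `uR`, `uC` are used. -/
def Top (n h : ℕ) (R C uR uC : ℕ → Prop) (X Y : ℕ) : Prop :=
  (Y = X + h ∧ X < n ∧ ¬ TT h R C X ∧ ∀ x, x + 1 = X → ¬ TT h R C x) ∨
  (Y = X + h + 1 ∧ TT h R C X) ∨
  (X + h = Y + 1 ∧ ∃ x, x + 1 = X ∧ TT h R C x ∧ ¬ TT h uR uC x) ∨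
  (Y = X + h ∧ ∃ a, a + 1 = Y ∧ uR a) ∨ (Y = X + h ∧ uC X)

/-- All turn cells. -/
def Tn (n h : ℕ) (R C uR uC : ℕ → Prop) (X Y : ℕ) : Prop :=
  X + Y + 1 = h ∨ (X + Y + 1 = 2 * n + h ∧ n ≤ X ∧ n ≤ Y) ∨
    Top n h R C uR uC X Y ∨ Top n h C R uC uR Y X

theorem top_pos (S : Sep n h R C) (D : TC (CX n h R C) (n + h) (2 * (n + h)) T) {X Y : ℕ}
    (ht : Top n h R C (Used h R T) (Used h C (fun X Y => T Y X)) X Y) : 0 < T X Y := by
  have hh := S.hpos
  rcases ht with ⟨rfl, h1, h2, h3⟩ | ⟨rfl, h1⟩ | ⟨e, x, rfl, h1, h2⟩ | ⟨e, a, rfl, h1⟩ | ⟨rfl, h1⟩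
  · exact fTop D h1 h2 h3
  · exact fTop2 S D h1
  · obtain rfl : Y = x + h := by omega
    rcases h1 with h1 | h1
    · rcases gadget S D h1 with g | g
      · exact g.1
      · exact (h2 (Or.inl ⟨h1, by rw [show x + h + h = x + 2 * h by omega]; exact g.2⟩)).elim
    · have r := S.rC _ h1
      obtain ⟨y, rfl⟩ : ∃ y, x = y + h := ⟨x - h, by omega⟩
      rcases gadget S.flip D.flip' h1 with g | g
      · rw [show y + h + h = y + 2 * h by omega]; exact g.2
      · exact (h2 (Or.inr ⟨h1, by rw [show y + h + h = y + 2 * h by omega]; exact g.2⟩)).elim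
  · have r := S.rR _ h1.1
    obtain ⟨x, rfl⟩ : ∃ x, a = x + h := ⟨a - h, by omega⟩
    obtain rfl : X = x + 1 := by omega
    rcases gadget S D h1.1 with g | g
    · have a1 : 0 < T (x + h + h + 1) (x + h) := fTop2 S.flip D.flip' (X := x + h) (Or.inr h1.1)
      have := col_three S.flip D.flip' (X := x + h) a1 h1.2 g.1 (by omega); omega
    · exact g.1
  · exact h1.2

theorem tn_pos (S : Sep n h R C) (D : TC (CX n h R C) (n + h) (2 * (n + h)) T) {X Y : ℕ}
    (ht : Tn n h R C (Used h R T) (Used h C (fun X Y => T Y X)) X Y) : 0 < T X Y := by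
  rcases ht with h1 | ⟨h1, h2, h3⟩ | h1 | h1
  · exact fCap1 S D h1
  · exact fCap2 D h1 h2 h3
  · exact top_pos S D h1
  · exact top_pos S.flip D.flip' h1

end Pool.Agent.P.MP_531d8e_lc
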