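import Pool.Agent.P.MP_531d8e_lc.CSound

namespace Pool.Agent.P.MP_531d8e_lc

open Finset

variable {n h : ℕ} {R C uR uC : ℕ → Prop}

def Hi (n h : ℕ) (R C uR uC : ℕ → Prop) (X Y : ℕ) : Prop :=
  (X + Y + 1 = 2 * n + h ∧ n ≤ X ∧ n ≤ Y) ∨
  (Y = X + h ∧ X < n ∧ ¬ TT h R C X ∧ ∀ x, x + 1 = X → ¬ TT h R C x) ∨
  (Y = X + h + 1 ∧ TT h R C X) ∨
  (X + h = Y + 1 ∧ ∃ x, x + 1 = X ∧ TT h R C x ∧ ¬ TT h uR uC x) ∨
  (Y = X + h ∧ ∃ a, a + 1 = Y ∧ uR a) ∨ (X = Y + h ∧ ∃ a, a + 1 = X ∧ uC a)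

def Lo (n h : ℕ) (R C uR uC : ℕ → Prop) (X Y : ℕ) : Prop :=
  X + Y + 1 = h ∨
  (X = Y + h ∧ Y < n ∧ ¬ TT h C R Y ∧ ∀ x, x + 1 = Y → ¬ TT h C R x) ∨
  (X = Y + h + 1 ∧ TT h C R Y) ∨
  (Y + h = X + 1 ∧ ∃ x, x + 1 = Y ∧ TT h C R x ∧ ¬ TT h uC uR x) ∨
  (X = Y + h ∧ uR Y) ∨ (Y = X + h ∧ uC X)

theorem tn_iff {X Y : ℕ} : Tn n h R C uR uC X Y ↔ Lo n h R C uR uC X Y ∨ Hi n h R C uR uC X Y := by
  constructor
  · rintro (a | a | (a | a | a | a | a) | (a | a | a | a | a))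
    · exact Or.inl (Or.inl a)
    · exact Or.inr (Or.inl a)
    · exact Or.inr (Or.inr (Or.inl a))
    · exact Or.inr (Or.inr (Or.inr (Or.inl a)))
    · exact Or.inr (Or.inr (Or.inr (Or.inr (Or.inl a))))
    · exact Or.inr (Or.inr (Or.inr (Or.inr (Or.inr (Or.inl a)))))
    · exact Or.inl (Or.inr (Or.inr (Or.inr (Or.inr (Or.inr a)))))
    · exact Or.inl (Or.inr (Or.inl a))
    · exact Or.inl (Or.inr (Or.inr (Or.inl a)))
    · exact Or.inl (Or.inr (Or.inr (Or.inr (Or.inl a))))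
    · exact Or.inr (Or.inr (Or.inr (Or.inr (Or.inr (Or.inr a)))))
    · exact Or.inl (Or.inr (Or.inr (Or.inr (Or.inr (Or.inl a)))))
  · rintro ((a | a | a | a | a | a) | (a | a | a | a | a | a))
    · exact Or.inl a
    · exact Or.inr (Or.inr (Or.inr (Or.inl a)))
    · exact Or.inr (Or.inr (Or.inr (Or.inr (Or.inl a))))
    · exact Or.inr (Or.inr (Or.inr (Or.inr (Or.inr (Or.inl a)))))
    · exact Or.inr (Or.inr (Or.inr (Or.inr (Or.inr (Or.inr (Or.inr a))))))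
    · exact Or.inr (Or.inr (Or.inl (Or.inr (Or.inr (Or.inr (Or.inr a))))))
    · exact Or.inr (Or.inl a)
    · exact Or.inr (Or.inr (Or.inl (Or.inl a)))
    · exact Or.inr (Or.inr (Or.inl (Or.inr (Or.inl a))))
    · exact Or.inr (Or.inr (Or.inl (Or.inr (Or.inr (Or.inl a)))))
    · exact Or.inr (Or.inr (Or.inl (Or.inr (Or.inr (Or.inr (Or.inl a))))))
    · exact Or.inr (Or.inr (Or.inr (Or.inr (Or.inr (Or.inr (Or.inl a))))))

theorem tn_flip' {X Y : ℕ} (H : Tn n h R C uR uC X Y) : Tn n h C R uC uR Y X := by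
  rcases H with a | a | a | a
  · exact Or.inl (by omega)
  · exact Or.inr (Or.inl (by omega))
  · exact Or.inr (Or.inr (Or.inr a))
  · exact Or.inr (Or.inr (Or.inl a))

theorem tn_flip {X Y : ℕ} : Tn n h R C uR uC X Y ↔ Tn n h C R uC uR Y X := ⟨tn_flip', tn_flip'⟩

theorem hi_ex (S : Sep n h R C) {X : ℕ} (hX : X < n + h)
    (hC : ∀ a, uC a → C a) : ∃ Y, Hi n h R C uR uC X Y := by
  have hh := S.hpos
  by_cases c1 : n ≤ X
  · exact ⟨2 * n + h - 1 - X, Or.inl (by omega)⟩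
  by_cases c2 : TT h R C X
  · exact ⟨_, Or.inr (Or.inr (Or.inl ⟨rfl, c2⟩))⟩
  by_cases c3 : ∀ x, x + 1 = X → ¬ TT h R C x
  · exact ⟨_, Or.inr (Or.inl ⟨rfl, by omega, c2, c3⟩)⟩
  push Not at c3
  obtain ⟨x, rfl, hx⟩ := c3
  by_cases c4 : TT h uR uC x
  · rcases c4 with c4 | c4
    · exact ⟨_, Or.inr (Or.inr (Or.inr (Or.inr (Or.inl ⟨rfl, _, by omega, c4⟩))))⟩
    · have := S.rC _ (hC _ c4)
      exact ⟨x + 1 - h, Or.inr (Or.inr (Or.inr (Or.inr (Or.inr ⟨by omega, _, rfl, c4⟩))))⟩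
  · exact ⟨x + h, Or.inr (Or.inr (Or.inr (Or.inl ⟨by omega, _, rfl, hx, c4⟩)))⟩

theorem lo_ex (S : Sep n h R C) {X : ℕ} (hX : X < n + h) : ∃ Y, Lo n h R C uR uC X Y := by
  have hh := S.hpos
  by_cases c1 : X < h
  · exact ⟨h - 1 - X, Or.inl (by omega)⟩
  obtain ⟨y, rfl⟩ : ∃ y, X = y + h := ⟨X - h, by omega⟩
  by_cases c2 : TT h C R y
  · by_cases c4 : TT h uC uR y
    · rcases c4 with c4 | c4
      · exact ⟨_, Or.inr (Or.inr (Or.inr (Or.inr (Or.inr ⟨rfl, c4⟩))))⟩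
      · exact ⟨_, Or.inr (Or.inr (Or.inr (Or.inr (Or.inl ⟨rfl, c4⟩))))⟩
    · exact ⟨y + 1, Or.inr (Or.inr (Or.inr (Or.inl ⟨by omega, _, rfl, c2, c4⟩)))⟩
  by_cases c3 : ∀ x, x + 1 = y → ¬ TT h C R x
  · exact ⟨_, Or.inr (Or.inl ⟨rfl, by omega, c2, c3⟩)⟩
  push Not at c3
  obtain ⟨x, rfl, hx⟩ := c3
  exact ⟨x, Or.inr (Or.inr (Or.inl ⟨by omega, hx⟩))⟩

theorem hi_nf0 (S : Sep n h R C) (hR : ∀ a, uR a → R a) {Y : ℕ}
    (h1 : Hi n h R C uR uC 0 Y) : Y = h := by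
  have hh := S.hpos
  have hn := S.hn
  rcases h1 with a | a | ⟨a, b⟩ | ⟨a, x, b, -⟩ | a | ⟨a, x, b, -⟩
  · omega
  · omega
  · have := S.rT b; omega
  · omega
  · omega
  · omega

theorem hi_nf {x Y : ℕ} (h1 : Hi n h R C uR uC (x + 1) Y) :
    (x + 1 + Y + 1 = 2 * n + h ∧ n ≤ x + 1 ∧ n ≤ Y) ∨
    (Y = x + 1 + h ∧ x + 1 < n ∧ ¬ TT h R C (x + 1) ∧ ¬ TT h R C x) ∨
    (Y = x + h + 2 ∧ TT h R C (x + 1)) ∨
    (Y = x + h ∧ TT h R C x ∧ ¬ uR (x + h) ∧ ¬ uC x) ∨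
    (Y = x + h + 1 ∧ uR (x + h)) ∨ (x + 1 = Y + h ∧ uC x) := by
  rcases h1 with a | ⟨a, b, c, d⟩ | ⟨a, b⟩ | ⟨a, x', b, c, d⟩ | ⟨a, x', b, c⟩ | ⟨a, x', b, c⟩
  · exact Or.inl a
  · exact Or.inr (Or.inl ⟨a, b, c, d _ rfl⟩)
  · exact Or.inr (Or.inr (Or.inl ⟨by omega, b⟩))
  · obtain rfl : x' = x := by omega
    exact Or.inr (Or.inr (Or.inr (Or.inl ⟨by omega, c, fun e => d (Or.inl e), fun e => d (Or.inr e)⟩)))
  · obtain rfl : x' = x + h := by omega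
    exact Or.inr (Or.inr (Or.inr (Or.inr (Or.inl ⟨by omega, c⟩))))
  · obtain rfl : x' = x := by omega
    exact Or.inr (Or.inr (Or.inr (Or.inr (Or.inr ⟨a, c⟩))))

theorem lo_nf0 (S : Sep n h R C) (hC : ∀ a, uC a → C a) {X Y : ℕ} (hX : X ≤ h)
    (h1 : Lo n h R C uR uC X Y) : X + Y + 1 = h ∨ (X = h ∧ Y = 0) := by
  have hh := S.hpos
  rcases h1 with a | a | ⟨a, b⟩ | ⟨a, x, b, c, -⟩ | a | ⟨a, b⟩
  · omega
  · omega
  · omega
  · have := S.flip.rT c; omega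
  · omega
  · have := S.rC _ (hC _ b); omega

theorem lo_nf {y Y : ℕ} (h1 : Lo n h R C uR uC (y + 1 + h) Y) :
    (Y = y + 1 ∧ y + 1 < n ∧ ¬ TT h C R (y + 1) ∧ ¬ TT h C R y) ∨
    (Y = y ∧ TT h C R y) ∨
    (Y = y + 2 ∧ TT h C R (y + 1) ∧ ¬ uR (y + 1) ∧ ¬ uC (y + 1 + h)) ∨
    (Y = y + 1 ∧ uR (y + 1)) ∨ (Y = y + 1 + 2 * h ∧ uC (y + 1 + h)) := by
  rcases h1 with a | ⟨a, b, c, d⟩ | ⟨a, b⟩ | ⟨a, x', b, c, d⟩ | ⟨a, b⟩ | ⟨a, b⟩
  · omega
  · obtain rfl : Y = y + 1 := by omega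
    exact Or.inl ⟨rfl, b, c, d _ rfl⟩
  · obtain rfl : Y = y := by omega
    exact Or.inr (Or.inl ⟨rfl, b⟩)
  · obtain rfl : x' = y + 1 := by omega
    exact Or.inr (Or.inr (Or.inl ⟨by omega, c, fun e => d (Or.inr e), fun e => d (Or.inl e)⟩))
  · obtain rfl : Y = y + 1 := by omega
    exact Or.inr (Or.inr (Or.inr (Or.inl ⟨rfl, b⟩)))
  · exact Or.inr (Or.inr (Or.inr (Or.inr ⟨by omega, b⟩)))

theorem hi_uniq (S : Sep n h R C) (hR : ∀ a, uR a → R a) (hC : ∀ a, uC a → C a) {X Y Y' : ℕ}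
    (h1 : Hi n h R C uR uC X Y) (h2 : Hi n h R C uR uC X Y') : Y = Y' := by
  rcases X with _ | x
  · rw [hi_nf0 S hR h1, hi_nf0 S hR h2]
  have h3 := hi_nf h1
  have h4 := hi_nf h2
  have f1 := S.rT (x := x)
  have f2 := S.rT (x := x + 1)
  have f3 := S.tt2 (x := x)
  have f4 : uR (x + h) → TT h R C x := fun e => Or.inl (hR _ e)
  have f5 : uC x → TT h R C x := fun e => Or.inr (hC _ e)
  have f6 : uR (x + h) → uC x → False := fun e e' => by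
    have := S.RC _ _ (hR _ e) (hC _ e'); omega
  clear h1 h2
  by_cases a : TT h R C x <;> by_cases b : TT h R C (x + 1) <;> by_cases c : uR (x + h) <;>
    by_cases d : uC x <;>
    simp only [a, b, c, d, not_true_eq_false, not_false_eq_true, and_true, and_false, false_or,
      or_false, forall_const, IsEmpty.forall_iff, true_and] at h3 h4 f1 f2 f3 f4 f5 f6 <;> omega

theorem lo_uniq (S : Sep n h R C) (hR : ∀ a, uR a → R a) (hC : ∀ a, uC a → C a) {X Y Y' : ℕ}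
    (h1 : Lo n h R C uR uC X Y) (h2 : Lo n h R C uR uC X Y') : Y = Y' := by
  by_cases hX : X ≤ h
  · have := lo_nf0 S hC hX h1
    have := lo_nf0 S hC hX h2
    omega
  obtain ⟨y, rfl⟩ : ∃ y, X = y + 1 + h := ⟨X - h - 1, by omega⟩
  have h3 := lo_nf h1
  have h4 := lo_nf h2
  have f3 := S.flip.tt2 (x := y)
  have f4 : uR (y + 1) → TT h C R (y + 1) := fun e => Or.inr (hR _ e)
  have f5 : uC (y + 1 + h) → TT h C R (y + 1) := fun e => Or.inl (hC _ e)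
  have f6 : uR (y + 1) → uC (y + 1 + h) → False := fun e e' => by
    have := S.RC _ _ (hR _ e) (hC _ e'); omega
  clear h1 h2
  by_cases a : TT h C R y <;> by_cases b : TT h C R (y + 1) <;> by_cases c : uR (y + 1) <;>
    by_cases d : uC (y + 1 + h) <;>
    simp only [a, b, c, d, not_true_eq_false, not_false_eq_true, and_true, and_false, false_or,
      or_false, forall_const, IsEmpty.forall_iff, true_and] at h3 h4 f3 f4 f5 f6 <;> omega

theorem hi_ge (S : Sep n h R C) (hC : ∀ a, uC a → C a) {X Y : ℕ} (h1 : Hi n h R C uR uC X Y)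
    (hu : ∀ x, x + 1 = X → ¬ uC x) :
    (X + Y + 1 = 2 * n + h ∧ n ≤ X ∧ n ≤ Y) ∨ X + h ≤ Y + 1 := by
  rcases h1 with a | a | a | a | a | ⟨a, x, b, c⟩
  · omega
  · omega
  · omega
  · omega
  · omega
  · exact (hu _ b c).elim

theorem lo_le {X Y : ℕ} (h1 : Lo n h R C uR uC X Y) (hu : ¬ uC X) :
    X + Y + 1 = h ∨ Y + h ≤ X + 1 := by
  rcases h1 with a | a | a | a | a | ⟨a, c⟩
  · omega
  · omega
  · omega
  · omega
  · omega
  · exact (hu c).elim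

theorem lo_lt_hi (S : Sep n h R C) (hR : ∀ a, uR a → R a) (hC : ∀ a, uC a → C a) {X Y Y' : ℕ}
    (h1 : Lo n h R C uR uC X Y) (h2 : Hi n h R C uR uC X Y') : Y < Y' := by
  have hh := S.hpos
  have hn := S.hn
  by_cases c1 : uC X
  · have e1 := lo_uniq S hR hC h1 (Or.inr (Or.inr (Or.inr (Or.inr (Or.inr ⟨rfl, c1⟩)))))
    have e2 := hi_uniq S hR hC h2 (Or.inr (Or.inr (Or.inl ⟨rfl, Or.inr (hC _ c1)⟩)))
    omega
  by_cases c2 : ∀ x, x + 1 = X → ¬ uC x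
  · have a := lo_le h1 c1
    have b := hi_ge S hC h2 c2
    by_contra hc
    rcases h1 with p | p | ⟨p, q⟩ | ⟨p, x, q, r, -⟩ | p | ⟨p, q⟩
    · rcases h2 with p' | p' | p' | ⟨p', x', q', r', -⟩ | p' | ⟨p', x', q', r'⟩
      · omega
      · omega
      · omega
      · have := S.rT r'; omega
      · omega
      · exact c2 _ q' r'
    · omega
    · omega
    · have := S.flip.rT r
      rcases h2 with p' | p' | p' | ⟨p', x', q', r', -⟩ | p' | ⟨p', x', q', r'⟩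
      · omega
      · omega
      · omega
      · obtain rfl : h = 1 := by omega
        obtain rfl : x' = x := by omega
        subst q'
        rcases r with r | r
        · exact S.tt2 r' (Or.inr r)
        · rcases r' with r' | r'
          · have := S.RR _ _ r r' (by omega); omega
          · have := S.RC _ _ r r'; omega
      · omega
      · exact c2 _ q' r'
    · omega
    · exact c1 q
  · push Not at c2
    obtain ⟨x, rfl, hx⟩ := c2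
    have r := S.rC _ (hC _ hx)
    have e1 := lo_uniq S hR hC h1 (Y' := x - h) (Or.inr (Or.inr (Or.inl ⟨by omega,
      Or.inl (by rw [show x - h + h = x by omega]; exact hC _ hx)⟩)))
    have e2 := hi_uniq S hR hC h2 (Y' := x + 1 - h)
      (Or.inr (Or.inr (Or.inr (Or.inr (Or.inr ⟨by omega, _, rfl, hx⟩)))))
    omega

theorem top_cell (S : Sep n h R C) (hR : ∀ a, uR a → R a) (hC : ∀ a, uC a → C a) {X Y : ℕ}
    (h1 : Top n h R C uR uC X Y) : CX n h R C X Y := by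
  have hh := S.hpos
  have hn := S.hn
  rcases h1 with a | ⟨a, b⟩ | ⟨a, x, b, c, -⟩ | ⟨a, x, b, c⟩ | ⟨a, b⟩
  · exact ⟨by omega, by omega, by omega, by omega⟩
  · have := S.rT b
    exact ⟨by omega, by omega, Or.inr ⟨a, b⟩, by omega⟩
  · have := S.rT c
    exact ⟨by omega, by omega, by omega, by omega⟩
  · have := S.rR _ (hR _ c)
    exact ⟨by omega, by omega, by omega, by omega⟩
  · have := S.rC _ (hC _ b)
    exact ⟨by omega, by omega, by omega, by omega⟩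

theorem tn_cell (S : Sep n h R C) (hR : ∀ a, uR a → R a) (hC : ∀ a, uC a → C a) {X Y : ℕ}
    (h1 : Tn n h R C uR uC X Y) : CX n h R C X Y := by
  have hh := S.hpos
  have hn := S.hn
  rcases h1 with a | a | a | a
  · exact ⟨by omega, by omega, by omega, by omega⟩
  · exact ⟨by omega, by omega, by omega, by omega⟩
  · exact top_cell S hR hC a
  · have := top_cell S.flip hC hR a
    rw [← CX_flip] at this
    exact this

theorem tn_col (S : Sep n h R C) (hR : ∀ a, uR a → R a) (hC : ∀ a, uC a → C a) {X : ℕ}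
    (hX : X < n + h) : ∃ a b, a < b ∧ ∀ Y, Tn n h R C uR uC X Y ↔ Y = a ∨ Y = b := by
  obtain ⟨a, ha⟩ := lo_ex (uR := uR) (uC := uC) S hX
  obtain ⟨b, hb⟩ := hi_ex (uR := uR) S hX hC
  refine ⟨a, b, lo_lt_hi S hR hC ha hb, fun Y => ?_⟩
  rw [tn_iff]
  constructor
  · rintro (e | e)
    · exact Or.inl (lo_uniq S hR hC e ha)
    · exact Or.inr (hi_uniq S hR hC e hb)
  · rintro (rfl | rfl)
    · exact Or.inl ha
    · exact Or.inr hb

end Pool.Agent.P.MP_531d8e_lc
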