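import Pool.Agent.P.MP_531d8e_lc.Turn

namespace Pool.Agent.P.MP_531d8e_lc

open Finset Function

/-- Turn counts of a tour, symmetric version. -/
structure TC (M : ℕ → ℕ → Prop) (B k : ℕ) (T : ℕ → ℕ → ℕ) : Prop where
  sum : ∑ X ∈ range B, ∑ Y ∈ range B, T X Y ≤ k
  supp : ∀ X Y, 0 < T X Y → M X Y
  rowpar : ∀ Y, Even (∑ X ∈ range B, T X Y)
  colpar : ∀ X, Even (∑ Y ∈ range B, T X Y)
  corner : ∀ X Y, M X Y → (¬ M (X + 1) Y ∨ ∀ X', X' + 1 = X → ¬ M X' Y) →
    (¬ M X (Y + 1) ∨ ∀ Y', Y' + 1 = Y → ¬ M X Y') → 0 < T X Y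
  closed : ∀ A C : ℕ → Prop, (∀ X Y, 0 < T X Y → (A Y ↔ C X)) →
    ∀ X Y X' Y', 0 < T X Y → 0 < T X' Y' → (A Y ↔ A Y')
  cover : ∀ X Y, M X Y → ((∃ X' ≤ X, 0 < T X' Y) ∧ ∃ X' ≥ X, 0 < T X' Y) ∨
    ((∃ Y' ≤ Y, 0 < T X Y') ∧ ∃ Y' ≥ Y, 0 < T X Y')

theorem TC.flip {M : ℕ → ℕ → Prop} {B k : ℕ} {T : ℕ → ℕ → ℕ} (D : TC M B k T) :
    TC (fun X Y => M Y X) B k (fun X Y => T Y X) where
  sum := by rw [sum_comm]; exact D.sum
  supp := fun X Y h => D.supp Y X h
  rowpar := D.colpar
  colpar := D.rowpar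
  corner := fun X Y h h1 h2 => D.corner Y X h h2 h1
  closed := fun A C h X Y X' Y' h1 h2 => by
    have h3 := D.closed C A (fun X Y hh => (h Y X hh).symm) Y X Y' X' h1 h2
    rw [h X Y h1, h X' Y' h2]
    exact h3
  cover := fun X Y h => (D.cover Y X h).symm

def Step (x y : ℕ → ℕ) : Prop :=
  ∀ i, (x (i + 1) = x i + 1 ∧ y (i + 1) = y i) ∨ (x (i + 1) + 1 = x i ∧ y (i + 1) = y i) ∨
      (x (i + 1) = x i ∧ y (i + 1) = y i + 1) ∨ (x (i + 1) = x i ∧ y (i + 1) + 1 = y i)

def Str8 (x y t : ℕ → ℕ) : Prop :=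
  ∀ i, t i = 0 → x (i + 2) + x i = 2 * x (i + 1) ∧ y (i + 2) + y i = 2 * y (i + 1)

theorem ray {m : ℕ} {x y t : ℕ → ℕ} (hm : 0 < m)
    (px : ∀ i, x (i + m) = x i) (py : ∀ i, y (i + m) = y i) (step : Step x y) (ht : Str8 x y t)
    (i : ℕ) (hH : y i = y (i + 1)) :
    ∃ j, x (j + 1) ≤ x (i + 1) ∧ y (j + 1) = y (i + 1) ∧ 0 < t j := by
  by_contra hn
  have key : ∀ e, ∃ j, x (j + 1) + e = x (i + 1) ∧ y (j + 1) = y (i + 1) ∧
      (y j = y (i + 1) ∨ y (j + 2) = y (i + 1)) := by
    intro e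
    induction e with
    | zero => exact ⟨i, rfl, rfl, Or.inl hH⟩
    | succ e ih =>
      obtain ⟨j, h1, h2, h4⟩ := ih
      have h0 : t j = 0 := by
        by_contra h0
        exact hn ⟨j, by omega, h2, by omega⟩
      have s1 := step j
      have s2 := step (j + 1)
      have s3 := ht j h0
      simp only [add_assoc, Nat.reduceAdd] at s2
      by_cases hd : x (j + 1) = x j + 1
      · refine ⟨j + m - 1, ?_⟩
        rw [show j + m - 1 + 1 = j + m by omega, show j + m - 1 + 2 = j + 1 + m by omega,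
          px, py, py]
        omega
      · refine ⟨j + 1, ?_⟩
        simp only [add_assoc, Nat.reduceAdd]
        omega
  obtain ⟨j, h1, -⟩ := key (x (i + 1) + 1)
  omega

theorem ray2 {m B : ℕ} {x y t : ℕ → ℕ} (hm : 0 < m) (hB : ∀ i, x i < B)
    (px : ∀ i, x (i + m) = x i) (py : ∀ i, y (i + m) = y i) (step : Step x y) (ht : Str8 x y t)
    (i : ℕ) (hH : y i = y (i + 1)) :
    ∃ j, x (i + 1) ≤ x (j + 1) ∧ y (j + 1) = y (i + 1) ∧ 0 < t j := by
  obtain ⟨j, h1, h2, h3⟩ := ray (x := fun i => B - x i) (y := y) (t := t) hm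
    (fun i => by simp only [px]) py (fun i => by
      have := step i
      have := hB i
      have := hB (i + 1)
      simp only
      omega) (fun i h0 => by
      have := ht i h0
      have := hB i
      have := hB (i + 1)
      have := hB (i + 2)
      simp only
      omega) i hH
  have := hB (i + 1)
  have := hB (j + 1)
  exact ⟨j, by omega, h2, h3⟩

theorem tc_of_nat {M : ℕ → ℕ → Prop} {B k m : ℕ} (x y t : ℕ → ℕ) (hm : 0 < m)
    (hB : ∀ X Y, M X Y → X < B ∧ Y < B)
    (px : ∀ i, x (i + m) = x i) (py : ∀ i, y (i + m) = y i) (pt : ∀ i, t (i + m) = t i)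
    (mem : ∀ i, M (x i) (y i)) (cov : ∀ X Y, M X Y → ∃ i, x i = X ∧ y i = Y)
    (step : Step x y)
    (ht : ∀ i, (t i = 0 ∧ x (i + 2) + x i = 2 * x (i + 1) ∧ y (i + 2) + y i = 2 * y (i + 1)) ∨
      (t i = 2 ∧ x (i + 2) = x i ∧ y (i + 2) = y i) ∨
      (t i = 1 ∧ ¬ (x (i + 2) + x i = 2 * x (i + 1) ∧ y (i + 2) + y i = 2 * y (i + 1)) ∧
        ¬ (x (i + 2) = x i ∧ y (i + 2) = y i)))
    (hk : ∑ i ∈ range m, t i ≤ k) : ∃ T, TC M B k T := by
  classical
  have Mc : ∀ {a b c d : ℕ}, M a b → a = c → b = d → M c d := by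
    rintro a b c d h rfl rfl; exact h
  let T : ℕ → ℕ → ℕ := fun X Y => ∑ i ∈ range m, if x (i + 1) = X ∧ y (i + 1) = Y then t i else 0
  have leT : ∀ i, t i ≤ T (x (i + 1)) (y (i + 1)) := by
    intro i
    refine le_trans (le_of_eq ?_) (single_le_sum (f := fun j =>
      if x (j + 1) = x (i + 1) ∧ y (j + 1) = y (i + 1) then t j else 0) (fun _ _ => Nat.zero_le _)
      (mem_range.2 (Nat.mod_lt i hm)))
    have := per_mod pt i 0
    simp only [add_zero] at this
    simp [per_mod px i 1, per_mod py i 1, this]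
  have posT : ∀ X Y, 0 < T X Y → ∃ i, x (i + 1) = X ∧ y (i + 1) = Y ∧ 0 < t i := by
    intro X Y h
    obtain ⟨i, -, hi⟩ := exists_ne_zero_of_sum_ne_zero h.ne'
    split_ifs at hi with hc
    · exact ⟨i, hc.1, hc.2, by omega⟩
    · exact absurd rfl hi
  have cov' : ∀ X Y, M X Y → ∃ i, x (i + 1) = X ∧ y (i + 1) = Y := by
    intro X Y h
    obtain ⟨i, h1, h2⟩ := cov X Y h
    refine ⟨i + m - 1, ?_⟩
    rw [show i + m - 1 + 1 = i + m by omega, px, py]
    exact ⟨h1, h2⟩
  have row : ∀ Y, ∑ X ∈ range B, T X Y = ∑ i ∈ range m, if y (i + 1) = Y then t i else 0 := by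
    intro Y
    rw [sum_comm]
    refine sum_congr rfl fun i _ => ?_
    by_cases h : y (i + 1) = Y
    · simp [h, (hB _ _ (mem (i + 1))).1]
    · simp [h]
  have col : ∀ X, ∑ Y ∈ range B, T X Y = ∑ i ∈ range m, if x (i + 1) = X then t i else 0 := by
    intro X
    rw [sum_comm]
    refine sum_congr rfl fun i _ => ?_
    by_cases h : x (i + 1) = X
    · simp [h, (hB _ _ (mem (i + 1))).2]
    · simp [h]
  refine ⟨T, ?_, ?_, ?_, ?_, ?_, ?_, ?_⟩
  · simp only [col]
    rw [sum_comm]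
    refine le_trans (le_of_eq (sum_congr rfl fun i _ => ?_)) hk
    simp [(hB _ _ (mem (i + 1))).1]
  · intro X Y h
    obtain ⟨i, rfl, rfl, -⟩ := posT X Y h
    exact mem _
  · intro Y
    rw [row]
    refine even_line (g := fun i => if y i = Y ∧ y (i + 1) = Y then 1 else 0) ?_ fun i => ?_
    · have h1 := py 0
      have h2 := py 1
      simp only [zero_add, add_comm 1 m] at h1 h2 ⊢
      simp only [h1, h2]
    · have h1 := step i
      have h2 := step (i + 1)
      have h3 := ht i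
      simp only [add_assoc, Nat.reduceAdd] at h2 ⊢
      split_ifs <;> omega
  · intro X
    rw [col]
    refine even_line (g := fun i => if x i = X ∧ x (i + 1) = X then 1 else 0) ?_ fun i => ?_
    · have h1 := px 0
      have h2 := px 1
      simp only [zero_add, add_comm 1 m] at h1 h2 ⊢
      simp only [h1, h2]
    · have h1 := step i
      have h2 := step (i + 1)
      have h3 := ht i
      simp only [add_assoc, Nat.reduceAdd] at h2 ⊢
      split_ifs <;> omega
  · intro X Y h hx hy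
    obtain ⟨i, rfl, rfl⟩ := cov' X Y h
    refine lt_of_lt_of_le ?_ (leT i)
    by_contra h0
    have h1 := step i
    have h2 := step (i + 1)
    have h3 := ht i
    have m0 := mem i
    have m2 := mem (i + 2)
    simp only [add_assoc, Nat.reduceAdd] at h2
    rcases h1 with h1 | h1 | h1 | h1
    · rcases hx with hx | hx
      · exact hx (Mc m2 (by omega) (by omega))
      · exact hx (x i) (by omega) (Mc m0 rfl (by omega))
    · rcases hx with hx | hx
      · exact hx (Mc m0 (by omega) (by omega))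
      · exact hx (x (i + 2)) (by omega) (Mc m2 rfl (by omega))
    · rcases hy with hy | hy
      · exact hy (Mc m2 (by omega) (by omega))
      · exact hy (y i) (by omega) (Mc m0 (by omega) rfl)
    · rcases hy with hy | hy
      · exact hy (Mc m0 (by omega) (by omega))
      · exact hy (y (i + 2)) (by omega) (Mc m2 (by omega) rfl)
  · intro A C hT
    let s : ℕ → Prop := fun i => if y (i + 1) = y i then A (y i) else C (x i)
    have hs : ∀ i, s i ↔ (if y (i + 1) = y i then A (y (i + 1)) else C (x (i + 1))) := by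
      intro i
      rcases step i with ⟨h1, h2⟩ | ⟨h1, h2⟩ | ⟨h1, h2⟩ | ⟨h1, h2⟩
      · simp only [s, h2, if_true]
      · simp only [s, h2, if_true]
      · have : ¬ y (i + 1) = y i := by omega
        simp only [s, this, if_false, h1]
      · have : ¬ y (i + 1) = y i := by omega
        simp only [s, this, if_false, h1]
    have hturn : ∀ i, 0 < t i → ((s i ↔ A (y (i + 1))) ∧ (s (i + 1) ↔ A (y (i + 1)))) := by
      intro i hi
      have := hT _ _ (hi.trans_le (leT i))
      rw [hs i]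
      simp only [s]
      constructor <;> split_ifs <;> simp only [this]
    have hconst : ∀ i, s i ↔ s 0 := by
      intro i
      induction i with
      | zero => rfl
      | succ i ih =>
        rw [← ih]
        by_cases hi : 0 < t i
        · rw [(hturn i hi).1, (hturn i hi).2]
        · rw [hs i]
          have h1 := step i
          have h2 := step (i + 1)
          have h3 := ht i
          simp only [add_assoc, Nat.reduceAdd] at h2
          have : y (i + 1 + 1) = y (i + 1) ↔ y (i + 1) = y i := by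
            simp only [add_assoc, Nat.reduceAdd]; omega
          simp only [s, this]
    intro X Y X' Y' h h'
    obtain ⟨i, rfl, rfl, hi⟩ := posT X Y h
    obtain ⟨j, rfl, rfl, hj⟩ := posT X' Y' h'
    rw [← (hturn i hi).1, ← (hturn j hj).1, hconst i, hconst j]
  · intro X Y h
    obtain ⟨i, rfl, rfl⟩ := cov' X Y h
    have s8 : Str8 x y t := fun i h0 => by have := ht i; omega
    have s8' : Str8 y x t := fun i h0 => by have := ht i; omega
    have step' : Step y x := fun i => by have := step i; omega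
    by_cases hH : y i = y (i + 1)
    · left
      obtain ⟨j, a1, a2, a3⟩ := ray hm px py step s8 i hH
      obtain ⟨j', b1, b2, b3⟩ := ray2 hm (fun i => (hB _ _ (mem i)).1) px py step s8 i hH
      exact ⟨⟨_, a1, a2 ▸ a3.trans_le (leT j)⟩, _, b1, b2 ▸ b3.trans_le (leT j')⟩
    · right
      have hV : x i = x (i + 1) := by have := step i; omega
      obtain ⟨j, a1, a2, a3⟩ := ray hm py px step' s8' i hV
      obtain ⟨j', b1, b2, b3⟩ := ray2 hm (fun i => (hB _ _ (mem i)).2) py px step' s8' i hV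
      exact ⟨⟨_, a1, a2 ▸ a3.trans_le (leT j)⟩, _, b1, b2 ▸ b3.trans_le (leT j')⟩

theorem tc_of_hasTour {V : Finset (ℤ × ℤ)} {M : ℕ → ℕ → Prop} {B k : ℕ}
    (hV : ∀ c, c ∈ V ↔ ∃ X Y : ℕ, c = ((X : ℤ), (Y : ℤ)) ∧ M X Y)
    (hB : ∀ X Y, M X Y → X < B ∧ Y < B) (h2 : ∃ a ∈ V, ∃ b ∈ V, a ≠ b) (h : HasTour V k) :
    ∃ T, TC M B k T := by
  obtain ⟨m, p, hs, hk⟩ := seq_of_hasTour h h2
  choose x y hxy hM using fun i => (hV _).1 (hs.mem i)
  have inj : ∀ i j, p i = p j → x i = x j ∧ y i = y j := by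
    intro i j e
    rw [hxy, hxy] at e
    simpa using e
  refine tc_of_nat x y (fun i => turn (p (i + 1) - p i) (p (i + 2) - p (i + 1))) hs.pos hB
    (fun i => (inj _ _ (hs.per i)).1) (fun i => (inj _ _ (hs.per i)).2) (fun i => ?_) hM
    (fun X Y hXY => ?_) (fun i => ?_) (fun i => ?_) hk
  · rw [show i + m + 1 = i + 1 + m by omega, show i + m + 2 = i + 2 + m by omega, hs.per, hs.per,
      hs.per]
  · obtain ⟨i, hi⟩ := hs.cov _ ((hV _).2 ⟨X, Y, rfl, hXY⟩)
    rw [hxy] at hi
    exact ⟨i, by simpa using hi⟩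
  · have := hs.step i
    simp only [hxy, U, Prod.mk_sub_mk, Prod.mk.injEq] at this
    omega
  · simp only [hxy, turn, Prod.mk_sub_mk, Prod.mk.injEq, Prod.neg_mk]
    split_ifs <;> omega

end Pool.Agent.P.MP_531d8e_lc
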