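import Pool.Agent.P.MP_531d8e_lc.Sound

/-! A connected admissible matching gives a tour within the budget. -/

namespace Pool.Agent.P.MP_531d8e_lc

open Finset Function

theorem periodic_of_injOn {σ : Type} {S : Set σ} (hS : S.Finite) {f : σ → σ} (hm : Set.MapsTo f S S)
    (hi : Set.InjOn f S) {s : σ} (hs : s ∈ S) : ∃ N, 0 < N ∧ f^[N] s = s := by
  have : Finite S := hS
  have h1 : Injective (hm.restrict f S S) := (hm.restrict_inj).2 hi
  obtain ⟨N, hN, e⟩ := h1.mem_periodicPts ⟨s, hs⟩
  refine ⟨N, hN, ?_⟩
  have := congrArg Subtype.val e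
  rwa [Set.MapsTo.iterate_restrict] at this

theorem reach_next_iff {σ : Type} {f : σ → σ} {s₀ s : σ} (h : ∃ N, 0 < N ∧ f^[N] s = s) :
    (∃ N, f^[N] s₀ = f s) ↔ ∃ N, f^[N] s₀ = s := by
  constructor
  · rintro ⟨M, hM⟩
    obtain ⟨N, hN, e⟩ := h
    refine ⟨N - 1 + M, ?_⟩
    rw [iterate_add_apply, hM, ← iterate_succ_apply, show (N - 1).succ = N by omega, e]
  · rintro ⟨M, hM⟩
    exact ⟨M + 1, by rw [iterate_succ_apply', hM]⟩

variable {n h : ℕ} {st tp : ℕ → ℕ} {sp : ℕ → Bool}

theorem Lay.tp_mono (L : Lay n h st tp sp) {X Z : ℕ} (hZ : Z < n) (hXZ : X ≤ Z) : tp X ≤ tp Z := by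
  have h1 := L.le X (by omega)
  have h2 := L.le Z hZ
  have h3 := L.same X (by omega) Z (by omega)
  omega

theorem complete (L : Lay n h st tp sp) {μ : ℕ → ℕ} (A : Adm n st tp sp μ) (up : ℕ → Bool)
    (u1 : ∀ Z, up (Z + 2 * h) = up Z) (u2 : ∀ Z < h, up Z = true)
    (u3 : ∀ Z, h ≤ Z → Z < 2 * h → up Z = false) (u4 : ∀ q, up (n + q) = up q)
    (u5 : ∀ X < n, up X = false → st X = X ∧ tp X = X)
    (H : ∀ W : ℕ → Prop, (∀ X < n, W (μ X + 2 * h) ↔ W X) →
      (∀ X < h, W X ↔ W (2 * h - 1 - X)) → (∀ q < h, W (n + q) ↔ W (n + 2 * h - 1 - q)) →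
      ∀ q < h, (W q ↔ W 0))
    {V : Finset (ℤ × ℤ)}
    (hV : ∀ c, c ∈ V ↔ ∃ X Y : ℕ, c = ((X : ℤ), (Y : ℤ)) ∧ Cell n h tp sp X Y) :
    HasTour V (budget n h sp) := by
  classical
  have hh := L.hpos
  have hn := L.hn
  have hμ : ∀ X < n, μ X < n := fun X hX => by have := A.le X hX; have := L.le X hX; omega
  have hsur : ∀ u, ∃ X, u < n → X < n ∧ μ X = u := by
    intro u
    by_cases hu : u < n
    · have h2 : Set.SurjOn μ (range n : Finset ℕ) (range n : Finset ℕ) := by
        refine surjOn_of_injOn_of_card_le μ (fun Z hZ => ?_) (fun Z hZ Z' hZ' e => ?_) le_rfl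
        · simp only [coe_range, Set.mem_Iio] at hZ ⊢
          exact hμ Z hZ
        · simp only [coe_range, Set.mem_Iio] at hZ hZ'
          exact A.inj Z hZ Z' hZ' e
      obtain ⟨Z, hZ, e⟩ := h2 (show u ∈ (range n : Finset ℕ) by simpa using hu)
      exact ⟨Z, fun _ => ⟨by simpa using hZ, e⟩⟩
    · exact ⟨0, fun h => absurd h hu⟩
  choose ν hν using hsur
  have hνμ : ∀ X < n, ν (μ X) = X := fun X hX =>
    A.inj _ (hν _ (hμ X hX)).1 _ hX (hν _ (hμ X hX)).2
  have upμ : ∀ X < n, up (μ X) = up X := by
    intro X hX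
    have h1 := A.le X hX
    have h2 := L.le X hX
    have h3 := L.same X hX (μ X) h1.1 h1.2
    cases e : up X
    · have := u5 X hX e
      rw [show μ X = X by omega, e]
    · by_contra e'
      have := u5 (μ X) (hμ X hX) (by simpa using e')
      rw [show μ X = X by omega] at e'
      exact e' e
  have upsp : ∀ X < n, sp X = true → up X = true := by
    intro X hX hs
    by_contra e
    have := u5 X hX (by simpa using e)
    have := L.spk X hX hs
    omega
  have u6 : ∀ Z, n ≤ Z → Z < n + h → up Z = true := fun Z h1 h2 => by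
    rw [show Z = n + (Z - n) by omega, u4]; exact u2 _ (by omega)
  have u7 : ∀ Z, n + h ≤ Z → Z < n + 2 * h → up Z = false := fun Z h1 h2 => by
    rw [show Z = n + (Z - n) by omega, u4]; exact u3 _ (by omega) (by omega)
  have u8 : ∀ Z, 2 * h ≤ Z → up (Z - 2 * h) = up Z := fun Z h1 => by
    rw [← u1, Nat.sub_add_cancel h1]
  have hdn : ∀ X < n, up X = false → μ X = X ∧ h ≤ X := fun X hX e => by
    have := u5 X hX e
    have := A.le X hX
    refine ⟨by omega, ?_⟩
    by_contra hc
    rw [u2 X (by omega)] at e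
    exact absurd e (by simp)
  let S : Finset (ℕ ⊕ ℕ ⊕ ℕ) := (range (n + h)).disjSum ((Ico h (n + 2 * h)).disjSum
    ((range (n + h)).filter fun X => X < n ∧ sp X = true))
  let nx : ℕ ⊕ ℕ ⊕ ℕ → ℕ ⊕ ℕ ⊕ ℕ
    | .inl Z => if up Z = true then (if Z < n then (if sp Z = true then .inr (.inr Z)
        else .inr (.inl (μ Z + 2 * h))) else .inr (.inl (2 * n + 2 * h - 1 - Z)))
        else .inr (.inl Z)
    | .inr (.inl Z) => if up Z = true then .inl Z else
        (if Z < 2 * h then .inl (2 * h - 1 - Z) else .inl (Z - 2 * h))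
    | .inr (.inr Z) => .inr (.inl (μ Z + 2 * h))
  let lo : ℕ → ℕ := fun Z => if Z < h then h - 1 - Z else Z - h
  let sx : ℕ ⊕ ℕ ⊕ ℕ → ℕ
    | .inl Z => Z
    | .inr (.inl Z) => if up Z = true then ν (Z - 2 * h) else
        (if Z < n + h then Z else 2 * n + 2 * h - 1 - Z)
    | .inr (.inr Z) => Z
  let sy : ℕ ⊕ ℕ ⊕ ℕ → ℕ
    | .inl Z => if up Z = true then lo Z else Z + h
    | .inr (.inl Z) => Z - h
    | .inr (.inr Z) => tp Z + h + 1
  let d : ℕ ⊕ ℕ ⊕ ℕ → ℤ × ℤ
    | .inl Z => if up Z = true then (0, 1) else (0, -1)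
    | .inr (.inl Z) => if up Z = true then (1, 0) else (-1, 0)
    | .inr (.inr _) => (0, -1)
  let len : ℕ ⊕ ℕ ⊕ ℕ → ℕ
    | .inl Z => if up Z = true then (if Z < n then (if sp Z = true then tp Z + h + 1 else μ Z + h)
        else 2 * n + h - 1 - Z) - lo Z else 2 * h
    | .inr (.inl Z) => if up Z = true then Z - ν (Z - 2 * h) else
        (if Z < n + h then Z else 2 * n + 2 * h - 1 - Z) -
          (if Z < 2 * h then 2 * h - 1 - Z else Z - 2 * h)
    | .inr (.inr Z) => tp Z + 1 - μ Z
  have mem1 : ∀ Z, Sum.inl Z ∈ S ↔ Z < n + h := by simp [S]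
  have mem2 : ∀ Z, Sum.inr (Sum.inl Z) ∈ S ↔ h ≤ Z ∧ Z < n + 2 * h := by simp [S]
  have mem3 : ∀ Z, Sum.inr (Sum.inr Z) ∈ S ↔ Z < n ∧ sp Z = true := by
    simp only [S, inr_mem_disjSum, mem_filter, mem_range, and_iff_right_iff_imp]
    intro Z hZ; omega
  have uprow : ∀ Z, h ≤ Z → Z < n + 2 * h → up Z = true → 2 * h ≤ Z ∧ Z < n + h := by
    intro Z h1 h2 e
    constructor
    · by_contra hc
      rw [u3 Z h1 (by omega)] at e; exact absurd e (by simp)
    · by_contra hc
      rw [u7 Z (by omega) h2] at e; exact absurd e (by simp)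
  have dncol : ∀ Z, Z < n + h → ¬ up Z = true → Z < n ∧ h ≤ Z ∧ μ Z = Z ∧ tp Z = Z := by
    intro Z h1 e
    have : Z < n := by
      by_contra hc
      exact e (u6 Z (by omega) h1)
    have h2 := hdn Z this (by simpa using e)
    exact ⟨this, h2.2, h2.1, (u5 Z this (by simpa using e)).2⟩
  have hnx : ∀ s ∈ S, nx s ∈ S := by
    rintro (Z | Z | Z) hs
    · rw [mem1] at hs
      simp only [nx]
      split_ifs with c1 c2 c3
      · exact (mem3 _).2 ⟨c2, c3⟩
      · have := hμ Z c2; rw [mem2]; omega
      · rw [mem2]; omega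
      · have := dncol Z hs c1; rw [mem2]; omega
    · rw [mem2] at hs
      simp only [nx]
      split_ifs with c1 c2
      · have := uprow Z hs.1 hs.2 c1; rw [mem1]; omega
      · rw [mem1]; omega
      · rw [mem1]; omega
    · rw [mem3] at hs
      have := hμ Z hs.1
      simp only [nx]
      rw [mem2]; omega
  have hsurj : Set.SurjOn nx S S := by
    rintro (Z | Z | Z) hs
    · rw [mem_coe, mem1] at hs
      by_cases c1 : up Z = true
      · by_cases c2 : Z < h
        · refine ⟨.inr (.inl (2 * h - 1 - Z)), by rw [mem_coe, mem2]; omega, ?_⟩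
          simp only [nx]
          rw [u3 _ (by omega) (by omega), if_neg (by simp), if_pos (by omega)]
          congr 1; omega
        · refine ⟨.inr (.inl Z), by rw [mem_coe, mem2]; omega, ?_⟩
          simp only [nx, c1, if_true]
      · have := dncol Z hs c1
        refine ⟨.inr (.inl (Z + 2 * h)), by rw [mem_coe, mem2]; omega, ?_⟩
        simp only [nx]
        rw [u1, if_neg c1, if_neg (by omega)]
        congr 1; omega
    · rw [mem_coe, mem2] at hs
      by_cases c1 : up Z = true
      · have h1 := uprow Z hs.1 hs.2 c1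
        have h2 := hν (Z - 2 * h) (by omega)
        have h3 := upμ _ h2.1
        rw [h2.2, u8 Z h1.1, c1] at h3
        by_cases c2 : sp (ν (Z - 2 * h)) = true
        · refine ⟨.inr (.inr (ν (Z - 2 * h))), by rw [mem_coe, mem3]; exact ⟨h2.1, c2⟩, ?_⟩
          simp only [nx]
          congr 2; omega
        · refine ⟨.inl (ν (Z - 2 * h)), by rw [mem_coe, mem1]; omega, ?_⟩
          simp only [nx]
          rw [if_pos h3.symm, if_pos h2.1, if_neg c2]
          congr 2; omega
      · by_cases c2 : Z < n + h
        · refine ⟨.inl Z, by rw [mem_coe, mem1]; omega, ?_⟩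
          simp only [nx, c1]
          rfl
        · refine ⟨.inl (2 * n + 2 * h - 1 - Z), by rw [mem_coe, mem1]; omega, ?_⟩
          simp only [nx]
          rw [if_pos (u6 _ (by omega) (by omega)), if_neg (by omega)]
          congr 2; omega
    · rw [mem_coe, mem3] at hs
      refine ⟨.inl Z, by rw [mem_coe, mem1]; omega, ?_⟩
      simp only [nx]
      rw [if_pos (upsp Z hs.1 hs.2), if_pos hs.1, if_pos hs.2]
  have hper : ∀ s ∈ S, ∃ N, 0 < N ∧ nx^[N] s = s := fun s hs =>
    periodic_of_injOn S.finite_toSet (fun s hs => hnx s hs)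
      (injOn_of_surjOn_of_card_le nx (fun s hs => hnx s hs) hsurj le_rfl) hs
  let R : ℕ ⊕ ℕ ⊕ ℕ → Prop := fun s => ∃ N, nx^[N] (.inl 0) = s
  have hR : ∀ s ∈ S, R (nx s) ↔ R s := fun s hs => reach_next_iff (hper s hs)
  let W : ℕ → Prop := fun Z => if Z < h then R (.inl Z) else R (.inr (.inl Z))
  have hW : ∀ Z < n + h, W Z ↔ R (.inl Z) := by
    intro Z hZ
    simp only [W]
    split_ifs with c
    · rfl
    · by_cases c1 : up Z = true
      · rw [← hR (.inr (.inl Z)) (by rw [mem2]; omega)]
        simp only [nx, c1, if_true]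
      · rw [← hR (.inl Z) (by rw [mem1]; omega)]
        simp only [nx, c1]
        rfl
  have hW' : ∀ Z, h ≤ Z → (W Z ↔ R (.inr (.inl Z))) := fun Z hZ => by
    simp only [W]; rw [if_neg (by omega)]
  have w1 : ∀ X < n, W (μ X + 2 * h) ↔ W X := by
    intro X hX
    rw [hW X (by omega), hW' _ (by omega)]
    by_cases c1 : up X = true
    · rw [← hR (.inl X) (by rw [mem1]; omega)]
      simp only [nx, c1, hX, if_true]
      split_ifs with c2
      · rw [← hR (.inr (.inr X)) (by rw [mem3]; exact ⟨hX, c2⟩)]
      · rfl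
    · have := dncol X (by omega) c1
      rw [← hR _ (by rw [mem2]; omega)]
      simp only [nx]
      rw [this.2.2.1, u1, if_neg c1, if_neg (by omega), Nat.add_sub_cancel]
  have w2 : ∀ X < h, W X ↔ W (2 * h - 1 - X) := by
    intro X hX
    rw [hW X (by omega), hW' _ (by omega), ← hR (.inr (.inl _)) (by rw [mem2]; omega)]
    simp only [nx]
    rw [u3 _ (by omega) (by omega), if_neg (by simp), if_pos (by omega),
      show 2 * h - 1 - (2 * h - 1 - X) = X by omega]
  have w3 : ∀ q < h, W (n + q) ↔ W (n + 2 * h - 1 - q) := by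
    intro q hq
    rw [hW _ (by omega), hW' _ (by omega), ← hR (.inl _) (by rw [mem1]; omega)]
    simp only [nx]
    rw [if_pos (u6 _ (by omega) (by omega)), if_neg (by omega),
      show 2 * n + 2 * h - 1 - (n + q) = n + 2 * h - 1 - q by omega]
  have hall : ∀ Z, Z < n + 2 * h → W Z := by
    have h0 : W 0 := (hW 0 (by omega)).2 ⟨0, rfl⟩
    intro Z
    induction Z using Nat.strong_induction_on with
    | _ Z ih =>
      intro hZ
      by_cases c1 : Z < h
      · exact (H W w1 w2 w3 Z c1).2 h0
      by_cases c2 : Z < 2 * h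
      · have := (w2 (2 * h - 1 - Z) (by omega)).1 (ih _ (by omega) (by omega))
        rwa [show 2 * h - 1 - (2 * h - 1 - Z) = Z by omega] at this
      · have h2 := hν (Z - 2 * h) (by omega)
        have h3 := A.le _ h2.1
        have h4 := L.le _ h2.1
        have := (w1 _ h2.1).2 (ih _ (by omega) (by omega))
        rwa [h2.2, Nat.sub_add_cancel (by omega)] at this
  have Rcol : ∀ Z < n + h, R (.inl Z) := fun Z hZ => (hW Z hZ).1 (hall Z (by omega))
  have Rrow : ∀ Z, h ≤ Z → Z < n + 2 * h → R (.inr (.inl Z)) := fun Z h1 h2 =>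
    (hW' Z h1).1 (hall Z h2)
  have key := hasTour_of_segments (V := V) S nx (fun s => ((sx s : ℤ), (sy s : ℤ))) d len (.inl 0)
    (by rw [mem1]; omega) hnx ?_ ?_ ?_ ?_ (hper _ (by rw [mem1]; omega)) ?_
  · have e1 : ∀ Z, turn (d (.inl Z)) (d (nx (.inl Z))) =
        1 + if Z < n ∧ sp Z = true then 1 else 0 := by
      intro Z
      by_cases c : Z < n ∧ sp Z = true
      · simp [d, nx, c, upsp Z c.1 c.2, turn]
      · rw [if_neg c]
        by_cases c1 : up Z = true
        · by_cases c2 : Z < n
          · have c3 : sp Z = false := by simpa [c2] using c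
            simp only [d, nx, c1, c2, c3, if_true, Bool.false_eq_true, if_false]
            split_ifs <;> simp [turn]
          · simp only [d, nx, c1, c2, if_true, if_false]
            split_ifs <;> simp [turn]
        · simp [d, nx, c1, turn]
    have e2 : ∀ Z, turn (d (.inr (.inl Z))) (d (nx (.inr (.inl Z)))) = 1 := by
      intro Z
      by_cases c1 : up Z = true
      · simp [d, nx, c1, turn]
      · by_cases c2 : Z < 2 * h
        · simp only [d, nx, c1, c2, if_true, Bool.false_eq_true, if_false]
          split_ifs <;> simp [turn]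
        · simp only [d, nx, c1, c2, Bool.false_eq_true, if_false]
          split_ifs <;> simp [turn]
    have e3 : ∀ Z, turn (d (.inr (.inr Z))) (d (nx (.inr (.inr Z)))) = 1 := by
      intro Z
      simp only [d, nx]
      split_ifs <;> simp [turn]
    convert key using 1
    simp only [S, sum_disjSum, budget, e1, e2, e3]
    rw [sum_filter, sum_add_distrib]
    simp only [sum_const, card_range, Nat.card_Ico, smul_eq_mul]
    omega
  · rintro (Z | Z | Z) hs
    · rw [mem1] at hs
      have h1 := L.le Z
      have h2 := A.le Z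
      simp only [len, lo]
      split_ifs <;> omega
    · rw [mem2] at hs
      simp only [len]
      split_ifs with c1
      · have h1 := uprow Z hs.1 hs.2 c1
        have h2 := hν (Z - 2 * h) (by omega)
        have h3 := A.le _ h2.1
        have h4 := L.le _ h2.1
        omega
      all_goals omega
    · rw [mem3] at hs
      have h2 := A.le Z hs.1
      simp only [len]
      omega
  · rintro (Z | Z | Z) -
    · simp only [d, U]; split_ifs <;> simp
    · simp only [d, U]; split_ifs <;> simp
    · simp [d, U]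
  · rintro (Z | Z | Z) hs
    · rw [mem1] at hs
      have h1 := L.le Z
      have h2 := A.le Z
      by_cases c1 : up Z = true
      · by_cases c2 : Z < n
        · by_cases c3 : sp Z = true
          · simp only [nx, sx, sy, d, len, lo, c1, c2, c3, if_true, Prod.smul_mk, smul_eq_mul,
              Prod.mk_add_mk, Prod.mk.injEq]
            split_ifs <;> omega
          · simp only [nx, sx, sy, d, len, lo, c1, c2, c3, if_true, Prod.smul_mk, smul_eq_mul,
              Prod.mk_add_mk, Prod.mk.injEq, Bool.false_eq_true, if_false, u1, upμ Z c2,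
              Nat.add_sub_cancel, hνμ Z c2]
            split_ifs <;> omega
        · have h3 := u7 (2 * n + 2 * h - 1 - Z) (by omega) (by omega)
          simp only [nx, sx, sy, d, len, lo, c1, c2, if_true, Prod.smul_mk, smul_eq_mul,
              Prod.mk_add_mk, Prod.mk.injEq, Bool.false_eq_true, if_false, h3]
          split_ifs <;> omega
      · have h3 := dncol Z hs c1
        simp only [nx, sx, sy, d, len, lo, c1, if_true, Prod.smul_mk, smul_eq_mul,
              Prod.mk_add_mk, Prod.mk.injEq, Bool.false_eq_true, if_false, hs]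
        omega
    · rw [mem2] at hs
      by_cases c1 : up Z = true
      · have h1 := uprow Z hs.1 hs.2 c1
        have h2 := hν (Z - 2 * h) (by omega)
        have h3 := A.le _ h2.1
        have h4 := L.le _ h2.1
        simp only [nx, sx, sy, d, len, lo, c1, if_true, Prod.smul_mk, smul_eq_mul,
              Prod.mk_add_mk, Prod.mk.injEq]
        split_ifs <;> omega
      · by_cases c2 : Z < 2 * h
        · have h3 := u2 (2 * h - 1 - Z) (by omega)
          simp only [nx, sx, sy, d, len, lo, c1, c2, if_true, Prod.smul_mk, smul_eq_mul,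
              Prod.mk_add_mk, Prod.mk.injEq, Bool.false_eq_true, if_false, h3]
          split_ifs <;> omega
        · have h3 := u8 Z (by omega)
          simp only [nx, sx, sy, d, len, lo, c1, c2, Prod.smul_mk, smul_eq_mul,
              Prod.mk_add_mk, Prod.mk.injEq, Bool.false_eq_true, if_false, h3]
          split_ifs <;> omega
    · rw [mem3] at hs
      have h1 := L.le Z hs.1
      have h2 := A.le Z hs.1
      simp only [nx, sx, sy, d, len, lo, if_true, Prod.smul_mk, smul_eq_mul,
              Prod.mk_add_mk, Prod.mk.injEq, u1, upμ Z hs.1, upsp Z hs.1 hs.2,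
              Nat.add_sub_cancel, hνμ Z hs.1]
      omega
  · rintro (Z | Z | Z) hs j hj <;> rw [hV]
    · rw [mem1] at hs
      have h1 := L.le Z
      have h2 := A.le Z
      have h4 := L.spk Z
      by_cases c1 : up Z = true
      · refine ⟨Z, lo Z + j, by simp [sx, sy, d, c1], ?_⟩
        simp only [len, lo, c1, if_true, Cell] at hj ⊢
        cases c3 : sp Z <;>
          simp only [c3, Bool.false_eq_true, if_false, if_true, Bool.toNat_false, Bool.toNat_true,
            forall_const] at hj h4 ⊢ <;> split_ifs at hj ⊢ <;> omega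
      · have h3 := dncol Z hs c1
        simp only [len, c1, Bool.false_eq_true, if_false] at hj
        refine ⟨Z, Z + h - j, ?_, ?_⟩
        · simp only [sx, sy, d, c1, Prod.smul_mk, smul_eq_mul,
              Prod.mk_add_mk, Prod.mk.injEq, Bool.false_eq_true, if_false]
          omega
        · unfold Cell; omega
    · rw [mem2] at hs
      by_cases c1 : up Z = true
      · have h1 := uprow Z hs.1 hs.2 c1
        have h2 := hν (Z - 2 * h) (by omega)
        have h3 := A.le _ h2.1
        have h4 := L.le _ h2.1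
        have h5 := fun hh => L.tp_mono (X := ν (Z - 2 * h)) (Z := ν (Z - 2 * h) + j) hh (by omega)
        refine ⟨ν (Z - 2 * h) + j, Z - h, by simp [sx, sy, d, c1], ?_⟩
        simp only [len, c1, if_true] at hj
        unfold Cell; omega
      · refine ⟨(if Z < n + h then Z else 2 * n + 2 * h - 1 - Z) - j, Z - h, ?_, ?_⟩
        · simp only [len, c1, Bool.false_eq_true, if_false] at hj
          simp only [sx, sy, d, c1, Prod.smul_mk, smul_eq_mul,
              Prod.mk_add_mk, Prod.mk.injEq, Bool.false_eq_true, if_false]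
          split_ifs at hj ⊢ <;> omega
        · simp only [len, c1, Bool.false_eq_true, if_false] at hj
          have h1 := L.le ((if Z < n + h then Z else 2 * n + 2 * h - 1 - Z) - j)
          unfold Cell
          split_ifs at hj h1 ⊢ <;> omega
    · rw [mem3] at hs
      have h1 := L.le Z hs.1
      have h2 := A.le Z hs.1
      have h3 := L.spk Z hs.1 hs.2
      simp only [len] at hj
      refine ⟨Z, tp Z + h + 1 - j, ?_, ?_⟩
      · simp only [sx, sy, d, Prod.smul_mk, smul_eq_mul, Prod.mk_add_mk, Prod.mk.injEq]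
        omega
      · simp only [Cell, hs.2, Bool.toNat_true]; omega
  · intro v hv
    obtain ⟨X, Y, rfl, hc⟩ := (hV v).1 hv
    have hb := L.bound X Y hc
    have colcov : up X = true → Y ≤ (if X < n then (if sp X = true then tp X + h + 1 else μ X + h)
        else 2 * n + h - 1 - X) → ∃ s, (∃ N, nx^[N] (.inl 0) = s) ∧ ∃ j ≤ len s,
          ((X : ℤ), (Y : ℤ)) = ((sx s : ℤ), (sy s : ℤ)) + (j : ℤ) • d s := by
      intro c1 c2
      refine ⟨.inl X, Rcol X hb.1, Y - lo X, ?_, ?_⟩
      · simp only [len, c1, if_true]; omega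
      · unfold Cell at hc
        simp only [sx, sy, d, lo, c1, if_true, Prod.smul_mk, smul_eq_mul, Prod.mk_add_mk,
          Prod.mk.injEq]
        split_ifs <;> omega
    by_cases c0 : X < n ∧ sp X = true
    · refine colcov (upsp X c0.1 c0.2) ?_
      have := hc.2.2.2 c0.1
      simpa [c0] using this
    have hc4 : X < n → Y ≤ tp X + h := by
      intro hX
      have h1 := hc.2.2.2 hX
      have : sp X = false := by simpa [hX] using c0
      simpa [this] using h1
    unfold Cell at hc
    by_cases c1 : up (Y + h) = true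
    · have h1 := uprow (Y + h) (by omega) (by omega) c1
      have h2 := hν (Y + h - 2 * h) (by omega)
      have h3 := A.le _ h2.1
      have h4 := L.le _ h2.1
      by_cases c2 : ν (Y + h - 2 * h) ≤ X
      · refine ⟨.inr (.inl (Y + h)), Rrow _ (by omega) (by omega), X - ν (Y + h - 2 * h), ?_, ?_⟩
        · simp only [len, c1, if_true]; omega
        · simp only [sx, sy, d, c1, if_true, Prod.smul_mk, smul_eq_mul, Prod.mk_add_mk,
            Prod.mk.injEq]
          omega
      · have hX : X < n := by omega
        have h5 := hc4 hX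
        have h6 := L.le X hX
        have hs : sp X = false := by simpa [hX] using c0
        have h7 : ν (Y + h - 2 * h) ≤ tp X := by
          by_contra h7
          have := L.same _ h2.1 (tp X) (by omega) (by omega)
          have := L.same _ hX (tp X) (by omega) (by omega)
          omega
        have h8 := A.anti X hX _ (by omega) h7 hs
        refine colcov ?_ ?_
        · by_contra e
          have := dncol X (by omega) e
          omega
        · simp only [hX, hs, if_true, Bool.false_eq_true, if_false]; omega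
    · have h1 : 2 * h ≤ Y + h → Y + h - 2 * h ≤ X := by
        intro h1
        by_contra h2
        have h3 := u5 (Y + h - 2 * h) (by omega) (by rw [u8 _ h1]; simpa using c1)
        have h4 := L.tp_lt (X := Y + h - 2 * h) (Z := X) (by omega) (by omega)
        have h5 := hc4 (by omega)
        omega
      refine ⟨.inr (.inl (Y + h)), Rrow _ (by omega) (by omega),
        (if Y + h < n + h then Y + h else 2 * n + 2 * h - 1 - (Y + h)) - X, ?_, ?_⟩
      · simp only [len, c1, Bool.false_eq_true, if_false]; split_ifs <;> omega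
      · simp only [sx, sy, d, c1, Bool.false_eq_true, if_false, Prod.smul_mk, smul_eq_mul,
          Prod.mk_add_mk, Prod.mk.injEq]
        split_ifs <;> omega

end Pool.Agent.P.MP_531d8e_lc
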