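import Mathlib

namespace Pool.Agent.P.MP_531d8e_lc

/-- The grid graph on a finite set `V` of lattice points: adjacency is Euclidean distance one. -/
def gridGraph (V : Finset (ℤ × ℤ)) : SimpleGraph V :=
  SimpleGraph.fromRel fun a b => (a.1.1 - b.1.1) ^ 2 + (a.1.2 - b.1.2) ^ 2 = 1

/-- The plane drawing of the grid graph: its vertices and its straight unit edges. -/
def drawing (V : Finset (ℤ × ℤ)) : Set (ℝ × ℝ) :=
  {z | ∃ a b : V, (a = b ∨ (gridGraph V).Adj a b) ∧
    z ∈ segment ℝ ((a.1.1 : ℝ), (a.1.2 : ℝ)) ((b.1.1 : ℝ), (b.1.2 : ℝ))}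

/-- Every bounded face of the drawing is an open unit square of the lattice. -/
def Solid (V : Finset (ℤ × ℤ)) : Prop :=
  ∀ z ∉ drawing V, Bornology.IsBounded (connectedComponentIn (drawing V)ᶜ z) →
    ∃ i j : ℤ, connectedComponentIn (drawing V)ᶜ z =
      Set.Ioo (i : ℝ) (i + 1) ×ˢ Set.Ioo (j : ℝ) (j + 1)

/-- Cost of passing from an edge of direction `d` to an edge of direction `e`. -/
def turn (d e : ℤ × ℤ) : ℕ := if e = d then 0 else if e = -d then 2 else 1

/-- Turn cost of a closed walk, including the point where it closes up. -/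
def turnCost {V : Finset (ℤ × ℤ)} {v : V} (w : (gridGraph V).Walk v v) : ℕ :=
  ∑ i ∈ Finset.range w.length,
    turn ((w.getVert (i + 1)).1 - (w.getVert i).1)
      ((w.getVert ((i + 1) % w.length + 1)).1 - (w.getVert ((i + 1) % w.length)).1)

/-- The grid graph on `V` has a tour (closed walk through all vertices) of turn cost at most `k`. -/
def HasTour (V : Finset (ℤ × ℤ)) (k : ℕ) : Prop :=
  ∃ (v : V) (w : (gridGraph V).Walk v v), (∀ u, u ∈ w.support) ∧ turnCost w ≤ k

end Pool.Agent.P.MP_531d8e_lc
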