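import Pool.Agent.P.MP_531d8e_lc.Walk

/-! Column convex sets of lattice points give solid grid graphs. -/

namespace Pool.Agent.P.MP_531d8e_lc

open Set

variable {V : Finset (ℤ × ℤ)}

theorem mem_drawing {z : ℝ × ℝ} : z ∈ drawing V ↔
    (∃ i j : ℤ, (i, j) ∈ V ∧ z.1 = i ∧ z.2 = j) ∨
    (∃ i j : ℤ, (i, j) ∈ V ∧ (i, j + 1) ∈ V ∧ z.1 = i ∧ j ≤ z.2 ∧ z.2 ≤ j + 1) ∨
    (∃ i j : ℤ, (i, j) ∈ V ∧ (i + 1, j) ∈ V ∧ z.2 = j ∧ i ≤ z.1 ∧ z.1 ≤ i + 1) := by
  obtain ⟨a, b⟩ := z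
  constructor
  · rintro ⟨⟨⟨u1, u2⟩, hu⟩, ⟨⟨v1, v2⟩, hv⟩, h, s, t, hs, ht, hst, e⟩
    simp only [Prod.smul_mk, smul_eq_mul, Prod.mk_add_mk, Prod.mk.injEq] at e
    obtain ⟨e1, e2⟩ := e
    obtain rfl : s = 1 - t := by linarith
    rw [adj_iff] at h
    simp only [Subtype.mk.injEq, Prod.mk.injEq, U, Prod.mk_sub_mk] at h
    rcases h with ⟨rfl, rfl⟩ | ⟨h1, h2⟩ | ⟨h1, h2⟩ | ⟨h1, h2⟩ | ⟨h1, h2⟩
    · exact Or.inl ⟨u1, u2, hu, by simp only; linarith, by simp only; linarith⟩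
    · obtain rfl : v1 = u1 + 1 := by omega
      obtain rfl : v2 = u2 := by omega
      push_cast at e1
      exact Or.inr (Or.inr ⟨u1, v2, hu, hv, by simp only; linarith, by simp only; linarith,
        by simp only; linarith⟩)
    · obtain rfl : u1 = v1 + 1 := by omega
      obtain rfl : v2 = u2 := by omega
      push_cast at e1
      exact Or.inr (Or.inr ⟨v1, v2, hv, hu, by simp only; linarith, by simp only; linarith,
        by simp only; linarith⟩)
    · obtain rfl : v2 = u2 + 1 := by omega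
      obtain rfl : v1 = u1 := by omega
      push_cast at e2
      exact Or.inr (Or.inl ⟨v1, u2, hu, hv, by simp only; linarith, by simp only; linarith,
        by simp only; linarith⟩)
    · obtain rfl : u2 = v2 + 1 := by omega
      obtain rfl : v1 = u1 := by omega
      push_cast at e2
      exact Or.inr (Or.inl ⟨v1, v2, hv, hu, by simp only; linarith, by simp only; linarith,
        by simp only; linarith⟩)
  · rintro (⟨i, j, h, e1, e2⟩ | ⟨i, j, h, h', e1, e2, e3⟩ | ⟨i, j, h, h', e1, e2, e3⟩)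
    · simp only at e1 e2
      subst e1 e2
      exact ⟨⟨_, h⟩, ⟨_, h⟩, Or.inl rfl, left_mem_segment _ _ _⟩
    · simp only at e1 e2 e3
      refine ⟨⟨_, h⟩, ⟨_, h'⟩, Or.inr ((adj_iff _ _).2 (by simp [U])), 1 - (b - j), b - j,
        by linarith, by linarith, by ring, ?_⟩
      simp only [Prod.smul_mk, smul_eq_mul, Prod.mk_add_mk, Prod.mk.injEq]
      push_cast
      constructor <;> linarith
    · simp only at e1 e2 e3
      refine ⟨⟨_, h⟩, ⟨_, h'⟩, Or.inr ((adj_iff _ _).2 (by simp [U])), 1 - (a - i), a - i,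
        by linarith, by linarith, by ring, ?_⟩
      simp only [Prod.smul_mk, smul_eq_mul, Prod.mk_add_mk, Prod.mk.injEq]
      push_cast
      constructor <;> linarith

theorem int_eq_of_near {i c : ℤ} (h1 : (c : ℝ) - 1 < i) (h2 : (i : ℝ) < c + 1) : i = c := by
  have a : c - 1 < i := by exact_mod_cast h1
  have b : i < c + 1 := by exact_mod_cast h2
  omega

theorem near_missing {z : ℝ × ℝ} (hz : z ∈ drawing V) {c : ℤ} (h1 : (c : ℝ) - 1 < z.1)
    (h2 : z.1 < c + 1) : (∃ j : ℤ, (c, j) ∈ V ∧ z.2 ≤ j) ∧ ∃ j : ℤ, (c, j) ∈ V ∧ j ≤ z.2 := by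
  rcases mem_drawing.1 hz with ⟨i, j, h, e1, e2⟩ | ⟨i, j, h, h', e1, e2, e3⟩ |
    ⟨i, j, h, h', e1, e2, e3⟩
  · obtain rfl : i = c := int_eq_of_near (by linarith) (by linarith)
    exact ⟨⟨j, h, e2.le⟩, j, h, e2.ge⟩
  · obtain rfl : i = c := int_eq_of_near (by linarith) (by linarith)
    exact ⟨⟨j + 1, h', by push_cast; exact e3⟩, j, h, e2⟩
  · have a : c - 1 < i + 1 := by
      have : (c : ℝ) - 1 < i + 1 := by linarith
      exact_mod_cast this
    have b : i < c + 1 := by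
      have : (i : ℝ) < c + 1 := by linarith
      exact_mod_cast this
    by_cases e : i = c
    · subst e; exact ⟨⟨j, h, e1.le⟩, j, h, e1.ge⟩
    · obtain rfl : c = i + 1 := by omega
      exact ⟨⟨j, h', e1.le⟩, j, h', e1.ge⟩

theorem not_bounded_of_missing {z : ℝ × ℝ} {c d : ℤ}
    (hm : (∀ j, d ≤ j → (c, j) ∉ V) ∨ (∀ j, j ≤ d → (c, j) ∉ V))
    (h1 : (c : ℝ) - 1 < z.1) (h2 : z.1 < c + 1) (h3 : (d : ℝ) - 1 < z.2) (h4 : z.2 < d + 1) :
    ¬ Bornology.IsBounded (connectedComponentIn (drawing V)ᶜ z) := by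
  intro hb
  obtain ⟨R, hR⟩ := hb.exists_norm_le
  rcases hm with hm | hm
  · have hs : Ioo ((c : ℝ) - 1) (c + 1) ×ˢ Ioi ((d : ℝ) - 1) ⊆
        connectedComponentIn (drawing V)ᶜ z := by
      refine (isPreconnected_Ioo.prod isPreconnected_Ioi).subset_connectedComponentIn
        ⟨⟨h1, h2⟩, h3⟩ ?_
      rintro w ⟨⟨a1, a2⟩, a3⟩ hw
      obtain ⟨⟨j, hj, hj'⟩, -⟩ := near_missing hw a1 a2
      have : (d : ℝ) - 1 < j := lt_of_lt_of_le a3 hj'
      have : d - 1 < j := by exact_mod_cast this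
      exact hm j (by omega) hj
    have h5 := hR _ (hs (a := ((c : ℝ), |R| + |(d : ℝ)| + 1))
      ⟨⟨by simp, by simp⟩, by
        simp only [mem_Ioi]
        have := le_abs_self (d : ℝ)
        have := abs_nonneg R
        linarith⟩)
    have h6 := norm_snd_le (((c : ℝ), |R| + |(d : ℝ)| + 1) : ℝ × ℝ)
    have h7 := le_abs_self (|R| + |(d : ℝ)| + 1)
    have := le_abs_self R
    have := abs_nonneg (d : ℝ)
    simp only [Real.norm_eq_abs] at h6
    linarith
  · have hs : Ioo ((c : ℝ) - 1) (c + 1) ×ˢ Iio ((d : ℝ) + 1) ⊆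
        connectedComponentIn (drawing V)ᶜ z := by
      refine (isPreconnected_Ioo.prod isPreconnected_Iio).subset_connectedComponentIn
        ⟨⟨h1, h2⟩, h4⟩ ?_
      rintro w ⟨⟨a1, a2⟩, a3⟩ hw
      obtain ⟨-, j, hj, hj'⟩ := near_missing hw a1 a2
      have : (j : ℝ) < d + 1 := lt_of_le_of_lt hj' a3
      have : j < d + 1 := by exact_mod_cast this
      exact hm j (by omega) hj
    have h5 := hR _ (hs (a := ((c : ℝ), -(|R| + |(d : ℝ)| + 1)))
      ⟨⟨by simp, by simp⟩, by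
        simp only [mem_Iio]
        have := neg_abs_le (d : ℝ)
        have := abs_nonneg R
        linarith⟩)
    have h6 := norm_snd_le (((c : ℝ), -(|R| + |(d : ℝ)| + 1)) : ℝ × ℝ)
    have h7 := le_abs_self (|R| + |(d : ℝ)| + 1)
    have := le_abs_self R
    have := abs_nonneg (d : ℝ)
    simp only [Real.norm_eq_abs, abs_neg] at h6
    linarith

theorem solid_of_rays
    (hV : ∀ c d, (c, d) ∉ V → (∀ j, d ≤ j → (c, j) ∉ V) ∨ (∀ j, j ≤ d → (c, j) ∉ V)) :
    Solid V := by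
  intro z hz hb
  set i := ⌊z.1⌋ with hi
  set j := ⌊z.2⌋ with hj
  have i1 : (i : ℝ) ≤ z.1 := Int.floor_le _
  have i2 : z.1 < i + 1 := Int.lt_floor_add_one _
  have j1 : (j : ℝ) ≤ z.2 := Int.floor_le _
  have j2 : z.2 < j + 1 := Int.lt_floor_add_one _
  have key : ∀ c d : ℤ, (c : ℝ) - 1 < z.1 → z.1 < c + 1 → (d : ℝ) - 1 < z.2 → z.2 < d + 1 →
      (c, d) ∈ V := by
    intro c d h1 h2 h3 h4
    by_contra h
    exact not_bounded_of_missing (hV c d h) h1 h2 h3 h4 hb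
  have c00 : (i, j) ∈ V := key _ _ (by linarith) i2 (by linarith) j2
  have i3 : (i : ℝ) < z.1 := by
    refine lt_of_le_of_ne i1 fun e => hz (mem_drawing.2 ?_)
    by_cases e' : (j : ℝ) = z.2
    · exact Or.inl ⟨i, j, c00, e.symm, e'.symm⟩
    · have : (j : ℝ) < z.2 := lt_of_le_of_ne j1 e'
      exact Or.inr (Or.inl ⟨i, j, c00, key _ _ (by linarith) i2 (by push_cast; linarith)
        (by push_cast; linarith), e.symm, j1, j2.le⟩)
  have c10 : (i + 1, j) ∈ V :=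
    key _ _ (by push_cast; linarith) (by push_cast; linarith) (by linarith) j2
  have j3 : (j : ℝ) < z.2 := by
    refine lt_of_le_of_ne j1 fun e => hz (mem_drawing.2 ?_)
    exact Or.inr (Or.inr ⟨i, j, c00, c10, e.symm, i1, i2.le⟩)
  have c01 : (i, j + 1) ∈ V :=
    key _ _ (by linarith) i2 (by push_cast; linarith) (by push_cast; linarith)
  have c11 : (i + 1, j + 1) ∈ V :=
    key _ _ (by push_cast; linarith) (by push_cast; linarith) (by push_cast; linarith)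
      (by push_cast; linarith)
  have hzS : z ∈ Ioo (i : ℝ) (i + 1) ×ˢ Ioo (j : ℝ) (j + 1) := ⟨⟨i3, i2⟩, j3, j2⟩
  have noint : ∀ (a k : ℤ), (a : ℝ) < k → (k : ℝ) < a + 1 → False := by
    intro a k h1 h2
    have a1 : a < k := by exact_mod_cast h1
    have a2 : k < a + 1 := by exact_mod_cast h2
    omega
  refine ⟨i, j, Subset.antisymm ?_ ?_⟩
  · refine isPreconnected_connectedComponentIn.subset_left_of_subset_union
      (v := (Icc (i : ℝ) (i + 1) ×ˢ Icc (j : ℝ) (j + 1))ᶜ) (isOpen_Ioo.prod isOpen_Ioo)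
      (isClosed_Icc.prod isClosed_Icc).isOpen_compl ?_ ?_
      ⟨z, mem_connectedComponentIn hz, hzS⟩
    · exact disjoint_compl_right.mono_left (prod_mono Ioo_subset_Icc_self Ioo_subset_Icc_self)
    · intro w hw
      have hw' : w ∉ drawing V := connectedComponentIn_subset _ _ hw
      by_contra hn
      simp only [mem_union, mem_compl_iff, not_or, not_not] at hn
      obtain ⟨hn, ⟨a1, a2⟩, b1, b2⟩ := hn
      apply hw'
      rw [mem_drawing]
      by_cases e1 : w.1 = i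
      · exact Or.inr (Or.inl ⟨i, j, c00, c01, e1, b1, b2⟩)
      by_cases e2 : w.1 = i + 1
      · exact Or.inr (Or.inl ⟨i + 1, j, c10, c11, by push_cast; exact e2, b1, b2⟩)
      by_cases e3 : w.2 = j
      · exact Or.inr (Or.inr ⟨i, j, c00, c10, e3, a1, a2⟩)
      by_cases e4 : w.2 = j + 1
      · exact Or.inr (Or.inr ⟨i, j + 1, c01, c11, by push_cast; exact e4, a1, a2⟩)
      exact absurd ⟨⟨lt_of_le_of_ne a1 (Ne.symm e1), lt_of_le_of_ne a2 e2⟩,
        lt_of_le_of_ne b1 (Ne.symm e3), lt_of_le_of_ne b2 e4⟩ hn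
  · refine (isPreconnected_Ioo.prod isPreconnected_Ioo).subset_connectedComponentIn hzS ?_
    rintro w ⟨⟨a1, a2⟩, b1, b2⟩ hw
    rcases mem_drawing.1 hw with ⟨a, b, -, e1, -⟩ | ⟨a, b, -, -, e1, -⟩ | ⟨a, b, -, -, e1, -⟩
    · exact noint i a (e1 ▸ a1) (e1 ▸ a2)
    · exact noint i a (e1 ▸ a1) (e1 ▸ a2)
    · exact noint j b (e1 ▸ b1) (e1 ▸ b2)

theorem connected_of_descent (v₀ : ℤ × ℤ) (h₀ : v₀ ∈ V) (φ : ℤ × ℤ → ℕ)
    (h : ∀ v ∈ V, v ≠ v₀ → ∃ u ∈ V, U (u - v) ∧ φ u < φ v) : (gridGraph V).Connected := by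
  have key : ∀ n, ∀ v : V, φ v.1 < n → (gridGraph V).Reachable v ⟨v₀, h₀⟩ := by
    intro n
    induction n with
    | zero => intro v hv; omega
    | succ n ih =>
      intro v hv
      by_cases e : v.1 = v₀
      · rw [show v = ⟨v₀, h₀⟩ from Subtype.ext e]
      · obtain ⟨u, hu, h1, h2⟩ := h v.1 v.2 e
        exact ((adj_iff v ⟨u, hu⟩).2 h1).reachable.trans (ih ⟨u, hu⟩ (by simp only; omega))
  have : Nonempty V := ⟨⟨v₀, h₀⟩⟩
  exact ⟨fun a b => (key _ a (Nat.lt_succ_self _)).trans (key _ b (Nat.lt_succ_self _)).symm⟩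

end Pool.Agent.P.MP_531d8e_lc
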