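import Pool.Agent.P.MP_531d8e_lc.Sat
import Pool.Agent.P.MP_531d8e_lc.Solid
import Pool.Agent.Lib.PolyTime.Cook

/-! The reduction from satisfiability. -/

namespace Pool.Agent.P.MP_531d8e_lc

open Pool.Agent.Lib.PolyTime N68a2faeb

def cells (h : ℕ) (P : List Tile) : List (ℤ × ℤ) :=
  (List.range (P.length * (2 * h) + h)).flatMap fun X =>
    ((List.range (P.length * (2 * h) + h)).filter fun Y =>
      decide (Cell (P.length * (2 * h)) h (tpP h P) (spP h P) X Y)).map
        fun Y : ℕ => ((X : ℤ), (Y : ℤ))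

def bud (h : ℕ) (P : List Tile) : ℕ :=
  2 * (P.length * (2 * h) + h) + 2 * ((List.range (P.length * (2 * h) + h)).map fun X =>
    if X < P.length * (2 * h) ∧ spP h P X = true then 1 else 0).sum

theorem bud_eq (h : ℕ) (P : List Tile) : bud h P = budget (P.length * (2 * h)) h (spP h P) := rfl

theorem mem_cells {h : ℕ} {P : List Tile} {st : ℕ → ℕ}
    (L : Lay (P.length * (2 * h)) h st (tpP h P) (spP h P)) (c : ℤ × ℤ) :
    c ∈ (cells h P).toFinset ↔ ∃ X Y : ℕ, c = ((X : ℤ), (Y : ℤ)) ∧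
      Cell (P.length * (2 * h)) h (tpP h P) (spP h P) X Y := by
  simp only [cells, List.mem_toFinset, List.mem_flatMap, List.mem_range, List.mem_map,
    List.mem_filter, decide_eq_true_eq]
  constructor
  · rintro ⟨X, -, Y, ⟨-, h⟩, rfl⟩
    exact ⟨X, Y, rfl, h⟩
  · rintro ⟨X, Y, rfl, h⟩
    exact ⟨X, (L.bound X Y h).1, Y, ⟨(L.bound X Y h).2, h⟩, rfl⟩

variable {n h : ℕ} {st tp : ℕ → ℕ} {sp : ℕ → Bool} {V : Finset (ℤ × ℤ)}

theorem region_solid (hV : ∀ c, c ∈ V ↔ ∃ X Y : ℕ, c = ((X : ℤ), (Y : ℤ)) ∧ Cell n h tp sp X Y) :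
    Solid V := by
  refine solid_of_rays fun c d hcd => ?_
  by_contra hn
  push Not at hn
  obtain ⟨⟨j, h1, h2⟩, j', h3, h4⟩ := hn
  obtain ⟨X, Y, e, hc⟩ := (hV _).1 h2
  obtain ⟨X', Y', e', hc'⟩ := (hV _).1 h4
  simp only [Prod.mk.injEq] at e e'
  obtain rfl : X = X' := by omega
  refine hcd ((hV _).2 ⟨X, d.toNat, by simp only [Prod.mk.injEq]; omega, ?_⟩)
  unfold Cell at *
  omega

theorem region_connected (L : Lay n h st tp sp)
    (hV : ∀ c, c ∈ V ↔ ∃ X Y : ℕ, c = ((X : ℤ), (Y : ℤ)) ∧ Cell n h tp sp X Y) :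
    (gridGraph V).Connected := by
  have hh := L.hpos
  have hn := L.hn
  refine connected_of_descent ((h - 1 : ℕ), (0 : ℕ)) ((hV _).2 ⟨_, _, rfl, by unfold Cell; omega⟩)
    (fun c => c.2.toNat + (c.1 - (h - 1 : ℕ)).natAbs) fun v hv hne => ?_
  obtain ⟨X, Y, rfl, hc⟩ := (hV _).1 hv
  simp only [ne_eq, Prod.mk.injEq, Nat.cast_inj] at hne
  unfold Cell at hc
  by_cases c1 : h ≤ X + Y ∧ X + 1 ≤ Y + h ∧ 0 < Y
  · refine ⟨_, (hV _).2 ⟨X, Y - 1, rfl, by unfold Cell; omega⟩, ?_, ?_⟩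
    · simp only [U, Prod.mk_sub_mk, Prod.mk.injEq]; omega
    · simp only; omega
  by_cases c2 : h ≤ X
  · have := L.le (X - 1)
    refine ⟨_, (hV _).2 ⟨X - 1, Y, rfl, by unfold Cell; omega⟩, ?_, ?_⟩
    · simp only [U, Prod.mk_sub_mk, Prod.mk.injEq]; omega
    · simp only; omega
  · refine ⟨_, (hV _).2 ⟨X + 1, Y, rfl, by unfold Cell; omega⟩, ?_, ?_⟩
    · simp only [U, Prod.mk_sub_mk, Prod.mk.injEq]; omega
    · simp only; omega

def vrs (φ : CNF) : List ℕ := φ.flatten.map Prod.fst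

def occ (φ : CNF) (v : ℕ) (s : Bool) (c : ℕ) : Bool :=
  decide (((vrs φ).getD v 0, s) ∈ φ.getD c [] ∧ ¬ (vrs φ).getD v 0 ∈ (vrs φ).take v)

theorem idxOf_eq_of {l : List ℕ} {v : ℕ} (hv : v < l.length) (h : ¬ l.getD v 0 ∈ l.take v) :
    l.idxOf (l.getD v 0) = v := by
  rw [List.getD_eq_getElem _ _ hv] at h ⊢
  have h1 : l.idxOf l[v] < l.length := List.idxOf_lt_length_of_mem (List.getElem_mem _)
  have h2 := List.getElem_idxOf h1
  rcases lt_trichotomy (l.idxOf l[v]) v with c | c | c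
  · exact absurd (List.mem_take_iff_getElem.2 ⟨l.idxOf l[v], by omega, h2⟩) h
  · exact c
  · have := List.not_of_lt_findIdx (p := (· == l[v])) (xs := l) c
    simp at this

theorem not_mem_take_idxOf {l : List ℕ} (x : ℕ) : ¬ x ∈ l.take (l.idxOf x) := by
  intro h
  obtain ⟨i, hi, e⟩ := List.mem_take_iff_getElem.1 h
  have := List.not_of_lt_findIdx (p := (· == x)) (xs := l) (i := i) (by
    change i < l.idxOf x
    omega)
  simp [e] at this

theorem sat_iff (φ : CNF) : φ.Sat ↔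
    ∃ a : ℕ → Bool, ∀ c < φ.length, ∃ v < (vrs φ).length, occ φ v (a v) c = true := by
  constructor
  · rintro ⟨val, hval⟩
    refine ⟨fun v => val ((vrs φ).getD v 0), fun c hc => ?_⟩
    obtain ⟨l, hl, e⟩ := hval _ (List.getElem_mem hc)
    have h1 : l.1 ∈ vrs φ :=
      List.mem_map_of_mem (List.mem_flatten.2 ⟨_, List.getElem_mem hc, hl⟩)
    have h2 := List.idxOf_lt_length_of_mem h1
    have h3 : (vrs φ).getD ((vrs φ).idxOf l.1) 0 = l.1 := by
      rw [List.getD_eq_getElem _ _ h2, List.getElem_idxOf h2]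
    refine ⟨_, h2, ?_⟩
    simp only [occ, h3, e, decide_eq_true_eq, List.getD_eq_getElem _ _ hc]
    exact ⟨hl, not_mem_take_idxOf _⟩
  · rintro ⟨a, ha⟩
    refine ⟨fun x => a ((vrs φ).idxOf x), fun c hc => ?_⟩
    obtain ⟨i, hi, rfl⟩ := List.getElem_of_mem hc
    obtain ⟨v, hv, e⟩ := ha i hi
    simp only [occ, decide_eq_true_eq, List.getD_eq_getElem _ _ hi] at e
    exact ⟨_, e.1, by simp only [idxOf_eq_of hv e.2]⟩

theorem pos_of_vrs (φ : CNF) (h : 0 < (vrs φ).length) : 0 < φ.length := by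
  cases φ with
  | nil => simp [vrs] at h
  | cons c φ => simp

def hOf (φ : CNF) : ℕ := base φ.length (vrs φ).length

def pOf (φ : CNF) : List Tile := prog φ.length (vrs φ).length (occ φ)

def red (φ : CNF) : List (ℤ × ℤ) × ℕ := (cells (hOf φ) (pOf φ), bud (hOf φ) (pOf φ))

theorem red_spec (φ : CNF) : (gridGraph (red φ).1.toFinset).Connected ∧
    Solid (red φ).1.toFinset ∧ (φ.Sat ↔ HasTour (red φ).1.toFinset (red φ).2) := by
  have hh : 0 < hOf φ := by have := lt_base φ.length (vrs φ).length; unfold hOf; omega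
  have hP0 : 0 < (pOf φ).length := by simp [pOf, prog]
  have hP := prog_ok (pos_of_vrs φ) (occ φ)
  have L := lay hh hP0 hP
  refine ⟨region_connected L (mem_cells L), region_solid (mem_cells L), ?_⟩
  rw [sat_iff, ← good_prog (pos_of_vrs φ)]
  exact (tour_iff_good hh hP0 hP (mem_cells L)).symm

section
variable {α : Type} [N487b59b3 α]

@[fun_prop] theorem pt_vrs {f : α → CNF} (hf : PT f) : PT fun a => vrs (f a) := by
  unfold vrs; fun_prop

@[fun_prop] theorem pt_occ {f : α → CNF} {v c : α → ℕ} {s : α → Bool} (hf : PT f) (hv : PT v)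
    (hs : PT s) (hc : PT c) : PT fun a => occ (f a) (v a) (s a) (c a) := by
  unfold occ; fun_prop

@[fun_prop] theorem pt_base {m v : α → ℕ} (hm : PT m) (hv : PT v) :
    PT fun a => base (m a) (v a) := by
  unfold base; fun_prop

theorem pt_pOf : PT pOf := by
  unfold pOf prog pairs varP meet tg
  fun_prop

theorem pt_hOf : PT hOf := by
  unfold hOf; fun_prop

theorem small_hOf : Small hOf := by
  unfold hOf base; fun_prop

@[fun_prop] theorem pt_tile {P : α → List Tile} {i : α → ℕ} (hP : PT P) (hi : PT i) :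
    PT fun a => tile (P a) (i a) := by
  unfold tile; fun_prop

@[fun_prop] theorem pt_tpP {P : α → List Tile} {h X : α → ℕ} (hh : PT h) (hP : PT P) (hX : PT X) :
    PT fun a => tpP (h a) (P a) (X a) := by
  unfold tpP; fun_prop

@[fun_prop] theorem pt_spP {P : α → List Tile} {h X : α → ℕ} (hh : PT h) (hP : PT P) (hX : PT X) :
    PT fun a => spP (h a) (P a) (X a) := by
  unfold spP; fun_prop

theorem pt_red : PT red := by
  have h1 := pt_pOf
  have h2 := pt_hOf
  have h3 := small_hOf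
  unfold red cells bud Cell
  fun_prop

end

theorem main (L : DecisionProblem) (hL : L ∈ NP) :
    ∃ f : List Bool → List (ℤ × ℤ) × ℕ, IsPolyTime f ∧ ∀ x,
      (gridGraph (f x).1.toFinset).Connected ∧ Solid (f x).1.toFinset ∧
        (L x = true ↔ HasTour (f x).1.toFinset (f x).2) := by
  obtain ⟨g, hg, h⟩ := cook hL
  refine ⟨fun x => red (g x), (pt_red.comp hg).isPolyTime, fun x => ?_⟩
  rw [h]
  exact red_spec (g x)

end Pool.Agent.P.MP_531d8e_lc
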