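import Pool.Agent.P.MP_531d8e_lc.Complete

/-! Regions described by lists of tiles, one tile per round. -/

namespace Pool.Agent.P.MP_531d8e_lc

open Finset

/-- Position, size, and whether there is a spike. -/
abbrev Tile := ℕ × ℕ × Bool

/-- The permutation of positions performed by a tile in state `r`. -/
def act (T : Tile) (r q : ℕ) : ℕ :=
  if q < T.1 ∨ T.1 + T.2.1 ≤ q then q else if q = T.1 then T.1 + r
  else if T.1 + r < 2 * T.1 + T.2.1 - q then 2 * T.1 + T.2.1 - q else 2 * T.1 + T.2.1 - 1 - q

def OK (T : Tile) (r : ℕ) : Prop := r < T.2.1 ∧ (T.2.2 = false → r + 1 = T.2.1)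

def TileOK (h : ℕ) (T : Tile) : Prop := 1 ≤ T.2.1 ∧ T.1 + T.2.1 ≤ h ∧ (T.2.2 = true → 2 ≤ T.2.1)

def run : List (Tile × ℕ) → ℕ → ℕ
  | [], q => q
  | x :: l, q => run l (act x.1 x.2 q)

/-- Some choice of states makes the composite permutation transitive. -/
def Good (h : ℕ) (P : List Tile) : Prop :=
  ∃ l : List (Tile × ℕ), l.map Prod.fst = P ∧ (∀ x ∈ l, OK x.1 x.2) ∧
    ∀ S : ℕ → Prop, (∀ q < h, S (run l q) ↔ S q) → ∀ q < h, (S q ↔ S 0)

def tile (P : List Tile) (i : ℕ) : Tile := P.getD i (0, 1, false)

def stP (h : ℕ) (P : List Tile) (X : ℕ) : ℕ :=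
  if (tile P (X / (2 * h))).1 ≤ X % (2 * h) ∧
      X % (2 * h) < (tile P (X / (2 * h))).1 + (tile P (X / (2 * h))).2.1
  then X - X % (2 * h) + (tile P (X / (2 * h))).1 else X

def tpP (h : ℕ) (P : List Tile) (X : ℕ) : ℕ :=
  if (tile P (X / (2 * h))).1 ≤ X % (2 * h) ∧
      X % (2 * h) < (tile P (X / (2 * h))).1 + (tile P (X / (2 * h))).2.1
  then X - X % (2 * h) + (tile P (X / (2 * h))).1 + (tile P (X / (2 * h))).2.1 - 1 else X

def spP (h : ℕ) (P : List Tile) (X : ℕ) : Bool :=
  (tile P (X / (2 * h))).2.2 && decide (X % (2 * h) = (tile P (X / (2 * h))).1)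

theorem act_lt {h : ℕ} {T : Tile} {r q : ℕ} (hT : TileOK h T) (hr : OK T r) (hq : q < h) :
    act T r q < h := by
  unfold act; unfold TileOK at hT; unfold OK at hr
  split_ifs <;> omega

theorem act_of_ge {h : ℕ} {T : Tile} {r q : ℕ} (hT : TileOK h T) (hq : h ≤ q) :
    act T r q = q := by
  unfold act; unfold TileOK at hT
  split_ifs <;> omega

theorem run_lt {h : ℕ} {l : List (Tile × ℕ)} (hl : ∀ x ∈ l, TileOK h x.1 ∧ OK x.1 x.2) :
    ∀ {q : ℕ}, q < h → run l q < h := by
  induction l with
  | nil => intro q hq; exact hq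
  | cons x l ih =>
    intro q hq
    exact ih (fun y hy => hl y (by simp [hy]))
      (act_lt (hl x (by simp)).1 (hl x (by simp)).2 hq)

theorem act_of_anti {T : Tile} (f : ℕ → ℕ) (hk : 1 ≤ T.2.1)
    (h1 : ∀ q, T.1 ≤ q → q < T.1 + T.2.1 → T.1 ≤ f q ∧ f q < T.1 + T.2.1)
    (h2 : ∀ q, T.1 < q → q < T.1 + T.2.1 → f q ≠ f T.1)
    (h3 : ∀ q q', T.1 ≤ q → q < q' → q' < T.1 + T.2.1 → (q ≠ T.1 ∨ T.2.2 = false) → f q' < f q) :
    OK T (f T.1 - T.1) ∧ ∀ q, T.1 ≤ q → q < T.1 + T.2.1 → f q = act T (f T.1 - T.1) q := by
  obtain ⟨p, k, b⟩ := T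
  simp only at *
  have h0 := h1 p le_rfl (by omega)
  have up : ∀ i, p + 1 + i < p + k →
      (if f p < f (p + 1 + i) then f (p + 1 + i) - 1 else f (p + 1 + i)) + i + 2 ≤ p + k := by
    intro i
    induction i with
    | zero =>
      intro hi
      have := h1 (p + 1 + 0) (by omega) hi
      have := h2 (p + 1 + 0) (by omega) hi
      split_ifs <;> omega
    | succ i ih =>
      intro hi
      have := ih (by omega)
      have := h2 (p + 1 + i) (by omega) (by omega)
      have := h2 (p + 1 + (i + 1)) (by omega) hi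
      have := h3 (p + 1 + i) (p + 1 + (i + 1)) (by omega) (by omega) hi (by omega)
      split_ifs at * <;> omega
  have dn : ∀ i q, q + i + 1 = p + k → p < q → p + i ≤ (if f p < f q then f q - 1 else f q) := by
    intro i
    induction i with
    | zero =>
      intro q hq hq'
      have := h1 q (by omega) (by omega)
      split_ifs <;> omega
    | succ i ih =>
      intro q hq hq'
      have := ih (q + 1) (by omega) (by omega)
      have := h2 q (by omega) (by omega)
      have := h2 (q + 1) (by omega) (by omega)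
      have := h3 q (q + 1) (by omega) (by omega) (by omega) (by omega)
      split_ifs at * <;> omega
  refine ⟨⟨by simp only; omega, fun hb => ?_⟩, fun q hq hq' => ?_⟩
  · simp only at hb ⊢
    by_cases hk' : k = 1
    · omega
    · have := dn (k - 2) (p + 1) (by omega) (by omega)
      have := h3 p (p + 1) le_rfl (by omega) (by omega) (Or.inr hb)
      split_ifs at * <;> omega
  · unfold act
    by_cases e : q = p
    · subst e; simp only; split_ifs <;> omega
    · have a1 := up (q - p - 1) (by omega)
      have a2 := dn (p + k - 1 - q) q (by omega) (by omega)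
      have := h2 q (by omega) hq'
      rw [show p + 1 + (q - p - 1) = q by omega] at a1
      simp only
      split_ifs at * <;> omega

theorem dm {w : ℕ} (i : ℕ) {q : ℕ} (hq : q < w) : (i * w + q) / w = i ∧ (i * w + q) % w = q := by
  constructor
  · rw [add_comm, Nat.add_mul_div_right _ _ (by omega), Nat.div_eq_of_lt hq, zero_add]
  · rw [add_comm, Nat.add_mul_mod_self_right, Nat.mod_eq_of_lt hq]

theorem exists_dm {w R X : ℕ} (hw : 0 < w) (hX : X < R * w) :
    ∃ i q, i < R ∧ q < w ∧ X = i * w + q ∧ i * w + w ≤ R * w := by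
  have h1 : X / w < R := by rwa [Nat.div_lt_iff_lt_mul hw]
  refine ⟨X / w, X % w, h1, Nat.mod_lt _ hw, (Nat.div_add_mod' X w).symm, ?_⟩
  calc X / w * w + w = (X / w + 1) * w := by ring
    _ ≤ R * w := Nat.mul_le_mul_right _ h1

variable {h : ℕ} {P : List Tile}

theorem stP_eq (i : ℕ) {q : ℕ} (hq : q < 2 * h) : stP h P (i * (2 * h) + q) =
    if (tile P i).1 ≤ q ∧ q < (tile P i).1 + (tile P i).2.1 then i * (2 * h) + (tile P i).1
    else i * (2 * h) + q := by
  simp only [stP, (dm i hq).1, (dm i hq).2, Nat.add_sub_cancel]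

theorem tpP_eq (i : ℕ) {q : ℕ} (hq : q < 2 * h) : tpP h P (i * (2 * h) + q) =
    if (tile P i).1 ≤ q ∧ q < (tile P i).1 + (tile P i).2.1
    then i * (2 * h) + (tile P i).1 + (tile P i).2.1 - 1 else i * (2 * h) + q := by
  simp only [tpP, (dm i hq).1, (dm i hq).2, Nat.add_sub_cancel]

theorem spP_eq (i : ℕ) {q : ℕ} (hq : q < 2 * h) : spP h P (i * (2 * h) + q) = true ↔
    (tile P i).2.2 = true ∧ q = (tile P i).1 := by
  simp [spP, (dm i hq).1, (dm i hq).2]

theorem tile_ok (hP : ∀ T ∈ P, TileOK h T) {i : ℕ} (hi : i < P.length) : TileOK h (tile P i) := by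
  unfold tile
  rw [List.getD_eq_getElem _ _ hi]
  exact hP _ (List.getElem_mem _)

theorem lay (hh : 0 < h) (hP0 : 0 < P.length) (hP : ∀ T ∈ P, TileOK h T) :
    Lay (P.length * (2 * h)) h (stP h P) (tpP h P) (spP h P) := by
  refine ⟨hh, Nat.le_mul_of_pos_left _ hP0, fun X hX => ?_, fun X hX X' h1 h2 => ?_,
    fun X hX hs => ?_⟩
  · obtain ⟨i, q, hi, hq, rfl, hle⟩ := exists_dm (by omega) hX
    have := tile_ok hP hi
    unfold TileOK at this
    rw [stP_eq i hq, tpP_eq i hq]
    split_ifs <;> omega
  · obtain ⟨i, q, hi, hq, rfl, hle⟩ := exists_dm (by omega) hX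
    have := tile_ok hP hi
    unfold TileOK at this
    rw [stP_eq i hq] at h1 ⊢
    rw [tpP_eq i hq] at h2 ⊢
    obtain ⟨q', rfl⟩ : ∃ q', X' = i * (2 * h) + q' :=
      ⟨X' - i * (2 * h), by split_ifs at h1 <;> omega⟩
    have hq' : q' < 2 * h := by split_ifs at h2 <;> omega
    rw [stP_eq i hq', tpP_eq i hq']
    split_ifs at * <;> omega
  · obtain ⟨i, q, hi, hq, rfl, hle⟩ := exists_dm (by omega) hX
    have := tile_ok hP hi
    unfold TileOK at this
    rw [spP_eq i hq] at hs
    have := this.2.2 hs.1
    rw [stP_eq i hq, tpP_eq i hq]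
    split_ifs <;> omega

theorem run_drop {l : List (Tile × ℕ)} {i : ℕ} (hi : i < l.length) (q : ℕ) :
    run (l.drop i) q = run (l.drop (i + 1)) (act l[i].1 l[i].2 q) := by
  rw [List.drop_eq_getElem_cons hi]; rfl

theorem tour_iff_good (hh : 0 < h) (hP0 : 0 < P.length) (hP : ∀ T ∈ P, TileOK h T)
    {V : Finset (ℤ × ℤ)} (hV : ∀ c, c ∈ V ↔ ∃ X Y : ℕ, c = ((X : ℤ), (Y : ℤ)) ∧
      Cell (P.length * (2 * h)) h (tpP h P) (spP h P) X Y) :
    HasTour V (budget (P.length * (2 * h)) h (spP h P)) ↔ Good h P := by
  have L := lay hh hP0 hP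
  have hn := L.hn
  constructor
  · intro ht
    obtain ⟨T, D⟩ := td_of_hasTour hV L.bound ⟨_, (hV _).2 ⟨h - 1, 0, rfl, by unfold Cell; omega⟩,
      _, (hV _).2 ⟨h, 0, rfl, by unfold Cell; omega⟩, by simp; omega⟩ ht
    obtain ⟨μ, A, H⟩ := sound L D
    let r : ℕ → ℕ := fun i => μ (i * (2 * h) + (tile P i).1) - i * (2 * h) - (tile P i).1
    have key : ∀ i < P.length, OK (tile P i) (r i) ∧
        ∀ q < 2 * h, μ (i * (2 * h) + q) = i * (2 * h) + act (tile P i) (r i) q := by
      intro i hi
      have hT := tile_ok hP hi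
      unfold TileOK at hT
      have hle : i * (2 * h) + 2 * h ≤ P.length * (2 * h) := by
        calc i * (2 * h) + 2 * h = (i + 1) * (2 * h) := by ring
          _ ≤ _ := Nat.mul_le_mul_right _ hi
      have hb : ∀ q < 2 * h, _ := fun q hq => by
        have := A.le (i * (2 * h) + q) (by omega)
        rw [stP_eq i hq, tpP_eq i hq] at this
        exact this
      refine (fun a => ?_ : _ → _) (act_of_anti (T := tile P i)
        (fun q => μ (i * (2 * h) + q) - i * (2 * h))
        hT.1 (fun q h1 h2 => ?_) (fun q h1 h2 => ?_) (fun q q' h1 h2 h3 h4 => ?_))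
      · obtain ⟨a1, a2⟩ := a
        refine ⟨a1, fun q hq => ?_⟩
        have b1 := hb q hq
        by_cases c : (tile P i).1 ≤ q ∧ q < (tile P i).1 + (tile P i).2.1
        · have := a2 q c.1 c.2
          simp only [r]
          split_ifs at b1 <;> omega
        · unfold act
          split_ifs at b1 ⊢ <;> omega
      · have := hb q (by omega)
        split_ifs at this <;> omega
      · have b1 := hb q (by omega)
        have b2 := hb (tile P i).1 (by omega)
        have := A.inj (i * (2 * h) + q) (by omega) (i * (2 * h) + (tile P i).1) (by omega)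
        split_ifs at b1 b2 <;> omega
      · have b1 := hb q (by omega)
        have b2 := hb q' (by omega)
        have := A.anti (i * (2 * h) + q) (by omega) (i * (2 * h) + q') (by omega)
          (by rw [tpP_eq i (by omega), if_pos (by omega)]; omega)
          (by
            rw [← Bool.not_eq_true, spP_eq i (by omega)]
            rintro ⟨e1, e2⟩
            rcases h4 with h4 | h4
            · exact h4 e2
            · simp [h4] at e1)
        split_ifs at b1 b2 <;> omega
    let l : List (Tile × ℕ) := (List.range P.length).map fun i => (tile P i, r i)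
    have hl : l.length = P.length := by simp [l]
    refine ⟨l, ?_, ?_, fun S hS => ?_⟩
    · refine List.ext_getElem (by simp [l]) fun i h1 h2 => ?_
      simp [l, tile, h2]
    · intro x hx
      obtain ⟨i, hi, rfl⟩ := List.mem_map.1 hx
      exact (key i (List.mem_range.1 hi)).1
    · let W : ℕ → Prop := fun Z => if Z % (2 * h) < h then S (run (l.drop (Z / (2 * h))) (Z % (2 * h)))
        else S (2 * h - 1 - Z % (2 * h))
      have hW : ∀ i, ∀ q < 2 * h, W (i * (2 * h) + q) ↔
          if q < h then S (run (l.drop i) q) else S (2 * h - 1 - q) := by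
        intro i q hq
        simp only [W, (dm i hq).1, (dm i hq).2]
      have hW0 : ∀ q < h, W q ↔ S q := by
        intro q hq
        have := hW 0 q (by omega)
        rw [zero_mul, zero_add, if_pos hq, List.drop_zero, hS q hq] at this
        exact this
      intro q hq
      rw [← hW0 q hq, ← hW0 0 hh]
      refine H W (fun X hX => ?_) (fun X hX => ?_) (fun q hq => ?_) q hq
      · obtain ⟨i, q, hi, hq, rfl, hle⟩ := exists_dm (by omega) hX
        obtain ⟨k1, k2⟩ := key i hi
        have hT := tile_ok hP hi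
        rw [k2 q hq, show i * (2 * h) + act (tile P i) (r i) q + 2 * h =
          (i + 1) * (2 * h) + act (tile P i) (r i) q by ring, hW i q hq]
        by_cases c : q < h
        · have := act_lt hT k1 c
          rw [hW _ _ (by omega), if_pos this, if_pos c, run_drop (i := i) (by omega)]
          simp [l]
        · rw [act_of_ge hT (by omega), hW _ _ hq, if_neg c, if_neg c]
      · have := hW 0 (2 * h - 1 - X) (by omega)
        rw [zero_mul, zero_add, if_neg (by omega)] at this
        rw [this, hW0 X hX, show 2 * h - 1 - (2 * h - 1 - X) = X by omega]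
      · rw [show P.length * (2 * h) + 2 * h - 1 - q = P.length * (2 * h) + (2 * h - 1 - q) by omega,
          hW _ _ (by omega), hW _ _ (by omega), if_pos hq, if_neg (by omega), ← hl, List.drop_length,
          show 2 * h - 1 - (2 * h - 1 - q) = q by omega]
        rfl
  · rintro ⟨l, hlP, hok, hS⟩
    have hl : l.length = P.length := by rw [← hlP]; simp
    let r : ℕ → ℕ := fun i => (l.getD i ((0, 1, false), 0)).2
    have hget : ∀ i (hi : i < l.length), l[i].1 = tile P i ∧ l[i].2 = r i := by
      intro i hi
      subst hlP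
      simp [tile, r, hi]
    have hr : ∀ i < P.length, OK (tile P i) (r i) := by
      intro i hi
      have := hok _ (List.getElem_mem (show i < l.length by omega))
      rwa [(hget i _).1, (hget i _).2] at this
    let μ : ℕ → ℕ := fun X => X / (2 * h) * (2 * h) +
      act (tile P (X / (2 * h))) (r (X / (2 * h))) (X % (2 * h))
    have hμ : ∀ i, ∀ q < 2 * h, μ (i * (2 * h) + q) = i * (2 * h) + act (tile P i) (r i) q := by
      intro i q hq
      simp only [μ, (dm i hq).1, (dm i hq).2]
    have hle : ∀ X < P.length * (2 * h), stP h P X ≤ μ X ∧ μ X ≤ tpP h P X := by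
      intro X hX
      obtain ⟨i, q, hi, hq, rfl, hle⟩ := exists_dm (by omega) hX
      have := hr i hi
      unfold OK at this
      rw [stP_eq i hq, tpP_eq i hq, hμ i q hq, act]
      split_ifs <;> omega
    refine complete L (μ := μ) ⟨hle, fun X hX X' hX' e => ?_, fun X hX X' h1 h2 hs => ?_⟩
      (fun Z => decide (Z % (2 * h) < h)) (fun Z => by simp) (fun Z hZ => ?_) (fun Z h1 h2 => ?_)
      (fun q => by simp) (fun X hX e => ?_) (fun W w1 w2 w3 => ?_) hV
    · have l1 := L.le X hX
      have l2 := L.le X' hX'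
      have l3 := hle X hX
      have l4 := hle X' hX'
      have l5 := L.same X hX (μ X) l3.1 l3.2
      have l6 := L.same X' hX' (μ X') l4.1 l4.2
      have l7 : stP h P X' = stP h P X ∧ tpP h P X' = tpP h P X := by rw [e] at l5; omega
      obtain ⟨i, q, hi, hq, rfl, hle⟩ := exists_dm (by omega) hX
      have hT := tile_ok hP hi
      have := hr i hi
      unfold OK at this
      unfold TileOK at hT
      rw [stP_eq i hq, tpP_eq i hq] at l7
      obtain ⟨q', rfl⟩ : ∃ q', X' = i * (2 * h) + q' :=
        ⟨X' - i * (2 * h), by split_ifs at l7 <;> omega⟩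
      have hq' : q' < 2 * h := by split_ifs at l7 <;> omega
      rw [hμ i q hq, hμ i q' hq', act, act] at e
      split_ifs at e <;> omega
    · obtain ⟨i, q, hi, hq, rfl, hle⟩ := exists_dm (by omega) hX
      have hT := tile_ok hP hi
      have := hr i hi
      unfold OK at this
      unfold TileOK at hT
      rw [tpP_eq i hq] at h2
      rw [← Bool.not_eq_true, spP_eq i hq] at hs
      obtain ⟨q', rfl⟩ : ∃ q', X' = i * (2 * h) + q' := ⟨X' - i * (2 * h), by omega⟩
      have hq' : q' < 2 * h := by split_ifs at h2 <;> omega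
      rw [hμ i q hq, hμ i q' hq', act, act]
      cases hb : (tile P i).2.2 <;>
        simp only [hb, Bool.false_eq_true, true_and, false_and, not_false_iff, forall_const,
          Bool.true_eq_false, false_imp_iff] at * <;> split_ifs at * <;> omega
    · rw [Nat.mod_eq_of_lt (by omega)]; simpa using hZ
    · rw [Nat.mod_eq_of_lt (by omega)]; simpa using h1
    · obtain ⟨i, q, hi, hq, rfl, hle⟩ := exists_dm (by omega) hX
      have hT := tile_ok hP hi
      unfold TileOK at hT
      rw [(dm i hq).2] at e
      simp only [decide_eq_false_iff_not] at e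
      rw [stP_eq i hq, tpP_eq i hq]
      split_ifs <;> omega
    · have step : ∀ i < P.length, ∀ q < 2 * h,
          W ((i + 1) * (2 * h) + act (tile P i) (r i) q) ↔ W (i * (2 * h) + q) := by
        intro i hi q hq
        have hle : i * (2 * h) + 2 * h ≤ P.length * (2 * h) := by
          calc i * (2 * h) + 2 * h = (i + 1) * (2 * h) := by ring
            _ ≤ _ := Nat.mul_le_mul_right _ hi
        rw [← w1 (i * (2 * h) + q) (by omega), hμ i q hq]
        congr! 1
        ring
      have fwd : ∀ j i, i + j = P.length → ∀ q < h,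
          W (i * (2 * h) + q) ↔ W (P.length * (2 * h) + run (l.drop i) q) := by
        intro j
        induction j with
        | zero =>
          intro i hi q hq
          obtain rfl : i = P.length := by omega
          rw [← hl, List.drop_length]; rfl
        | succ j ih =>
          intro i hi q hq
          rw [← step i (by omega) q (by omega), run_drop (by omega), (hget i _).1, (hget i _).2]
          exact ih (i + 1) (by omega) _ (act_lt (tile_ok hP (by omega)) (hr i (by omega)) hq)
      have bwd : ∀ q, h ≤ q → q < 2 * h → ∀ i ≤ P.length, W (i * (2 * h) + q) ↔ W q := by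
        intro q h1 h2 i
        induction i with
        | zero => intro _; simp
        | succ i ih =>
          intro hi
          rw [← ih (by omega), ← step i (by omega) q h2, act_of_ge (tile_ok hP (by omega)) h1]
      refine hS W fun q hq => ?_
      have h1 := fwd P.length 0 (by omega) q hq
      have h2 : run l q < h := run_lt (fun x hx => ⟨hP _ (by rw [← hlP]; exact List.mem_map_of_mem hx),
        hok x hx⟩) hq
      rw [zero_mul, zero_add, List.drop_zero, w3 _ h2, show P.length * (2 * h) + 2 * h - 1 - run l q =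
        P.length * (2 * h) + (2 * h - 1 - run l q) by omega,
        bwd _ (by omega) (by omega) _ le_rfl, ← w2 _ h2] at h1
      exact h1.symm

end Pool.Agent.P.MP_531d8e_lc
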