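import Pool.Agent.P.MP_531d8e_lc.Prog

/-! The list of tiles attached to a formula. -/

namespace Pool.Agent.P.MP_531d8e_lc

open Function

def Runs (P : List Tile) (f : ℕ → ℕ) : Prop :=
  ∃ l : List (Tile × ℕ), l.map Prod.fst = P ∧ (∀ x ∈ l, OK x.1 x.2) ∧ f = run l

theorem good_iff {h : ℕ} {P : List Tile} : Good h P ↔ ∃ f, Runs P f ∧
    ∀ S : ℕ → Prop, (∀ q < h, S (f q) ↔ S q) → ∀ q < h, (S q ↔ S 0) := by
  constructor
  · rintro ⟨l, h1, h2, h3⟩
    exact ⟨_, ⟨l, h1, h2, rfl⟩, h3⟩
  · rintro ⟨_, ⟨l, h1, h2, rfl⟩, h3⟩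
    exact ⟨l, h1, h2, h3⟩

theorem runs_nil {f : ℕ → ℕ} : Runs [] f ↔ f = id := by
  constructor
  · rintro ⟨l, h1, -, rfl⟩
    rw [List.map_eq_nil_iff.1 h1]; rfl
  · rintro rfl
    exact ⟨[], rfl, by simp, rfl⟩

theorem runs_cons {T : Tile} {P : List Tile} {f : ℕ → ℕ} :
    Runs (T :: P) f ↔ ∃ r g, OK T r ∧ Runs P g ∧ f = g ∘ act T r := by
  constructor
  · rintro ⟨l, h1, h2, rfl⟩
    obtain ⟨x, l, rfl, rfl, rfl⟩ := List.map_eq_cons_iff.1 h1
    exact ⟨x.2, run l, h2 x (by simp), ⟨l, rfl, fun y hy => h2 y (by simp [hy]), rfl⟩, rfl⟩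
  · rintro ⟨r, _, h1, ⟨l, rfl, h2, rfl⟩, rfl⟩
    exact ⟨(T, r) :: l, rfl, List.forall_mem_cons.2 ⟨h1, h2⟩, rfl⟩

theorem runs_append {P Q : List Tile} : ∀ {f : ℕ → ℕ},
    Runs (P ++ Q) f ↔ ∃ g g', Runs P g ∧ Runs Q g' ∧ f = g' ∘ g := by
  induction P with
  | nil => intro f; simp [runs_nil]
  | cons T P ih =>
    intro f
    simp only [List.cons_append, runs_cons, ih]
    constructor
    · rintro ⟨r, _, h1, ⟨g, g', h2, h3, rfl⟩, rfl⟩
      exact ⟨_, g', ⟨r, g, h1, h2, rfl⟩, h3, rfl⟩
    · rintro ⟨_, g', ⟨r, g, h1, h2, rfl⟩, h3, rfl⟩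
      exact ⟨r, _, h1, ⟨g, g', h2, h3, rfl⟩, rfl⟩

/-- Reversal of an interval. -/
def rev (p k q : ℕ) : ℕ := if p ≤ q ∧ q < p + k then 2 * p + k - 1 - q else q

theorem runs_rev {p k : ℕ} (hk : 0 < k) {P : List Tile} {f : ℕ → ℕ} :
    Runs ((p, k, false) :: P) f ↔ ∃ g, Runs P g ∧ f = g ∘ rev p k := by
  have e : act (p, k, false) (k - 1) = rev p k := by
    funext q; simp only [act, rev]; split_ifs <;> omega
  rw [runs_cons]
  constructor
  · rintro ⟨r, g, ⟨-, h1⟩, h2, rfl⟩
    obtain rfl : r = k - 1 := by have := h1 rfl; simp only at this; omega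
    exact ⟨g, h2, by rw [e]⟩
  · rintro ⟨g, h2, rfl⟩
    exact ⟨k - 1, g, ⟨by simp only; omega, fun _ => by simp only; omega⟩, h2, by rw [e]⟩

def meet (x : ℕ × ℕ) : List Tile :=
  [(x.1 + 1, x.2 - x.1, false), (x.1, 2, true), (x.1 + 1, x.2 - x.1, false)]

def sw (a b x : ℕ) : ℕ := if x = a then b else if x = b then a else x

theorem runs_meet {a b : ℕ} (hab : a < b) {f : ℕ → ℕ} :
    Runs (meet (a, b)) f ↔ f = id ∨ f = sw a b := by
  have e0 : (id ∘ rev (a + 1) (b - a)) ∘ act (a, 2, true) 0 ∘ rev (a + 1) (b - a) = id := by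
    funext q; simp only [act, rev, comp, id]; split_ifs <;> omega
  have e1 : (id ∘ rev (a + 1) (b - a)) ∘ act (a, 2, true) 1 ∘ rev (a + 1) (b - a) = sw a b := by
    funext q; simp only [act, rev, comp, id, sw]; split_ifs <;> omega
  have hk : 0 < b - a := by omega
  unfold meet
  rw [runs_rev hk]
  constructor
  · rintro ⟨g, h1, rfl⟩
    obtain ⟨r, g, ⟨h2, -⟩, h3, rfl⟩ := runs_cons.1 h1
    obtain ⟨g, h4, rfl⟩ := (runs_rev hk).1 h3
    obtain rfl := runs_nil.1 h4
    simp only at h2
    interval_cases r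
    · exact Or.inl e0
    · exact Or.inr e1
  · rintro (rfl | rfl)
    · exact ⟨_, runs_cons.2 ⟨0, _, ⟨by simp, by simp⟩, (runs_rev hk).2 ⟨_, runs_nil.2 rfl, rfl⟩,
        rfl⟩, e0.symm⟩
    · exact ⟨_, runs_cons.2 ⟨1, _, ⟨by simp, by simp⟩, (runs_rev hk).2 ⟨_, runs_nil.2 rfl, rfl⟩,
        rfl⟩, e1.symm⟩

def varP (m p : ℕ) : List Tile :=
  [(p, m + 1, false), (p + 1, m, false), (p, 2 * m + 1, true), (p, 2 * m + 1, false)]

/-- The middle element of a block of length `2 m + 1` is moved to place `r` of the block. -/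
def ins (p m r x : ℕ) : ℕ :=
  if x = p + m then p + r else if p + m < x ∧ x ≤ p + r then x - 1
  else if p + r ≤ x ∧ x < p + m then x + 1 else x

theorem runs_varP {m p : ℕ} (hm : 0 < m) {f : ℕ → ℕ} :
    Runs (varP m p) f ↔ ∃ r ≤ 2 * m, f = ins p m r := by
  have e : ∀ r ≤ 2 * m, (((id ∘ rev p (2 * m + 1)) ∘ act (p, 2 * m + 1, true) r) ∘
      rev (p + 1) m) ∘ rev p (m + 1) = ins p m (2 * m - r) := by
    intro r hr
    have e1 : ∀ q, rev (p + 1) m (rev p (m + 1) q) =
        if q = p + m then p else if p ≤ q ∧ q < p + m then q + 1 else q := by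
      intro q; simp only [rev]; split_ifs <;> omega
    funext q
    simp only [comp, id, e1]
    simp only [act, rev, ins]
    split_ifs <;> omega
  unfold varP
  rw [runs_rev (by omega)]
  constructor
  · rintro ⟨g, h1, rfl⟩
    obtain ⟨g, h3, rfl⟩ := (runs_rev hm).1 h1
    obtain ⟨r, g, ⟨h2, -⟩, h4, rfl⟩ := runs_cons.1 h3
    obtain ⟨g, h5, rfl⟩ := (runs_rev (by omega)).1 h4
    obtain rfl := runs_nil.1 h5
    simp only at h2
    exact ⟨2 * m - r, by omega, e r (by omega)⟩
  · rintro ⟨r, hr, rfl⟩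
    refine ⟨_, (runs_rev hm).2 ⟨_, runs_cons.2 ⟨2 * m - r, _, ⟨by simp only; omega, by simp⟩,
      (runs_rev (by omega)).2 ⟨_, runs_nil.2 rfl, rfl⟩, rfl⟩, rfl⟩, ?_⟩
    rw [e _ (by omega), show 2 * m - (2 * m - r) = r by omega]

theorem inv_flatMap {α : Type} {F : α → List Tile} (S : ℕ → Prop) (L : List α) :
    ∀ {g : ℕ → ℕ}, Runs (L.flatMap F) g →
      (∀ a ∈ L, ∀ f, Runs (F a) f → ∀ x, S (f x) ↔ S x) → ∀ x, S (g x) ↔ S x := by
  induction L with
  | nil => intro g hg _ x; obtain rfl := runs_nil.1 hg; rfl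
  | cons a L ih =>
    intro g hg H x
    rw [List.flatMap_cons] at hg
    obtain ⟨f, g, h1, h2, rfl⟩ := runs_append.1 hg
    rw [comp_apply, ih h2 fun b hb => H b (by simp [hb]), H a (by simp) f h1]

theorem inv_range {F : ℕ → List Tile} (n : ℕ) : ∀ {g : ℕ → ℕ}, Runs ((List.range n).flatMap F) g →
    ∃ G : ℕ → ℕ → ℕ, (∀ v < n, Runs (F v) (G v)) ∧
      ∀ S : ℕ → Prop, (∀ v < n, ∀ x, S (G v x) ↔ S x) → ∀ x, S (g x) ↔ S x := by
  induction n with
  | zero =>
    intro g hg
    obtain rfl := runs_nil.1 hg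
    exact ⟨fun _ => id, by simp, fun _ _ _ => Iff.rfl⟩
  | succ n ih =>
    intro g hg
    rw [List.range_succ, List.flatMap_append, List.flatMap_singleton] at hg
    obtain ⟨f, g, h1, h2, rfl⟩ := runs_append.1 hg
    obtain ⟨G, a1, a2⟩ := ih h1
    refine ⟨fun v => if v = n then g else G v, fun v hv => ?_, fun S hS x => ?_⟩
    · by_cases e : v = n
      · simpa [e] using h2
      · simpa [e] using a1 v (by omega)
    · have b1 := hS n (by omega) (f x)
      simp only [if_true] at b1
      rw [comp_apply, b1]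
      refine a2 S (fun v hv y => ?_) x
      have := hS v (by omega) y
      simpa [show v ≠ n by omega] using this

def Nice (h : ℕ) (f : ℕ → ℕ) : Prop := Injective f ∧ ∀ x < h, f x < h

def Reach (f : ℕ → ℕ) (a b : ℕ) : Prop := ∃ N, f^[N] a = b

theorem Reach.refl (f : ℕ → ℕ) (a : ℕ) : Reach f a a := ⟨0, rfl⟩

theorem Reach.step (f : ℕ → ℕ) (a : ℕ) : Reach f a (f a) := ⟨1, rfl⟩

theorem Reach.trans {f : ℕ → ℕ} {a b c : ℕ} (h1 : Reach f a b) (h2 : Reach f b c) :
    Reach f a c := by
  obtain ⟨N, rfl⟩ := h1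
  obtain ⟨M, rfl⟩ := h2
  exact ⟨M + N, iterate_add_apply _ _ _ _⟩

theorem Nice.iter {h : ℕ} {f : ℕ → ℕ} (hf : Nice h f) {a : ℕ} (ha : a < h) (N : ℕ) :
    f^[N] a < h := by
  induction N with
  | zero => exact ha
  | succ N ih => rw [iterate_succ_apply']; exact hf.2 _ ih

theorem Nice.per {h : ℕ} {f : ℕ → ℕ} (hf : Nice h f) {a : ℕ} (ha : a < h) :
    ∃ N, 0 < N ∧ f^[N] a = a :=
  periodic_of_injOn (Set.finite_Iio h) (fun x hx => hf.2 x hx) hf.1.injOn ha

theorem Nice.symm {h : ℕ} {f : ℕ → ℕ} (hf : Nice h f) {a b : ℕ} (ha : a < h) (H : Reach f a b) :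
    Reach f b a := by
  obtain ⟨N, rfl⟩ := H
  induction N with
  | zero => exact Reach.refl _ _
  | succ N ih =>
    rw [iterate_succ_apply']
    exact Reach.trans ((reach_next_iff (hf.per (hf.iter ha N))).1 ⟨0, rfl⟩) ih

theorem Nice.lift {h : ℕ} {f g : ℕ → ℕ} (hf : Nice h f) (H : ∀ x < h, Reach g x (f x)) {a b : ℕ}
    (ha : a < h) (H' : Reach f a b) : Reach g a b := by
  obtain ⟨N, rfl⟩ := H'
  induction N with
  | zero => exact Reach.refl _ _
  | succ N ih =>
    rw [iterate_succ_apply']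
    exact ih.trans (H _ (hf.iter ha N))

theorem Nice.merge {h : ℕ} {f : ℕ → ℕ} (hf : Nice h f) {a b : ℕ} (ha : a < h) (hb : b < h)
    (hn : ¬ Reach f a b) : Nice h (sw a b ∘ f) ∧ Reach (sw a b ∘ f) a b ∧
      ∀ x < h, Reach (sw a b ∘ f) x (f x) := by
  have h1 : Nice h (sw a b ∘ f) := by
    refine ⟨Injective.comp (fun x y e => ?_) hf.1, fun x hx => ?_⟩
    · simp only [sw] at e; split_ifs at e <;> omega
    · have := hf.2 x hx
      simp only [sw, comp]; split_ifs <;> omega
  have h2 : Reach (sw a b ∘ f) a b := by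
    have key : ∀ N, Reach (sw a b ∘ f) a (f^[N] a) ∨ Reach (sw a b ∘ f) a b := by
      intro N
      induction N with
      | zero => exact Or.inl (Reach.refl _ _)
      | succ N ih =>
        rcases ih with ih | ih
        · have h3 := ih.trans (Reach.step _ _)
          have h4 : f (f^[N] a) ≠ b := fun e => hn ⟨N + 1, by rw [iterate_succ_apply', e]⟩
          rw [iterate_succ_apply']
          by_cases e : f (f^[N] a) = a
          · right; simpa [sw, e] using h3
          · left; simpa [sw, e, h4] using h3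
        · exact Or.inr ih
    obtain ⟨N, hN, e⟩ := hf.per ha
    rcases key (N - 1) with h3 | h3
    · have h4 := h3.trans (Reach.step _ _)
      have : f (f^[N - 1] a) = a := by
        rw [← iterate_succ_apply' f, show (N - 1).succ = N by omega, e]
      simpa [sw, this] using h4
    · exact h3
  refine ⟨h1, h2, fun x _ => ?_⟩
  have h3 := Reach.step (sw a b ∘ f) x
  by_cases e : f x = a
  · rw [e]
    refine Reach.trans ?_ (h1.symm ha h2)
    simpa [sw, e] using h3
  · by_cases e' : f x = b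
    · rw [e']
      refine Reach.trans ?_ h2
      have : b ≠ a := by rw [← e']; exact e
      simpa [sw, e', this] using h3
    · simpa [sw, e, e'] using h3

theorem meets {h : ℕ} (L : List (ℕ × ℕ)) : ∀ {f : ℕ → ℕ}, Nice h f →
    (∀ x ∈ L, x.1 < x.2 ∧ x.2 < h) → ∃ g, Runs (L.flatMap meet) g ∧ Nice h (g ∘ f) ∧
      (∀ a < h, ∀ b, Reach f a b → Reach (g ∘ f) a b) ∧ ∀ x ∈ L, Reach (g ∘ f) x.1 x.2 := by
  induction L with
  | nil => intro f hf _; exact ⟨id, runs_nil.2 rfl, hf, fun _ _ _ h => h, by simp⟩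
  | cons x L ih =>
    intro f hf hL
    obtain ⟨a, b⟩ := x
    have hx := hL (a, b) (by simp)
    simp only at hx
    have : ∃ g, Runs (meet (a, b)) g ∧ Nice h (g ∘ f) ∧
        (∀ a < h, ∀ b, Reach f a b → Reach (g ∘ f) a b) ∧ Reach (g ∘ f) a b := by
      by_cases c : Reach f a b
      · exact ⟨id, (runs_meet hx.1).2 (Or.inl rfl), hf, fun _ _ _ h => h, c⟩
      · obtain ⟨a1, a2, a3⟩ := hf.merge (by omega) hx.2 c
        exact ⟨_, (runs_meet hx.1).2 (Or.inr rfl), a1, fun _ ha _ h => hf.lift a3 ha h, a2⟩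
    obtain ⟨g, a1, a2, a3, a4⟩ := this
    obtain ⟨g', b1, b2, b3, b4⟩ := ih a2 fun y hy => hL y (by simp [hy])
    refine ⟨g' ∘ g, ?_, b2, fun a ha b h => b3 a ha b (a3 a ha b h), fun y hy => ?_⟩
    · rw [List.flatMap_cons]
      exact runs_append.2 ⟨g, g', a1, b1, rfl⟩
    · rcases List.mem_cons.1 hy with rfl | hy
      · exact b3 a (by omega) b a4
      · exact b4 y hy

/-- First position of the block of variable `v`. -/
def base (m v : ℕ) : ℕ := 1 + m + v * (2 * m + 1)

theorem base_succ (m v : ℕ) : base m (v + 1) = base m v + 2 * m + 1 := by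
  unfold base; ring

theorem base_lt (m : ℕ) {v w : ℕ} (h : v < w) : base m v + 2 * m + 1 ≤ base m w := by
  rw [← base_succ]
  unfold base
  have := Nat.mul_le_mul_right (2 * m + 1) (show v + 1 ≤ w from h)
  omega

theorem vars {m : ℕ} (r : ℕ → ℕ) (hr : ∀ v, r v ≤ 2 * m) (n : ℕ) (hm : 0 < n → 0 < m) :
    ∃ g, Runs ((List.range n).flatMap fun v => varP m (base m v)) g ∧ Nice (base m n) g ∧
      (∀ x, base m n ≤ x → g x = x) ∧
      ∀ v < n, ∀ i ≤ 2 * m, g (base m v + i) = ins (base m v) m (r v) (base m v + i) := by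
  induction n with
  | zero => exact ⟨id, runs_nil.2 rfl, ⟨injective_id, fun _ h => h⟩, fun _ _ => rfl, by simp⟩
  | succ n ih =>
    have hm' := hm (by omega)
    obtain ⟨g, a1, a2, a3, a4⟩ := ih fun _ => hm'
    have h1 := hr n
    have h2 := base_succ m n
    refine ⟨ins (base m n) m (r n) ∘ g, ?_, ⟨Injective.comp (fun x y e => ?_) a2.1, fun x hx => ?_⟩,
      fun x hx => ?_, fun v hv i hi => ?_⟩
    · rw [List.range_succ, List.flatMap_append, List.flatMap_singleton]
      exact runs_append.2 ⟨_, _, a1, (runs_varP hm').2 ⟨_, h1, rfl⟩, rfl⟩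
    · simp only [ins] at e; split_ifs at e <;> omega
    · have h3 := a2.2 x
      have h4 := a3 x
      simp only [ins, comp]; split_ifs <;> omega
    · simp only [ins, comp, a3 x (by omega)]; split_ifs <;> omega
    · by_cases e : v = n
      · subst e
        rw [comp_apply, a3 _ (by omega)]
      · have h3 := base_lt m (show v < n by omega)
        have h4 := a2.2 (base m v + i) (by omega)
        rw [comp_apply, ← a4 v (by omega) i hi]
        simp only [ins]; split_ifs <;> omega

/-- The wire that wire `i` of variable `v` may be joined to. -/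
def tg (m : ℕ) (occ : ℕ → Bool → ℕ → Bool) (v i : ℕ) : ℕ :=
  if i < m then (if occ v false i = true then 1 + i else 0)
  else if i = m then 0 else (if occ v true (i - m - 1) = true then i - m else 0)

def pairs (m n : ℕ) (occ : ℕ → Bool → ℕ → Bool) : List (ℕ × ℕ) :=
  (List.range n).flatMap fun v => (List.range (2 * m + 1)).map fun i => (tg m occ v i, base m v + i)

def prog (m n : ℕ) (occ : ℕ → Bool → ℕ → Bool) : List Tile :=
  (0, 1, false) :: (((List.range n).flatMap fun v => varP m (base m v)) ++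
    (pairs m n occ).flatMap meet)

theorem mem_pairs {m n : ℕ} {occ : ℕ → Bool → ℕ → Bool} {x : ℕ × ℕ} :
    x ∈ pairs m n occ ↔ ∃ v < n, ∃ i ≤ 2 * m, x = (tg m occ v i, base m v + i) := by
  simp only [pairs, List.mem_flatMap, List.mem_range, List.mem_map]
  constructor
  · rintro ⟨v, hv, i, hi, rfl⟩
    exact ⟨v, hv, i, by omega, rfl⟩
  · rintro ⟨v, hv, i, hi, rfl⟩
    exact ⟨v, hv, i, by omega, rfl⟩

theorem tg_le {m : ℕ} (occ : ℕ → Bool → ℕ → Bool) (v : ℕ) {i : ℕ} (hi : i ≤ 2 * m) :
    tg m occ v i ≤ m := by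
  unfold tg; split_ifs <;> omega

theorem lt_base (m v : ℕ) : m < base m v := by unfold base; omega

theorem pairs_lt {m n : ℕ} {occ : ℕ → Bool → ℕ → Bool} :
    ∀ x ∈ pairs m n occ, x.1 < x.2 ∧ x.2 < base m n := by
  intro x hx
  obtain ⟨v, hv, i, hi, rfl⟩ := mem_pairs.1 hx
  have := tg_le occ v hi
  have := lt_base m v
  have := base_lt m hv
  simp only
  omega

theorem prog_ok {m n : ℕ} (hm : 0 < n → 0 < m) (occ : ℕ → Bool → ℕ → Bool) :
    ∀ T ∈ prog m n occ, TileOK (base m n) T := by
  intro T hT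
  simp only [prog, List.mem_cons, List.mem_append, List.mem_flatMap, List.mem_range] at hT
  rcases hT with rfl | ⟨v, hv, hT⟩ | ⟨x, hx, hT⟩
  · have := lt_base m n
    simp [TileOK]; omega
  · have := base_lt m hv
    have := hm (by omega)
    simp only [varP, List.mem_cons, List.not_mem_nil, or_false] at hT
    rcases hT with rfl | rfl | rfl | rfl <;> simp [TileOK] <;> omega
  · have := pairs_lt x hx
    simp only [meet, List.mem_cons, List.not_mem_nil, or_false] at hT
    rcases hT with rfl | rfl | rfl <;> simp [TileOK] <;> omega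

theorem rev_zero : rev 0 1 = id := by
  funext q; simp only [rev, id]; split_ifs <;> omega

theorem base_inj {m v w i j : ℕ} (hi : i ≤ 2 * m) (hj : j ≤ 2 * m)
    (e : base m v + i = base m w + j) : v = w ∧ i = j := by
  rcases lt_trichotomy v w with h | h | h
  · have := base_lt m h; omega
  · subst h; omega
  · have := base_lt m h; omega

theorem good_prog {m n : ℕ} (hm : 0 < n → 0 < m) (occ : ℕ → Bool → ℕ → Bool) :
    Good (base m n) (prog m n occ) ↔ ∃ a : ℕ → Bool, ∀ c < m, ∃ v < n, occ v (a v) c = true := by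
  rw [good_iff]
  unfold prog
  constructor
  · rintro ⟨f, h1, h2⟩
    obtain ⟨f, h5, rfl⟩ := (runs_rev one_pos).1 h1
    obtain ⟨g, g', h3, h4, rfl⟩ := runs_append.1 h5
    obtain ⟨G, a1, a2⟩ := inv_range n h3
    have a3 : ∀ v, ∃ r, v < n → r ≤ 2 * m ∧ G v = ins (base m v) m r := by
      intro v
      by_cases hv : v < n
      · obtain ⟨r, b1, b2⟩ := (runs_varP (hm (by omega))).1 (a1 v hv)
        exact ⟨r, fun _ => ⟨b1, b2⟩⟩
      · exact ⟨0, fun h => absurd h hv⟩
    choose r hr using a3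
    refine ⟨fun v => decide (m ≤ r v), fun c hc => ?_⟩
    by_contra hn
    push Not at hn
    let S : ℕ → Prop := fun x => x = 1 + c ∨
      ∃ v < n, ∃ i ≤ 2 * m, x = base m v + i ∧ tg m occ v i = 1 + c
    have hS : ∀ v < n, ∀ i ≤ 2 * m, S (base m v + i) ↔ tg m occ v i = 1 + c := by
      intro v hv i hi
      constructor
      · rintro (e | ⟨w, hw, j, hj, e, e'⟩)
        · have := lt_base m v; omega
        · obtain ⟨rfl, rfl⟩ := base_inj hi hj e
          exact e'
      · exact fun e => Or.inr ⟨v, hv, i, hi, rfl, e⟩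
    have hS' : ∀ x ≤ m, S x ↔ x = 1 + c := by
      intro x hx
      constructor
      · rintro (e | ⟨w, hw, j, hj, e, e'⟩)
        · exact e
        · have := lt_base m w; omega
      · exact Or.inl
    have key := h2 S (fun q _ => ?_) (1 + c) (by have := lt_base m n; omega)
    · rw [hS' _ (by omega), hS' _ (by omega)] at key
      omega
    rw [rev_zero, comp_apply, comp_apply, id, inv_flatMap S _ h4, a2 S]
    · intro v hv x
      obtain ⟨b1, b2⟩ := hr v hv
      have b3 := hn v hv
      have b4 : ∀ y, base m v + min m (r v) ≤ y → y ≤ base m v + max m (r v) → ¬ S y := by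
        intro y c1 c2
        obtain ⟨i, rfl⟩ : ∃ i, y = base m v + i := ⟨y - base m v, by omega⟩
        rw [hS v hv i (by omega)]
        unfold tg
        split_ifs with d1 d2 d3 d4
        · intro e
          obtain rfl : i = c := by omega
          rw [decide_eq_false (by omega)] at b3
          exact b3 d2
        · omega
        · omega
        · intro e
          rw [show i - m - 1 = c by omega] at d4
          rw [decide_eq_true (by omega)] at b3
          exact b3 d4
        · omega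
      rw [b2]
      unfold ins
      split_ifs with d1 d2 d3
      · exact iff_of_false (b4 _ (by omega) (by omega)) (b4 _ (by omega) (by omega))
      · exact iff_of_false (b4 _ (by omega) (by omega)) (b4 _ (by omega) (by omega))
      · exact iff_of_false (b4 _ (by omega) (by omega)) (b4 _ (by omega) (by omega))
      · rfl
    · intro y hy f hf x
      have b1 := (pairs_lt y hy).1
      obtain ⟨v, hv, i, hi, rfl⟩ := mem_pairs.1 hy
      have b2 : S (tg m occ v i) ↔ S (base m v + i) := by
        rw [hS v hv i hi, hS' _ (tg_le occ v hi)]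
      rcases (runs_meet b1).1 hf with rfl | rfl
      · rfl
      · unfold sw
        split_ifs with d1 d2
        · rw [d1, b2]
        · rw [d2, b2]
        · rfl
  · rintro ⟨a, ha⟩
    obtain ⟨g, a1, a2, -, a4⟩ := vars (m := m) (fun v => if a v = true then 2 * m else 0)
      (fun v => by split_ifs <;> omega) n hm
    obtain ⟨g', b1, b2, b3, b4⟩ := meets (pairs m n occ) a2 pairs_lt
    refine ⟨g' ∘ g, (runs_rev one_pos).2 ⟨_, runs_append.2 ⟨_, _, a1, b1, rfl⟩, by
      rw [rev_zero]; rfl⟩, fun S hS => ?_⟩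
    have c1 : ∀ v < n, ∀ i ≤ 2 * m, Reach (g' ∘ g) (tg m occ v i) (base m v + i) :=
      fun v hv i hi => b4 _ (mem_pairs.2 ⟨v, hv, i, hi, rfl⟩)
    have c2 : ∀ v < n, Reach (g' ∘ g) 0 (base m v + m) := fun v hv => by
      simpa [tg] using c1 v hv m (by omega)
    have c3 : ∀ v < n, a v = true → ∀ j ≤ m, Reach g (base m v + (m + j)) (base m v + m) := by
      intro v hv e j
      induction j with
      | zero => intro _; exact Reach.refl _ _
      | succ j ih =>
        intro hj
        refine Reach.trans ?_ (ih (by omega))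
        convert Reach.step g _ using 1
        rw [a4 v hv _ (by omega)]
        simp only [ins, e, if_true]
        split_ifs <;> omega
    have c4 : ∀ v < n, a v = false → ∀ j ≤ m, Reach g (base m v + (m - j)) (base m v + m) := by
      intro v hv e j
      induction j with
      | zero => intro _; exact Reach.refl _ _
      | succ j ih =>
        intro hj
        refine Reach.trans ?_ (ih (by omega))
        convert Reach.step g _ using 1
        rw [a4 v hv _ (by omega)]
        simp only [ins, e, Bool.false_eq_true, if_false]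
        split_ifs <;> omega
    have h0 : 0 < base m n := by have := lt_base m n; omega
    have c5 : ∀ x ≤ m, Reach (g' ∘ g) x 0 := by
      intro x hx
      rcases x with _ | c
      · exact Reach.refl _ _
      obtain ⟨v, hv, e⟩ := ha c (by omega)
      have d0 := base_lt m hv
      refine Reach.trans ?_ (b2.symm h0 (c2 v hv))
      cases e' : a v
      · have d1 := c1 v hv c (by omega)
        have d2 := b3 _ (by omega) _ (c4 v hv e' (m - c) (by omega))
        rw [show m - (m - c) = c by omega] at d2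
        rw [e'] at e
        simp only [tg, e, if_true, show c < m by omega, add_comm 1 c] at d1
        exact d1.trans d2
      · have d1 := c1 v hv (m + (c + 1)) (by omega)
        have d2 := b3 _ (by omega) _ (c3 v hv e' (c + 1) (by omega))
        rw [e'] at e
        rw [tg, if_neg (by omega), if_neg (by omega), show m + (c + 1) - m - 1 = c by omega,
          if_pos e, show m + (c + 1) - m = c + 1 by omega] at d1
        exact d1.trans d2
    have c6 : ∀ q < base m n, Reach (g' ∘ g) q 0 := by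
      intro q hq
      by_cases e : q ≤ m
      · exact c5 q e
      · obtain ⟨v, i, hv, hi, e1, -⟩ := exists_dm (w := 2 * m + 1) (R := n) (X := q - (1 + m))
          (by omega) (by unfold base at hq; omega)
        have e2 : q = base m v + i := by unfold base; omega
        have d1 := tg_le occ v (show i ≤ 2 * m by omega)
        have d2 := lt_base m n
        rw [e2]
        exact (b2.symm (by omega) (c1 v hv i (by omega))).trans (c5 _ d1)
    intro q hq
    obtain ⟨N, e⟩ := c6 q hq
    rw [← e]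
    clear e
    induction N with
    | zero => rfl
    | succ N ih => rw [iterate_succ_apply', hS _ (b2.iter hq N), ih]

end Pool.Agent.P.MP_531d8e_lc
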