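import Pool.Agent.P.MP_531d8e_lc.Turn

/-! The region, and what a cheap tour of it looks like. -/

namespace Pool.Agent.P.MP_531d8e_lc

open Finset

/-- A decomposition of the indices below `n` into tiles, intervals from `st X` to `tp X`;
`sp X` says that column `X` carries a spike. -/
structure Lay (n h : ℕ) (st tp : ℕ → ℕ) (sp : ℕ → Bool) : Prop where
  hpos : 0 < h
  hn : 2 * h ≤ n
  le : ∀ X < n, st X ≤ X ∧ X ≤ tp X ∧ tp X < n ∧ tp X < st X + h
  same : ∀ X < n, ∀ X', st X ≤ X' → X' ≤ tp X → st X' = st X ∧ tp X' = tp X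
  spk : ∀ X < n, sp X = true → st X = X ∧ X < tp X ∧ tp X + 1 < n

/-- The cells of the region. -/
def Cell (n h : ℕ) (tp : ℕ → ℕ) (sp : ℕ → Bool) (X Y : ℕ) : Prop :=
  h ≤ X + Y + 1 ∧ X ≤ Y + h ∧ X + Y + 1 ≤ 2 * n + h ∧ (X < n → Y ≤ tp X + h + (sp X).toNat)

instance (n h : ℕ) (tp : ℕ → ℕ) (sp : ℕ → Bool) (X Y : ℕ) : Decidable (Cell n h tp sp X Y) := by
  unfold Cell; infer_instance

/-- The turn budget. -/
def budget (n h : ℕ) (sp : ℕ → Bool) : ℕ :=
  2 * (n + h) + 2 * ∑ X ∈ range (n + h), if X < n ∧ sp X = true then 1 else 0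

/-- Admissible matchings of columns with rows. -/
structure Adm (n : ℕ) (st tp : ℕ → ℕ) (sp : ℕ → Bool) (μ : ℕ → ℕ) : Prop where
  le : ∀ X < n, st X ≤ μ X ∧ μ X ≤ tp X
  inj : ∀ X < n, ∀ X' < n, μ X = μ X' → X = X'
  anti : ∀ X < n, ∀ X', X < X' → X' ≤ tp X → sp X = false → μ X' < μ X

variable {n h : ℕ} {st tp : ℕ → ℕ} {sp : ℕ → Bool}

theorem Lay.bound (L : Lay n h st tp sp) (X Y : ℕ) (hc : Cell n h tp sp X Y) :
    X < n + h ∧ Y < n + h := by
  obtain ⟨h1, h2, h3, h4⟩ := hc
  by_cases hX : X < n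
  · have := h4 hX
    have := L.le X hX
    have := L.spk X hX
    cases hs : sp X <;> simp only [hs, Bool.toNat_false, Bool.toNat_true, forall_const] at * <;>
      omega
  · omega

theorem Lay.tp_lt (L : Lay n h st tp sp) {X Z : ℕ} (hX : X < n) (hZ : Z < st X) : tp Z < st X := by
  by_contra hc
  have h1 := L.le X hX
  have h2 := L.le Z (by omega)
  have h3 := L.same Z (by omega) (st X) (by omega) (by omega)
  have h4 := L.same X hX (st X) le_rfl (by omega)
  omega

theorem Lay.tip_right (L : Lay n h st tp sp) {X : ℕ} (hX : X < n) (hs : sp X = true) :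
    ¬ Cell n h tp sp (X + 1) (tp X + h + 1) := by
  rintro ⟨-, -, -, h4⟩
  have h1 := L.spk X hX hs
  have h2 := L.same X hX (X + 1) (by omega) (by omega)
  have h3 := L.spk (X + 1) (by omega)
  have := h4 (by omega)
  cases hs' : sp (X + 1) <;>
    simp only [hs', Bool.toNat_false, Bool.toNat_true, forall_const] at * <;> omega

theorem Lay.tip_left (L : Lay n h st tp sp) {X : ℕ} (hX : X < n) (hs : sp X = true) (X' : ℕ)
    (e : X' + 1 = X) : ¬ Cell n h tp sp X' (tp X + h + 1) := by
  rintro ⟨-, -, -, h4⟩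
  have h1 := L.spk X hX hs
  have h2 := L.tp_lt (Z := X') hX (by omega)
  have := h4 (by omega)
  have := Bool.toNat_le (sp X')
  omega

theorem exists_of_sum_eq_one {s : Finset ℕ} {f : ℕ → ℕ} (h : ∑ i ∈ s, f i = 1) :
    ∃ a ∈ s, f a = 1 := by
  obtain ⟨a, ha, h1⟩ := exists_ne_zero_of_sum_ne_zero (s := s) (f := f) (by omega)
  have := single_le_sum (f := f) (fun _ _ => Nat.zero_le _) ha
  exact ⟨a, ha, by omega⟩

theorem eq_of_sum_le_one {s : Finset ℕ} {f : ℕ → ℕ} (h : ∑ i ∈ s, f i ≤ 1) {a b : ℕ} (ha : a ∈ s)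
    (hb : b ∈ s) (h1 : f a ≠ 0) (h2 : f b ≠ 0) : a = b := by
  by_contra e
  have : ∑ i ∈ {a, b}, f i ≤ ∑ i ∈ s, f i :=
    sum_le_sum_of_subset (by intro x hx; simp only [mem_insert, mem_singleton] at hx; grind)
  rw [sum_pair e] at this
  omega

theorem sound (L : Lay n h st tp sp) {T : ℕ → ℕ → ℕ}
    (D : TD (Cell n h tp sp) (n + h) (budget n h sp) T) :
    ∃ μ, Adm n st tp sp μ ∧ ∀ W : ℕ → Prop, (∀ X < n, W (μ X + 2 * h) ↔ W X) →
      (∀ X < h, W X ↔ W (2 * h - 1 - X)) → (∀ q < h, W (n + q) ↔ W (n + 2 * h - 1 - q)) →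
      ∀ q < h, (W q ↔ W 0) := by
  classical
  have hh := L.hpos
  have hn := L.hn
  let Fx : ℕ → ℕ → Prop := fun X Y => X + Y + 1 = h ∨ X = Y + h ∨ X + Y + 1 = 2 * n + h
  let Tip : ℕ → ℕ → Prop := fun X Y => (X < n ∧ sp X = true) ∧ Y = tp X + h + 1
  let g1 : ℕ → ℕ → ℕ := fun X Y => if Cell n h tp sp X Y ∧ Fx X Y then 1 else 0
  let g2 : ℕ → ℕ → ℕ := fun X Y => if Tip X Y then 1 else 0
  have tipCell : ∀ X Y, Tip X Y → Cell n h tp sp X Y ∧ ¬ Fx X Y := by
    rintro X Y ⟨⟨h1, h2⟩, rfl⟩
    have := L.spk X h1 h2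
    simp only [Cell, Fx, h2, Bool.toNat_true]
    omega
  have tipT : ∀ X Y, Tip X Y → 2 ≤ T X Y ∧ Even (T X Y) := by
    intro X Y ht
    have hc := (tipCell X Y ht).1
    obtain ⟨⟨h1, h2⟩, rfl⟩ := ht
    refine D.tip _ _ hc (L.tip_right h1 h2) (L.tip_left h1 h2) ?_
    simp only [Cell, h2, Bool.toNat_true]
    omega
  have fxT : ∀ X Y, Cell n h tp sp X Y → Fx X Y → 0 < T X Y := by
    intro X Y hc hf
    refine D.corner _ _ hc ?_ ?_
    · rcases hf with hf | hf | hf
      · right; intro X' e hc'; unfold Cell at hc'; omega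
      · left; intro hc'; unfold Cell at hc'; omega
      · left; intro hc'; unfold Cell at hc'; omega
    · rcases hf with hf | hf | hf
      · right; intro X' e hc'; unfold Cell at hc'; omega
      · right; intro X' e hc'; unfold Cell at hc'; omega
      · left; intro hc'; unfold Cell at hc'; omega
  let F : ℕ → ℕ → ℕ := fun X Y => T X Y - (g1 X Y + 2 * g2 X Y)
  have hF : ∀ X Y, T X Y = F X Y + g1 X Y + 2 * g2 X Y := by
    intro X Y
    have h1 := tipCell X Y
    have h2 := tipT X Y
    have h3 := fxT X Y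
    simp only [F, g1, g2]
    split_ifs with a b b
    · exact absurd a.2 (h1 b).2
    · have := h3 a.1 a.2; omega
    · have := h2 b; omega
    · omega
  have colG1 : ∀ X < n + h, ∑ Y ∈ range (n + h), g1 X Y = if X < n then 1 else 2 := by
    intro X hX
    have : ∀ Y, g1 X Y = (if (if X < h then h - 1 - X else X - h) = Y then 1 else 0) +
        if (if X < n then n + h else 2 * n + h - 1 - X) = Y ∧ n ≤ X then 1 else 0 := by
      intro Y
      have h1 := L.le X
      have h2 := L.bound X Y
      simp only [g1, Fx, Cell] at h2 ⊢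
      split_ifs <;> omega
    simp only [this, sum_add_distrib, ite_and, sum_ite_eq, mem_range]
    split_ifs <;> omega
  have rowG1 : ∀ Y < n + h, ∑ X ∈ range (n + h), g1 X Y = if Y < h then 2 else 1 := by
    intro Y hY
    have : ∀ X, g1 X Y = (if (if Y < n then Y + h else 2 * n + h - 1 - Y) = X then 1 else 0) +
        if h - 1 - Y = X ∧ Y < h then 1 else 0 := by
      intro X
      have h1 := L.le X
      have h2 := L.bound X Y
      simp only [g1, Fx, Cell] at h2 ⊢
      split_ifs <;> omega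
    simp only [this, sum_add_distrib, ite_and, sum_ite_eq, mem_range]
    split_ifs <;> omega
  have colG2 : ∀ X, ∑ Y ∈ range (n + h), g2 X Y = if X < n ∧ sp X = true then 1 else 0 := by
    intro X
    simp only [g2, Tip]
    by_cases hc : X < n ∧ sp X = true
    · have := L.spk X hc.1 hc.2
      simp only [hc, and_self, true_and, sum_ite_eq', mem_range, if_true]
      rw [if_pos (by omega)]
    · simp [hc]
  have hbud : budget n h sp =
      ∑ X ∈ range (n + h), (2 + 2 * ∑ Y ∈ range (n + h), g2 X Y) := by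
    simp only [budget, colG2, sum_add_distrib, ← mul_sum, sum_const, card_range, smul_eq_mul]
    ring
  have hbud' : budget n h sp =
      ∑ Y ∈ range (n + h), (2 + 2 * ∑ X ∈ range (n + h), g2 X Y) := by
    rw [hbud]
    simp only [sum_add_distrib, ← mul_sum]
    rw [sum_comm]
  have colS : ∀ X, ∑ Y ∈ range (n + h), T X Y = ∑ Y ∈ range (n + h), F X Y +
      ∑ Y ∈ range (n + h), g1 X Y + 2 * ∑ Y ∈ range (n + h), g2 X Y := by
    intro X
    rw [mul_sum, ← sum_add_distrib, ← sum_add_distrib]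
    exact sum_congr rfl fun Y _ => hF X Y
  have rowS : ∀ Y, ∑ X ∈ range (n + h), T X Y = ∑ X ∈ range (n + h), F X Y +
      ∑ X ∈ range (n + h), g1 X Y + 2 * ∑ X ∈ range (n + h), g2 X Y := by
    intro Y
    rw [mul_sum, ← sum_add_distrib, ← sum_add_distrib]
    exact sum_congr rfl fun X _ => hF X Y
  have colF : ∀ X < n + h, ∑ Y ∈ range (n + h), F X Y = if X < n then 1 else 0 := by
    have hle : ∀ X ∈ range (n + h), 2 + 2 * ∑ Y ∈ range (n + h), g2 X Y ≤
        ∑ Y ∈ range (n + h), T X Y := by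
      intro X hX
      have h1 := Nat.even_iff.1 (D.colpar X)
      have h2 := colS X
      have h3 := colG1 X (mem_range.1 hX)
      split_ifs at h3 <;> omega
    have := (sum_eq_sum_iff_of_le hle).1 (le_antisymm (sum_le_sum hle) (hbud ▸ D.sum))
    intro X hX
    have h1 := this X (mem_range.2 hX)
    have h2 := colS X
    have h3 := colG1 X hX
    split_ifs at h3 ⊢ <;> omega
  have rowF : ∀ Y < n + h, ∑ X ∈ range (n + h), F X Y = if Y < h then 0 else 1 := by
    have hle : ∀ Y ∈ range (n + h), 2 + 2 * ∑ X ∈ range (n + h), g2 X Y ≤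
        ∑ X ∈ range (n + h), T X Y := by
      intro Y hY
      have h1 := Nat.even_iff.1 (D.rowpar Y)
      have h2 := rowS Y
      have h3 := rowG1 Y (mem_range.1 hY)
      split_ifs at h3 <;> omega
    have := (sum_eq_sum_iff_of_le hle).1 (le_antisymm (sum_le_sum hle)
      (by rw [sum_comm, ← hbud']; exact D.sum))
    intro Y hY
    have h1 := this Y (mem_range.2 hY)
    have h2 := rowS Y
    have h3 := rowG1 Y hY
    split_ifs at h3 ⊢ <;> omega
  have hex : ∀ X, ∃ u, X < n → u < n ∧ F X (u + h) = 1 := by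
    intro X
    by_cases hX : X < n
    · have h1 := colF X (by omega)
      rw [if_pos hX] at h1
      obtain ⟨Y, hY, h2⟩ := exists_of_sum_eq_one h1
      have hY' := mem_range.1 hY
      have h3 := rowF Y hY'
      have h4 := single_le_sum (f := fun X => F X Y) (fun _ _ => Nat.zero_le _)
        (mem_range.2 (show X < n + h by omega))
      have h5 : h ≤ Y := by
        by_contra h5
        rw [if_pos (by omega)] at h3
        omega
      exact ⟨Y - h, fun _ => ⟨by omega, by rwa [Nat.sub_add_cancel h5]⟩⟩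
    · exact ⟨0, fun h => absurd h hX⟩
  choose μ hμ using hex
  have cls : ∀ X Y, 0 < T X Y → Fx X Y ∨ Tip X Y ∨ (X < n ∧ Y = μ X + h) := by
    intro X Y hT
    have hb := L.bound X Y (D.supp X Y hT)
    by_cases h1 : Fx X Y
    · exact Or.inl h1
    by_cases h2 : Tip X Y
    · exact Or.inr (Or.inl h2)
    have h3 : F X Y ≠ 0 := by
      have := hF X Y
      simp only [g1, g2, h1, h2, and_false, if_false] at this
      omega
    have h4 := colF X hb.1
    have h5 := single_le_sum (f := fun Y => F X Y) (fun _ _ => Nat.zero_le _) (mem_range.2 hb.2)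
    have hX : X < n := by
      by_contra hX
      rw [if_neg hX] at h4
      omega
    rw [if_pos hX] at h4
    have h6 := hμ X hX
    exact Or.inr (Or.inr ⟨hX, eq_of_sum_le_one h4.le (mem_range.2 hb.2)
      (mem_range.2 (by omega)) h3 (by omega)⟩)
  have inj : ∀ X < n, ∀ X' < n, μ X = μ X' → X = X' := by
    intro X hX X' hX' e
    have h1 := hμ X hX
    have h2 := hμ X' hX'
    have h3 := rowF (μ X + h) (by omega)
    rw [if_neg (by omega)] at h3
    exact eq_of_sum_le_one h3.le (mem_range.2 (by omega)) (mem_range.2 (by omega))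
      (by omega) (by rw [e]; omega)
  have hle : ∀ X < n, μ X ≤ tp X := by
    intro X hX
    have h1 := hμ X hX
    have h2 := hF X (μ X + h)
    have h3 := (D.supp X (μ X + h) (by omega)).2.2.2 hX
    by_contra h4
    have h5 : Tip X (μ X + h) := by
      cases hs : sp X <;> simp only [hs, Bool.toNat_false, Bool.toNat_true] at h3
      · omega
      · exact ⟨⟨hX, hs⟩, by omega⟩
    have h6 := Nat.even_iff.1 (tipT _ _ h5).2
    simp only [g1, g2, h5, (tipCell _ _ h5).2, and_false, if_false, if_true] at h2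
    omega
  have hge : ∀ X < n, st X ≤ μ X := by
    intro X hX
    by_contra hc
    have h1 := L.le X hX
    have h2 : Set.SurjOn μ (range (st X) : Finset ℕ) (range (st X) : Finset ℕ) := by
      refine surjOn_of_injOn_of_card_le μ (fun Z hZ => ?_) (fun Z hZ Z' hZ' e => ?_) le_rfl
      · simp only [coe_range, Set.mem_Iio] at hZ ⊢
        have := L.tp_lt hX hZ
        have := hle Z (by omega)
        omega
      · simp only [coe_range, Set.mem_Iio] at hZ hZ'
        exact inj Z (by omega) Z' (by omega) e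
    obtain ⟨Z, hZ, e⟩ := h2 (show μ X ∈ (range (st X) : Finset ℕ) by simp; omega)
    simp only [coe_range, Set.mem_Iio] at hZ
    have := inj Z (by omega) X hX e
    omega
  refine ⟨μ, ⟨fun X hX => ⟨hge X hX, hle X hX⟩, inj, fun X hX X' h1 h2 hs => ?_⟩, ?_⟩
  · have l1 := L.le X hX
    have l2 := L.same X hX X' (by omega) h2
    have l3 := hge X' (by omega)
    have l4 := hle X' (by omega)
    have hc : Cell n h tp sp X (μ X' + h) := by unfold Cell; omega
    rcases D.cover _ _ hc with ⟨Z, hZ, hT, hZ'⟩ | ⟨Y, hY, hT⟩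
    · exfalso
      rcases cls _ _ hT with hf | ⟨⟨t1, t2⟩, t3⟩ | ⟨t1, t2⟩
      · simp only [Fx] at hf; omega
      · have : Z ≠ X := by rintro rfl; simp [hs] at t2
        have h5 := hZ' (Z + 1) (by omega) (by omega)
        rw [t3] at h5
        exact L.tip_right t1 t2 h5
      · have := inj Z t1 X' (by omega) (by omega)
        omega
    · have hb := L.bound _ _ (D.supp _ _ hT)
      rcases cls _ _ hT with hf | ⟨⟨t1, t2⟩, t3⟩ | ⟨t1, t2⟩
      · simp only [Fx] at hf; omega
      · simp [hs] at t2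
      · have : μ X ≠ μ X' := fun e => by have := inj X hX X' (by omega) e; omega
        omega
  · intro W w1 w2 w3 q hq
    have key := D.closed (fun X Y => if Tip X Y then W X else W (Y + h)) (fun X _ => W X)
      (fun X Y c1 c2 => ?_) (fun _ _ _ _ => Iff.rfl) (fun X Y hT => ?_)
    · have cq : ∀ q < h, Cell n h tp sp q (h - 1 - q) ∧ Fx q (h - 1 - q) := by
        intro q hq
        simp only [Cell, Fx]
        omega
      have nt : ∀ q < h, ¬ Tip q (h - 1 - q) := fun q hq ht => (tipCell _ _ ht).2 (cq q hq).2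
      have := key q _ 0 _ (fxT _ _ (cq q hq).1 (cq q hq).2) (fxT _ _ (cq 0 hh).1 (cq 0 hh).2)
      simp only [nt q hq, nt 0 hh, if_false] at this
      rw [w2 q hq, w2 0 hh]
      convert this using 2 <;> omega
    · have n1 : ¬ Tip X Y := by
        rintro ⟨⟨t1, t2⟩, rfl⟩
        exact L.tip_right t1 t2 c2
      have n2 : ¬ Tip (X + 1) Y := by
        rintro ⟨⟨t1, t2⟩, rfl⟩
        exact L.tip_left t1 t2 X rfl c1
      simp only [n1, n2, if_false]
    · by_cases ht : Tip X Y
      · simp only [ht, if_true]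
      simp only [ht, if_false]
      have hb := L.bound _ _ (D.supp _ _ hT)
      have hc := D.supp _ _ hT
      rcases cls _ _ hT with (hf | hf | hf) | hf | ⟨t1, t2⟩
      · rw [w2 X (by omega)]
        rw [show Y + h = 2 * h - 1 - X by omega]
      · rw [hf]
      · have := w3 (X - n) (by omega)
        rw [show n + (X - n) = X by omega] at this
        rw [this, show Y + h = n + 2 * h - 1 - (X - n) by omega]
      · exact absurd hf ht
      · rw [← w1 X t1, t2, show μ X + h + h = μ X + 2 * h by omega]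

end Pool.Agent.P.MP_531d8e_lc
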