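import Pool.Agent.P.MP_531d8e_lc.Walk

/-! The turn counts of a tour, cell by cell. -/

namespace Pool.Agent.P.MP_531d8e_lc

open Finset Function

/-- What we use about the turn counts `T X Y` of a tour of cost at most `k`. -/
structure TD (M : ℕ → ℕ → Prop) (B k : ℕ) (T : ℕ → ℕ → ℕ) : Prop where
  sum : ∑ X ∈ range B, ∑ Y ∈ range B, T X Y ≤ k
  supp : ∀ X Y, 0 < T X Y → M X Y
  rowpar : ∀ Y, Even (∑ X ∈ range B, T X Y)
  colpar : ∀ X, Even (∑ Y ∈ range B, T X Y)
  corner : ∀ X Y, M X Y → (¬ M (X + 1) Y ∨ ∀ X', X' + 1 = X → ¬ M X' Y) →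
    (¬ M X (Y + 1) ∨ ∀ Y', Y' + 1 = Y → ¬ M X Y') → 0 < T X Y
  tip : ∀ X Y, M X Y → ¬ M (X + 1) Y → (∀ X', X' + 1 = X → ¬ M X' Y) → ¬ M X (Y + 1) →
    2 ≤ T X Y ∧ Even (T X Y)
  closed : ∀ A C : ℕ → ℕ → Prop, (∀ X Y, M X Y → M (X + 1) Y → (A X Y ↔ A (X + 1) Y)) →
    (∀ X Y, M X Y → M X (Y + 1) → (C X Y ↔ C X (Y + 1))) →
    (∀ X Y, 0 < T X Y → (A X Y ↔ C X Y)) →
    ∀ X Y X' Y', 0 < T X Y → 0 < T X' Y' → (A X Y ↔ A X' Y')
  cover : ∀ X Y, M X Y → (∃ X' ≤ X, 0 < T X' Y ∧ ∀ Z, X' ≤ Z → Z ≤ X → M Z Y) ∨
    (∃ Y' ≥ Y, 0 < T X Y')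

theorem sum_shift {m : ℕ} {g : ℕ → ℕ} (h : g m = g 0) :
    ∑ i ∈ range m, g (i + 1) = ∑ i ∈ range m, g i := by
  have h1 := sum_range_succ g m
  have h2 := sum_range_succ' g m
  omega

theorem even_line {m : ℕ} {a g : ℕ → ℕ} (h : g m = g 0) (he : ∀ i, (a i + g i + g (i + 1)) % 2 = 0) :
    Even (∑ i ∈ range m, a i) := by
  have h1 : Even (∑ i ∈ range m, (a i + g i + g (i + 1))) :=
    Finset.even_sum _ fun i _ => Nat.even_iff.2 (he i)
  rw [sum_add_distrib, sum_add_distrib, sum_shift h] at h1
  rw [Nat.even_iff] at h1 ⊢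
  omega

theorem td_of_nat {M : ℕ → ℕ → Prop} {B k m : ℕ} (x y t : ℕ → ℕ) (hm : 0 < m)
    (hB : ∀ X Y, M X Y → X < B ∧ Y < B)
    (px : ∀ i, x (i + m) = x i) (py : ∀ i, y (i + m) = y i) (pt : ∀ i, t (i + m) = t i)
    (mem : ∀ i, M (x i) (y i)) (cov : ∀ X Y, M X Y → ∃ i, x i = X ∧ y i = Y)
    (step : ∀ i, (x (i + 1) = x i + 1 ∧ y (i + 1) = y i) ∨ (x (i + 1) + 1 = x i ∧ y (i + 1) = y i) ∨
      (x (i + 1) = x i ∧ y (i + 1) = y i + 1) ∨ (x (i + 1) = x i ∧ y (i + 1) + 1 = y i))
    (ht : ∀ i, (t i = 0 ∧ x (i + 2) + x i = 2 * x (i + 1) ∧ y (i + 2) + y i = 2 * y (i + 1)) ∨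
      (t i = 2 ∧ x (i + 2) = x i ∧ y (i + 2) = y i) ∨
      (t i = 1 ∧ ¬ (x (i + 2) + x i = 2 * x (i + 1) ∧ y (i + 2) + y i = 2 * y (i + 1)) ∧
        ¬ (x (i + 2) = x i ∧ y (i + 2) = y i)))
    (hk : ∑ i ∈ range m, t i ≤ k) : ∃ T, TD M B k T := by
  classical
  let T : ℕ → ℕ → ℕ := fun X Y => ∑ i ∈ range m, if x (i + 1) = X ∧ y (i + 1) = Y then t i else 0
  have leT : ∀ i, t i ≤ T (x (i + 1)) (y (i + 1)) := by
    intro i
    refine le_trans (le_of_eq ?_) (single_le_sum (f := fun j =>
      if x (j + 1) = x (i + 1) ∧ y (j + 1) = y (i + 1) then t j else 0) (fun _ _ => Nat.zero_le _)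
      (mem_range.2 (Nat.mod_lt i hm)))
    have := per_mod pt i 0
    simp only [add_zero] at this
    simp [per_mod px i 1, per_mod py i 1, this]
  have posT : ∀ X Y, 0 < T X Y → ∃ i, x (i + 1) = X ∧ y (i + 1) = Y ∧ 0 < t i := by
    intro X Y h
    obtain ⟨i, -, hi⟩ := exists_ne_zero_of_sum_ne_zero h.ne'
    split_ifs at hi with hc
    · exact ⟨i, hc.1, hc.2, by omega⟩
    · exact absurd rfl hi
  have cov' : ∀ X Y, M X Y → ∃ i, x (i + 1) = X ∧ y (i + 1) = Y := by
    intro X Y h
    obtain ⟨i, h1, h2⟩ := cov X Y h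
    refine ⟨i + m - 1, ?_⟩
    rw [show i + m - 1 + 1 = i + m by omega, px, py]
    exact ⟨h1, h2⟩
  have row : ∀ Y, ∑ X ∈ range B, T X Y = ∑ i ∈ range m, if y (i + 1) = Y then t i else 0 := by
    intro Y
    rw [sum_comm]
    refine sum_congr rfl fun i _ => ?_
    by_cases h : y (i + 1) = Y
    · simp [h, (hB _ _ (mem (i + 1))).1]
    · simp [h]
  have col : ∀ X, ∑ Y ∈ range B, T X Y = ∑ i ∈ range m, if x (i + 1) = X then t i else 0 := by
    intro X
    rw [sum_comm]
    refine sum_congr rfl fun i _ => ?_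
    by_cases h : x (i + 1) = X
    · simp [h, (hB _ _ (mem (i + 1))).2]
    · simp [h]
  refine ⟨T, ?_, ?_, ?_, ?_, ?_, ?_, ?_, ?_⟩
  · simp only [col]
    rw [sum_comm]
    refine le_trans (le_of_eq (sum_congr rfl fun i _ => ?_)) hk
    simp [(hB _ _ (mem (i + 1))).1]
  · intro X Y h
    obtain ⟨i, rfl, rfl, -⟩ := posT X Y h
    exact mem _
  · intro Y
    rw [row]
    refine even_line (g := fun i => if y i = Y ∧ y (i + 1) = Y then 1 else 0) ?_ fun i => ?_
    · have h1 := py 0
      have h2 := py 1
      simp only [zero_add, add_comm 1 m] at h1 h2 ⊢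
      simp only [h1, h2]
    · have h1 := step i
      have h2 := step (i + 1)
      have h3 := ht i
      simp only [add_assoc, Nat.reduceAdd] at h2 ⊢
      split_ifs <;> omega
  · intro X
    rw [col]
    refine even_line (g := fun i => if x i = X ∧ x (i + 1) = X then 1 else 0) ?_ fun i => ?_
    · have h1 := px 0
      have h2 := px 1
      simp only [zero_add, add_comm 1 m] at h1 h2 ⊢
      simp only [h1, h2]
    · have h1 := step i
      have h2 := step (i + 1)
      have h3 := ht i
      simp only [add_assoc, Nat.reduceAdd] at h2 ⊢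
      split_ifs <;> omega
  · intro X Y h hx hy
    obtain ⟨i, rfl, rfl⟩ := cov' X Y h
    refine lt_of_lt_of_le ?_ (leT i)
    by_contra h0
    have h1 := step i
    have h2 := step (i + 1)
    have h3 := ht i
    have m0 := mem i
    have m2 := mem (i + 2)
    simp only [add_assoc, Nat.reduceAdd] at h2
    rcases h1 with h1 | h1 | h1 | h1
    · rcases hx with hx | hx
      · apply hx; convert m2 using 1 <;> omega
      · apply hx (x i) (by omega); convert m0 using 1; omega
    · rcases hx with hx | hx
      · apply hx; convert m0 using 1 <;> omega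
      · apply hx (x (i + 2)) (by omega); convert m2 using 1; omega
    · rcases hy with hy | hy
      · apply hy; convert m2 using 1 <;> omega
      · apply hy (y i) (by omega); convert m0 using 1; omega
    · rcases hy with hy | hy
      · apply hy; convert m0 using 1 <;> omega
      · apply hy (y (i + 2)) (by omega); convert m2 using 1; omega
  · intro X Y h hE hW hN
    have key : ∀ i, x (i + 1) = X → y (i + 1) = Y → t i = 2 := by
      rintro i rfl rfl
      have h1 := step i
      have h2 := step (i + 1)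
      have h3 := ht i
      have m0 := mem i
      have m2 := mem (i + 2)
      simp only [add_assoc, Nat.reduceAdd] at h2
      have e1 : x (i + 1) = x i ∧ y (i + 1) = y i + 1 := by
        rcases h1 with h1 | h1 | h1 | h1
        · exfalso; apply hW (x i) (by omega); convert m0 using 1; omega
        · exfalso; apply hE; convert m0 using 1 <;> omega
        · exact h1
        · exfalso; apply hN; convert m0 using 1 <;> omega
      have e2 : x (i + 2) = x (i + 1) ∧ y (i + 2) + 1 = y (i + 1) := by
        rcases h2 with h2 | h2 | h2 | h2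
        · exfalso; apply hE; convert m2 using 1 <;> omega
        · exfalso; apply hW (x (i + 2)) (by omega); convert m2 using 1; omega
        · exfalso; apply hN; convert m2 using 1 <;> omega
        · exact h2
      omega
    constructor
    · obtain ⟨i, h1, h2⟩ := cov' X Y h
      have := leT i
      rw [key i h1 h2, h1, h2] at this
      exact this
    · refine Finset.even_sum _ fun i _ => ?_
      split_ifs with hc
      · rw [key i hc.1 hc.2]; exact even_two
      · exact Even.zero
  · intro A C hA hC hT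
    let s : ℕ → Prop := fun i => if y (i + 1) = y i then A (x i) (y i) else C (x i) (y i)
    have hs : ∀ i, s i ↔ (if y (i + 1) = y i then A (x (i + 1)) (y (i + 1))
        else C (x (i + 1)) (y (i + 1))) := by
      intro i
      have m0 := mem i
      have m1 := mem (i + 1)
      rcases step i with ⟨h1, h2⟩ | ⟨h1, h2⟩ | ⟨h1, h2⟩ | ⟨h1, h2⟩
      · simp only [s, h2, if_true]
        rw [h1, h2] at m1; rw [h1]; exact hA _ _ m0 m1
      · simp only [s, h2, if_true]
        rw [← h1] at m0 ⊢; rw [h2] at m1; exact (hA _ _ m1 m0).symm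
      · have : ¬ y (i + 1) = y i := by omega
        simp only [s, this, if_false]
        rw [h1, h2] at m1; rw [h1, h2]; exact hC _ _ m0 m1
      · have : ¬ y (i + 1) = y i := by omega
        simp only [s, this, if_false]
        rw [← h1, ← h2] at m0 ⊢; exact (hC _ _ m1 m0).symm
    have hturn : ∀ i, 0 < t i → ((s i ↔ A (x (i + 1)) (y (i + 1))) ∧
        (s (i + 1) ↔ A (x (i + 1)) (y (i + 1)))) := by
      intro i hi
      have := hT _ _ (hi.trans_le (leT i))
      rw [hs i]
      simp only [s]
      constructor <;> split_ifs <;> simp only [this]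
    have hconst : ∀ i, s i ↔ s 0 := by
      intro i
      induction i with
      | zero => rfl
      | succ i ih =>
        rw [← ih]
        by_cases hi : 0 < t i
        · rw [(hturn i hi).1, (hturn i hi).2]
        · rw [hs i]
          have h1 := step i
          have h2 := step (i + 1)
          have h3 := ht i
          simp only [add_assoc, Nat.reduceAdd] at h2
          have : y (i + 1 + 1) = y (i + 1) ↔ y (i + 1) = y i := by
            simp only [add_assoc, Nat.reduceAdd]; omega
          simp only [s, this]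
    intro X Y X' Y' h h'
    obtain ⟨i, rfl, rfl, hi⟩ := posT X Y h
    obtain ⟨j, rfl, rfl, hj⟩ := posT X' Y' h'
    rw [← (hturn i hi).1, ← (hturn j hj).1, hconst i, hconst j]
  · intro X Y h
    by_contra hn
    rw [not_or] at hn
    obtain ⟨hr, hc⟩ := hn
    obtain ⟨i, hx, hy⟩ := cov' X Y h
    by_cases hH : y i = y (i + 1)
    · have key : ∀ e, ∃ j, x (j + 1) + e = X ∧ y (j + 1) = Y ∧
          (∀ Z, x (j + 1) ≤ Z → Z ≤ X → M Z Y) ∧ (y j = Y ∨ y (j + 2) = Y) := by
        intro e
        induction e with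
        | zero =>
          refine ⟨i, hx, hy, fun Z h1 h2 => ?_, by omega⟩
          obtain rfl : Z = X := by omega
          exact h
        | succ e ih =>
          obtain ⟨j, h1, h2, h3, h4⟩ := ih
          have h0 : t j = 0 := by
            by_contra h0
            refine hr ⟨x (j + 1), by omega, ?_, h3⟩
            have := leT j
            rw [h2] at this
            omega
          have s1 := step j
          have s2 := step (j + 1)
          have s3 := ht j
          simp only [add_assoc, Nat.reduceAdd] at s2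
          by_cases hd : x (j + 1) = x j + 1
          · refine ⟨j + m - 1, ?_⟩
            rw [show j + m - 1 + 1 = j + m by omega, show j + m - 1 + 2 = j + 1 + m by omega,
              px, py, py]
            refine ⟨by omega, by omega, fun Z h5 h6 => ?_, by omega⟩
            by_cases hZ : Z = x j
            · have := mem j
              rw [hZ]; convert this using 1; omega
            · exact h3 Z (by omega) h6
          · refine ⟨j + 1, ?_⟩
            simp only [add_assoc, Nat.reduceAdd]
            refine ⟨by omega, by omega, fun Z h5 h6 => ?_, by omega⟩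
            by_cases hZ : Z = x (j + 2)
            · have := mem (j + 2)
              rw [hZ]; convert this using 1; omega
            · exact h3 Z (by omega) h6
      obtain ⟨j, h1, -⟩ := key (X + 1)
      omega
    · have key : ∀ e, ∃ j, x (j + 1) = X ∧ y (j + 1) = Y + e ∧ (x j = X ∨ x (j + 2) = X) := by
        intro e
        induction e with
        | zero =>
          have := step i
          exact ⟨i, hx, hy, by omega⟩
        | succ e ih =>
          obtain ⟨j, h1, h2, h4⟩ := ih
          have h0 : t j = 0 := by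
            by_contra h0
            refine hc ⟨y (j + 1), by omega, ?_⟩
            have := leT j
            rw [h1] at this
            omega
          have s1 := step j
          have s2 := step (j + 1)
          have s3 := ht j
          simp only [add_assoc, Nat.reduceAdd] at s2
          by_cases hd : y (j + 1) + 1 = y j
          · refine ⟨j + m - 1, ?_⟩
            rw [show j + m - 1 + 1 = j + m by omega, show j + m - 1 + 2 = j + 1 + m by omega,
              px, py, px]
            omega
          · refine ⟨j + 1, ?_⟩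
            simp only [add_assoc, Nat.reduceAdd]
            omega
      obtain ⟨j, -, h1, -⟩ := key B
      have := (hB _ _ (mem (j + 1))).2
      omega

theorem td_of_hasTour {V : Finset (ℤ × ℤ)} {M : ℕ → ℕ → Prop} {B k : ℕ}
    (hV : ∀ c, c ∈ V ↔ ∃ X Y : ℕ, c = ((X : ℤ), (Y : ℤ)) ∧ M X Y)
    (hB : ∀ X Y, M X Y → X < B ∧ Y < B) (h2 : ∃ a ∈ V, ∃ b ∈ V, a ≠ b) (h : HasTour V k) :
    ∃ T, TD M B k T := by
  obtain ⟨m, p, hs, hk⟩ := seq_of_hasTour h h2
  choose x y hxy hM using fun i => (hV _).1 (hs.mem i)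
  have inj : ∀ i j, p i = p j → x i = x j ∧ y i = y j := by
    intro i j e
    rw [hxy, hxy] at e
    simpa using e
  refine td_of_nat x y (fun i => turn (p (i + 1) - p i) (p (i + 2) - p (i + 1))) hs.pos hB
    (fun i => (inj _ _ (hs.per i)).1) (fun i => (inj _ _ (hs.per i)).2) (fun i => ?_) hM
    (fun X Y hXY => ?_) (fun i => ?_) (fun i => ?_) hk
  · rw [show i + m + 1 = i + 1 + m by omega, show i + m + 2 = i + 2 + m by omega, hs.per, hs.per,
      hs.per]
  · obtain ⟨i, hi⟩ := hs.cov _ ((hV _).2 ⟨X, Y, rfl, hXY⟩)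
    rw [hxy] at hi
    exact ⟨i, by simpa using hi⟩
  · have := hs.step i
    simp only [hxy, U, Prod.mk_sub_mk, Prod.mk.injEq] at this
    omega
  · simp only [hxy, turn, Prod.mk_sub_mk, Prod.mk.injEq, Prod.neg_mk]
    split_ifs <;> omega

end Pool.Agent.P.MP_531d8e_lc
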