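import Pool.Agent.P.MP_531d8e_lc.Main

/- The former hand-in NPHard (helper20), moved out of Results: it is an instance of Convex. -/
open Pool.Agent.P.MP_531d8e_lc N68a2faeb in
theorem Pool.Agent.P.MP_531d8e_lc.VariantNPHard.result :
    ∀ L ∈ NP, ∃ f : List Bool → List (ℤ × ℤ) × ℕ, IsPolyTime f ∧ ∀ x,
      (gridGraph (f x).1.toFinset).Connected ∧ Solid (f x).1.toFinset ∧
        (L x = true ↔ HasTour (f x).1.toFinset (f x).2) :=
  Pool.Agent.P.MP_531d8e_lc.main
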