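import Pool.Agent.P.MP_531d8e_lc.Defs

/-! Tours as periodic sequences, and tours built from straight segments. -/

namespace Pool.Agent.P.MP_531d8e_lc

open Finset Function

/-- Unit lattice directions. -/
def U (d : ℤ × ℤ) : Prop := d = (1, 0) ∨ d = (-1, 0) ∨ d = (0, 1) ∨ d = (0, -1)

theorem sq_iff (x y : ℤ) : x ^ 2 + y ^ 2 = 1 ↔
    (x = 1 ∧ y = 0) ∨ (x = -1 ∧ y = 0) ∨ (x = 0 ∧ y = 1) ∨ (x = 0 ∧ y = -1) := by
  constructor
  · intro h
    have h1 : -1 ≤ x := by nlinarith [sq_nonneg y, sq_nonneg (x + 1)]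
    have h2 : x ≤ 1 := by nlinarith [sq_nonneg y, sq_nonneg (x - 1)]
    have h3 : -1 ≤ y := by nlinarith [sq_nonneg x, sq_nonneg (y + 1)]
    have h4 : y ≤ 1 := by nlinarith [sq_nonneg x, sq_nonneg (y - 1)]
    interval_cases x <;> interval_cases y <;> simp_all
  · rintro (⟨rfl, rfl⟩ | ⟨rfl, rfl⟩ | ⟨rfl, rfl⟩ | ⟨rfl, rfl⟩) <;> norm_num

theorem adj_iff {V : Finset (ℤ × ℤ)} (a b : V) : (gridGraph V).Adj a b ↔ U (b.1 - a.1) := by
  obtain ⟨⟨a1, a2⟩, ha⟩ := a
  obtain ⟨⟨b1, b2⟩, hb⟩ := b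
  simp only [gridGraph, SimpleGraph.fromRel_adj, ne_eq, Subtype.mk.injEq, Prod.mk.injEq, sq_iff, U,
    Prod.mk_sub_mk]
  omega

structure Seq (V : Finset (ℤ × ℤ)) (m : ℕ) (p : ℕ → ℤ × ℤ) : Prop where
  pos : 0 < m
  per : ∀ i, p (i + m) = p i
  mem : ∀ i, p i ∈ V
  step : ∀ i, U (p (i + 1) - p i)
  cov : ∀ v ∈ V, ∃ i, p i = v

def cost (m : ℕ) (p : ℕ → ℤ × ℤ) : ℕ :=
  ∑ i ∈ range m, turn (p (i + 1) - p i) (p (i + 2) - p (i + 1))

theorem per_mod {α : Type} {m : ℕ} {p : ℕ → α} (h : ∀ i, p (i + m) = p i) (i j : ℕ) :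
    p (i % m + j) = p (i + j) := by
  have : ∀ k i, p (i + k * m) = p i := by
    intro k
    induction k with
    | zero => simp
    | succ k ih => intro i; rw [show i + (k + 1) * m = i + k * m + m by ring, h, ih]
  rw [← this (i / m) (i % m + j)]
  congr 1
  have := Nat.mod_add_div' i m
  omega

theorem exists_walk {V : Finset (ℤ × ℤ)} (k : ℕ) : ∀ (q : ℕ → V),
    (∀ i, (gridGraph V).Adj (q i) (q (i + 1))) →
    ∃ w : (gridGraph V).Walk (q 0) (q k), w.length = k ∧ ∀ i ≤ k, w.getVert i = q i := by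
  induction k with
  | zero =>
    intro q _
    refine ⟨SimpleGraph.Walk.nil, rfl, fun i hi => ?_⟩
    obtain rfl : i = 0 := by omega
    rfl
  | succ k ih =>
    intro q hq
    obtain ⟨w, h1, h2⟩ := ih (fun i => q (i + 1)) fun i => hq (i + 1)
    refine ⟨SimpleGraph.Walk.cons (hq 0) w, by simp [h1], fun i hi => ?_⟩
    cases i with
    | zero => rfl
    | succ i => rw [SimpleGraph.Walk.getVert_cons_succ]; exact h2 i (by omega)

theorem hasTour_of_seq {V : Finset (ℤ × ℤ)} {m k : ℕ} {p : ℕ → ℤ × ℤ} (h : Seq V m p)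
    (hk : cost m p ≤ k) : HasTour V k := by
  let q : ℕ → V := fun i => ⟨p i, h.mem i⟩
  obtain ⟨w, h1, h2⟩ := exists_walk m q fun i => (adj_iff _ _).2 (h.step i)
  have e : q m = q 0 := Subtype.ext (by simpa [q] using h.per 0)
  refine ⟨q 0, w.copy rfl e, fun u => ?_, ?_⟩
  · obtain ⟨i, hi⟩ := h.cov u.1 u.2
    rw [SimpleGraph.Walk.support_copy, SimpleGraph.Walk.mem_support_iff_exists_getVert]
    have hl := Nat.mod_lt i h.pos
    refine ⟨i % m, ?_, by omega⟩
    rw [h2 _ hl.le]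
    exact Subtype.ext ((per_mod h.per i 0).trans hi)
  · refine le_trans (le_of_eq ?_) hk
    unfold turnCost cost
    rw [SimpleGraph.Walk.length_copy, h1]
    refine sum_congr rfl fun i hi => ?_
    have hi' := mem_range.1 hi
    have hl := Nat.mod_lt (i + 1) h.pos
    simp only [SimpleGraph.Walk.getVert_copy]
    rw [h2 _ (by omega), h2 _ (by omega), h2 _ (by omega), h2 _ (by omega)]
    have e1 := per_mod h.per (i + 1) 1
    have e2 := per_mod h.per (i + 1) 0
    simp only [q, add_zero] at e1 e2 ⊢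
    rw [e1, e2]

theorem seq_of_hasTour {V : Finset (ℤ × ℤ)} {k : ℕ} (h : HasTour V k)
    (hV : ∃ a ∈ V, ∃ b ∈ V, a ≠ b) : ∃ m p, Seq V m p ∧ cost m p ≤ k := by
  obtain ⟨v, w, hw, hk⟩ := h
  have hpos : 0 < w.length := by
    by_contra h0
    obtain ⟨a, ha, b, hb, hab⟩ := hV
    have key : ∀ u : V, u = v := by
      intro u
      obtain ⟨i, hi, hi'⟩ := SimpleGraph.Walk.mem_support_iff_exists_getVert.1 (hw u)
      obtain rfl : i = 0 := by omega
      simpa using hi.symm
    exact hab (congrArg Subtype.val ((key ⟨a, ha⟩).trans (key ⟨b, hb⟩).symm))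
  have hs : ∀ i, w.getVert ((i + 1) % w.length) = w.getVert (i % w.length + 1) := by
    intro i
    have hl := Nat.mod_lt i hpos
    by_cases e : i % w.length + 1 = w.length
    · have : (i + 1) % w.length = 0 := by
        rw [← Nat.mod_add_mod, e, Nat.mod_self]
      rw [this, e]; simp
    · have : (i + 1) % w.length = i % w.length + 1 := by
        rw [← Nat.mod_add_mod]; exact Nat.mod_eq_of_lt (by omega)
      rw [this]
  refine ⟨w.length, fun i => (w.getVert (i % w.length)).1, ⟨hpos, fun i => by simp,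
    fun i => Subtype.mem _, fun i => ?_, fun u hu => ?_⟩, le_trans (le_of_eq ?_) hk⟩
  · rw [hs]
    exact (adj_iff _ _).1 (w.adj_getVert_succ (Nat.mod_lt i hpos))
  · obtain ⟨i, hi, hi'⟩ := SimpleGraph.Walk.mem_support_iff_exists_getVert.1 (hw ⟨u, hu⟩)
    by_cases e : i = w.length
    · refine ⟨0, ?_⟩
      rw [e] at hi
      simp only [SimpleGraph.Walk.getVert_length] at hi
      simp [hi]
    · exact ⟨i, by rw [Nat.mod_eq_of_lt (by omega), hi]⟩
  · unfold turnCost cost
    refine sum_congr rfl fun i hi => ?_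
    have hi' := mem_range.1 hi
    simp only
    rw [hs (i + 1)]
    conv_lhs => enter [1, 1]; rw [hs i]
    rw [Nat.mod_eq_of_lt hi']

@[simp] theorem turn_self (d : ℤ × ℤ) : turn d d = 0 := by simp [turn]

/-- A tour assembled from straight segments. -/
theorem hasTour_of_segments {V : Finset (ℤ × ℤ)} {σ : Type} (S : Finset σ) (nx : σ → σ)
    (st d : σ → ℤ × ℤ) (len : σ → ℕ) (s₀ : σ) (h₀ : s₀ ∈ S) (hnx : ∀ s ∈ S, nx s ∈ S)
    (hlen : ∀ s ∈ S, 0 < len s) (hd : ∀ s ∈ S, U (d s))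
    (hst : ∀ s ∈ S, st (nx s) = st s + (len s : ℤ) • d s)
    (hV : ∀ s ∈ S, ∀ j < len s, st s + (j : ℤ) • d s ∈ V)
    (hper : ∃ N, 0 < N ∧ nx^[N] s₀ = s₀)
    (hcov : ∀ v ∈ V, ∃ s, (∃ N, nx^[N] s₀ = s) ∧ ∃ j ≤ len s, v = st s + (j : ℤ) • d s) :
    HasTour V (∑ s ∈ S, turn (d s) (d (nx s))) := by
  classical
  let f : σ × ℕ → σ × ℕ := fun x => if x.2 + 1 < len x.1 then (x.1, x.2 + 1) else (nx x.1, 0)
  let x₀ : σ × ℕ := (s₀, 0)
  have hin : ∀ i, (f^[i] x₀).1 ∈ S ∧ (f^[i] x₀).2 < len (f^[i] x₀).1 := by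
    intro i
    induction i with
    | zero => exact ⟨h₀, hlen _ h₀⟩
    | succ i ih =>
      rw [iterate_succ_apply']
      generalize f^[i] x₀ = x at ih
      simp only [f]
      split_ifs with hc
      · exact ⟨ih.1, hc⟩
      · exact ⟨hnx _ ih.1, hlen _ (hnx _ ih.1)⟩
  have hwalk : ∀ s j, j < len s → f^[j] (s, 0) = (s, j) := by
    intro s j
    induction j with
    | zero => intro _; rfl
    | succ j ih =>
      intro hj
      rw [iterate_succ_apply', ih (by omega)]
      simp [f, hj]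
  have hnext : ∀ s ∈ S, f^[len s] (s, 0) = (nx s, 0) := by
    intro s hs
    obtain ⟨l, hl⟩ : ∃ l, len s = l + 1 := ⟨len s - 1, by have := hlen s hs; omega⟩
    rw [hl, iterate_succ_apply', hwalk s l (by omega)]
    simp [f, hl]
  have hreach : ∀ N, nx^[N] s₀ ∈ S ∧ ∃ i, N ≤ i ∧ f^[i] x₀ = (nx^[N] s₀, 0) := by
    intro N
    induction N with
    | zero => exact ⟨h₀, 0, le_rfl, rfl⟩
    | succ N ih =>
      obtain ⟨h1, i, hi, h2⟩ := ih
      rw [iterate_succ_apply']
      refine ⟨hnx _ h1, len (nx^[N] s₀) + i, by have := hlen _ h1; omega, ?_⟩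
      rw [iterate_add_apply, h2, hnext _ h1]
  have hp : x₀ ∈ periodicPts f := by
    obtain ⟨N, hN, e⟩ := hper
    obtain ⟨-, i, hi, h2⟩ := hreach N
    rw [e] at h2
    exact mk_mem_periodicPts (n := i) (by omega) h2
  let pos : σ × ℕ → ℤ × ℤ := fun x => st x.1 + (x.2 : ℤ) • d x.1
  have hstep : ∀ i, pos (f^[i + 1] x₀) - pos (f^[i] x₀) = d (f^[i] x₀).1 := by
    intro i
    rw [iterate_succ_apply']
    obtain ⟨h1, h2⟩ := hin i
    generalize f^[i] x₀ = x at h1 h2
    simp only [f, pos]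
    split_ifs with hc
    · push_cast; rw [add_smul]; simp
    · have : len x.1 = x.2 + 1 := by omega
      simp only
      rw [hst _ h1, this]; push_cast; rw [add_smul]; simp
  refine hasTour_of_seq (m := minimalPeriod f x₀) (p := fun i => pos (f^[i] x₀))
    ⟨minimalPeriod_pos_of_mem_periodicPts hp, fun i => ?_, fun i => hV _ (hin i).1 _ (hin i).2,
      fun i => ?_, fun v hv => ?_⟩ ?_
  · rw [iterate_add_apply, iterate_minimalPeriod]
  · rw [hstep]; exact hd _ (hin i).1
  · obtain ⟨s, ⟨N, rfl⟩, j, hj, rfl⟩ := hcov v hv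
    obtain ⟨h1, i, -, h2⟩ := hreach N
    refine ⟨j + i, ?_⟩
    rw [iterate_add_apply, h2]
    rcases hj.lt_or_eq with hj | rfl
    · rw [hwalk _ _ hj]
    · rw [hnext _ h1]; simp [pos, hst _ h1]
  · unfold cost
    simp only [hstep]
    rw [← sum_filter_add_sum_filter_not _ (fun i => (f^[i] x₀).2 + 1 < len (f^[i] x₀).1)]
    rw [sum_eq_zero (s := filter _ _), zero_add]
    · rw [sum_congr rfl (g := fun i => turn (d (f^[i] x₀).1) (d (nx (f^[i] x₀).1)))]
      · rw [← sum_image (g := fun i => (f^[i] x₀).1) (f := fun s => turn (d s) (d (nx s)))]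
        · refine sum_le_sum_of_subset fun s hs => ?_
          obtain ⟨i, -, rfl⟩ := mem_image.1 hs
          exact (hin i).1
        · intro i hi j hj e
          simp only [coe_filter, mem_range, Set.mem_ofPred_eq] at hi hj e
          refine iterate_injOn_Iio_minimalPeriod (f := f) (x := x₀) hi.1 hj.1 ?_
          have h1 := (hin i).2
          have h2 := (hin j).2
          refine Prod.ext e ?_
          have h3 := hi.2
          have h4 := hj.2
          simp only
          rw [e] at h1 h3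
          omega
      · intro i hi
        rw [iterate_succ_apply']
        simp only [f, (mem_filter.1 hi).2, if_false]
    · intro i hi
      rw [iterate_succ_apply']
      simp only [f, (mem_filter.1 hi).2, if_true, turn_self]

end Pool.Agent.P.MP_531d8e_lc
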